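import Mathlib

set_option autoImplicit false

/-!
# Counting number fields: the exponent is `O (log n)`. Definitions

Shared definitions of all the modules `Pool.Agent.UpLog.*`.
-/

namespace Pool.Agent.UpLog

open NumberField Module MvPolynomial

/-- weighted degree of an exponent vector -/
def wdeg {σ : Type} [Fintype σ] (w : σ → ℕ) (α : σ →₀ ℕ) : ℕ := ∑ j, w j * α j

/-- `f` has weighted degree at most `d` -/
def WLe {σ : Type} [Fintype σ] {k : Type*} [CommRing k] (w : σ → ℕ) (d : ℕ)
    (f : MvPolynomial σ k) : Prop := ∀ α ∈ f.support, wdeg w α ≤ d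

/-- the Taylor expansion `f ↦ f (x + T)` at the `A`-point `x` -/
noncomputable def tay {σ : Type} {k A : Type*} [CommRing k] [CommRing A] [Algebra k A]
    (x : σ → A) : MvPolynomial σ k →ₐ[k] MvPolynomial σ A := aeval (fun j => C (x j) + X j)

/-- the polynomials over `k` of weighted degree at most `d` realise all jets of order `< b` at the
`A`-point `x` -/
def Good (k : Type*) {σ : Type} [Fintype σ] {A : Type*} [CommRing k] [CommRing A] [Algebra k A]
    (w : σ → ℕ) (d b : ℕ) (x : σ → A) : Prop :=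
  ∀ u : (σ →₀ ℕ) → A, ∃ f : MvPolynomial σ k, WLe w d f ∧
    ∀ β : σ →₀ ℕ, β.degree < b → coeff β (tay (k := k) x f) = u β

/-- the polynomials over `Ω` of weighted degree at most `d` realise all systems of jets of order
`< b` at the points `z i` -/
def GoodC {σ : Type} [Fintype σ] {ι Ω : Type*} [CommRing Ω]
    (w : σ → ℕ) (d b : ℕ) (z : ι → σ → Ω) : Prop :=
  ∀ u : ι → (σ →₀ ℕ) → Ω, ∃ f : MvPolynomial σ Ω, WLe w d f ∧
    ∀ i, ∀ β : σ →₀ ℕ, β.degree < b → coeff β (tay (k := Ω) (z i) f) = u i β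

/-- the kernel of the evaluation `k[x] → A` at an `A`-point -/
noncomputable def Kr (k : Type*) {σ : Type} {A : Type*} [CommRing k] [CommRing A] [Algebra k A]
    (x : σ → A) : Ideal (MvPolynomial σ k) :=
  RingHom.ker (aeval x : MvPolynomial σ k →ₐ[k] A)

/-- the reduction modulo `p` of a point with coordinates in the integers of `L` -/
noncomputable def red {σ : Type} {L : Type*} [Field L] (p : ℕ)
    (x : σ → 𝓞 L) : σ → 𝓞 L ⧸ Ideal.span {((p : ℕ) : 𝓞 L)} :=
  fun j => Ideal.Quotient.mk _ (x j)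

/-- the hypotheses of the core theorem on a number field `L` containing `K` and a tuple `x` of
integers of `L` -/
structure Adm (K : Type) [Field K] [NumberField K] {σ : Type} [Fintype σ] (n κ c₀ B : ℕ)
    (w : σ → ℕ) (c₁ : ℕ) (C₁ Y : ℝ) (L : Type) [Field L] [NumberField L] [Algebra K L]
    (x : σ → 𝓞 L) : Prop where
  deg : finrank K L = n
  size : ∀ j, house ((x j : 𝓞 L) : L) ≤ C₁ * Y ^ w j
  disc : (|discr L| : ℝ) ≤ C₁ * Y ^ c₁
  good : ∀ b, 1 ≤ b → b ≤ B → Good K w (κ * (b - 1) + c₀) b (fun j => ((x j : 𝓞 L) : L))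

end Pool.Agent.UpLog
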