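import Mathlib
import Pool.Agent.UpLog.Defs
import Pool.Agent.Helper58.NF.Prod

set_option autoImplicit false

/-!
# A basis consisting of small integers
-/

namespace Pool.Agent.UpLog.BS

open NumberField Module Pool.Agent.helper22 Pool.Agent.Helper58.NF

lemma dim_add_le {K L : Type*} [Field K] [Field L] [Algebra K L] [FiniteDimensional K L]
    [Algebra.IsSeparable K L] (V W : Submodule K L) (h : V * W ≠ ⊤) :
    finrank K V + finrank K W ≤ finrank K L := by
  have hB := traceForm_nondegenerate K L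
  have h1 : finrank K ((Algebra.traceForm K L).orthogonal (V * W)) =
      finrank K L - finrank K (V * W : Submodule K L) :=
    LinearMap.BilinForm.finrank_orthogonal hB _
  have h2 : finrank K (V * W : Submodule K L) < finrank K L := Submodule.finrank_lt h
  have h3 : (Algebra.traceForm K L).orthogonal (V * W) ≠ ⊥ := by
    intro h0
    rw [h0, finrank_bot] at h1
    omega
  obtain ⟨c, hc, hc0⟩ := Submodule.exists_mem_ne_zero_of_ne_bot h3
  have h4 : W.map (LinearMap.mulLeft K c) ≤ (Algebra.traceForm K L).orthogonal V := by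
    rintro _ ⟨v, hv, rfl⟩
    rw [LinearMap.BilinForm.mem_orthogonal_iff]
    intro v' hv'
    have h5 := (LinearMap.BilinForm.mem_orthogonal_iff.1 hc) (v' * v) (Submodule.mul_mem_mul hv' hv)
    rw [Algebra.traceForm_apply] at h5 ⊢
    rw [LinearMap.mulLeft_apply]
    rw [← h5]
    congr 1
    ring
  have h5 : finrank K (W.map (LinearMap.mulLeft K c)) = finrank K W := by
    have hinj : Function.Injective (LinearMap.mulLeft K c) := fun x y hxy =>
      mul_left_cancel₀ hc0 hxy
    exact (LinearEquiv.finrank_eq (Submodule.equivMapOfInjective _ hinj W)).symm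
  have h6 := Submodule.finrank_mono h4
  rw [h5, LinearMap.BilinForm.finrank_orthogonal hB] at h6
  have h7 : finrank K V ≤ finrank K L := Submodule.finrank_le V
  omega

section

variable (K L : Type) [Field K] [NumberField K] [Field L] [NumberField L] [Algebra K L]

/-- the span of the integers of house at most `t` -/
def VV (t : ℝ) : Submodule K L := Submodule.span K {x : L | IsIntegral ℤ x ∧ house x ≤ t}

variable {K L}

lemma VV_mul {t t' Z : ℝ} (ht : 0 ≤ t) (h : t * t' ≤ Z) : VV K L t * VV K L t' ≤ VV K L Z := by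
  rw [VV, VV, Submodule.span_mul_span]
  apply Submodule.span_mono
  intro z hz
  obtain ⟨x, hx, y, hy, rfl⟩ := Set.mem_mul.1 hz
  refine ⟨hx.1.mul hy.1, (house_mul_le x y).trans (le_trans ?_ h)⟩
  exact mul_le_mul hx.2 hy.2 (house_nonneg y) ht

lemma cnt_pow_le {A : ℝ} (hA : 1 ≤ A) (j : ℕ) :
    (cnt L (A ^ j) : ℝ) ≤ (3 * A) ^ (∑ i ∈ Finset.range j,
      finrank ℚ K * finrank K (VV K L (A ^ (i + 1)))) * (cnt L 1 : ℝ) := by
  induction j with
  | zero => simp
  | succ j ih =>
    have hA0 : 0 < A := by linarith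
    have hr : finrank ℚ ((VV K L (A ^ (j + 1))).restrictScalars ℚ) =
        finrank ℚ K * finrank K (VV K L (A ^ (j + 1))) := by
      rw [Module.finrank_mul_finrank ℚ K (VV K L (A ^ (j + 1)))]
      rfl
    have h1 := cnt_doubling_sub L ((VV K L (A ^ (j + 1))).restrictScalars ℚ)
      (R := A ^ (j + 1)) (t := A ^ j) (by positivity)
      (pow_le_pow_right₀ hA (Nat.le_succ j))
      (fun x hx => Submodule.subset_span ⟨x.2, hx⟩)
    rw [hr] at h1
    have h2 : 1 + 2 * A ^ (j + 1) / A ^ j ≤ 3 * A := by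
      have : 2 * A ^ (j + 1) / A ^ j = 2 * A := by
        rw [pow_succ]; field_simp
      rw [this]; linarith
    have h3 : 0 ≤ 1 + 2 * A ^ (j + 1) / A ^ j := by positivity
    calc (cnt L (A ^ (j + 1)) : ℝ)
        ≤ (1 + 2 * A ^ (j + 1) / A ^ j) ^ (finrank ℚ K * finrank K (VV K L (A ^ (j + 1)))) *
          (cnt L (A ^ j) : ℝ) := h1
      _ ≤ (3 * A) ^ (finrank ℚ K * finrank K (VV K L (A ^ (j + 1)))) *
          ((3 * A) ^ (∑ i ∈ Finset.range j,
            finrank ℚ K * finrank K (VV K L (A ^ (i + 1)))) * (cnt L 1 : ℝ)) := by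
          gcongr
      _ = (3 * A) ^ (∑ i ∈ Finset.range (j + 1),
            finrank ℚ K * finrank K (VV K L (A ^ (i + 1)))) * (cnt L 1 : ℝ) := by
          rw [Finset.sum_range_succ, pow_add]; ring

lemma sum_le {A : ℝ} (hA : 1 ≤ A) (m : ℕ) (hm : 1 ≤ m) (htop : VV K L (A ^ (2 * m)) ≠ ⊤) :
    2 * (∑ i ∈ Finset.range (2 * m), finrank ℚ K * finrank K (VV K L (A ^ (i + 1)))) ≤
      (2 * m + 1) * (finrank ℚ K * finrank K L) := by
  obtain ⟨M, rfl⟩ : ∃ M, m = M + 1 := ⟨m - 1, by omega⟩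
  have hA0 : 0 < A := by linarith
  set D : ℕ → ℕ := fun j => finrank K (VV K L (A ^ j)) with hD
  have hpair : ∀ i ∈ Finset.range (2 * M + 1), D (i + 1) + D (2 * M + 1 - i) ≤ finrank K L := by
    intro i hi
    rw [Finset.mem_range] at hi
    apply dim_add_le
    intro h
    apply htop
    rw [eq_top_iff, ← h]
    apply VV_mul (by positivity)
    rw [← pow_add]
    apply le_of_eq
    congr 1
    omega
  have hlast : D (2 * M + 2) ≤ finrank K L := Submodule.finrank_le _
  have hrefl := Finset.sum_range_reflect (fun i => D (i + 1)) (2 * M + 1)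
  have h1 : ∑ j ∈ Finset.range (2 * M + 1), D (2 * M + 1 - j) =
      ∑ j ∈ Finset.range (2 * M + 1), D (j + 1) := by
    rw [← hrefl]
    apply Finset.sum_congr rfl
    intro j hj
    rw [Finset.mem_range] at hj
    congr 1
    omega
  have h2 : 2 * ∑ j ∈ Finset.range (2 * M + 1), D (j + 1) ≤ (2 * M + 1) * finrank K L := by
    calc 2 * ∑ j ∈ Finset.range (2 * M + 1), D (j + 1)
        = ∑ j ∈ Finset.range (2 * M + 1), D (j + 1) +
          ∑ j ∈ Finset.range (2 * M + 1), D (2 * M + 1 - j) := by rw [h1]; ring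
      _ = ∑ j ∈ Finset.range (2 * M + 1), (D (j + 1) + D (2 * M + 1 - j)) := by
          rw [Finset.sum_add_distrib]
      _ ≤ ∑ _j ∈ Finset.range (2 * M + 1), finrank K L := Finset.sum_le_sum hpair
      _ = _ := by rw [Finset.sum_const, Finset.card_range, smul_eq_mul]
  have h3 : ∑ i ∈ Finset.range (2 * (M + 1)), finrank ℚ K * finrank K (VV K L (A ^ (i + 1))) =
      finrank ℚ K * (∑ j ∈ Finset.range (2 * M + 1), D (j + 1) + D (2 * M + 2)) := by
    rw [← Finset.mul_sum]
    congr 1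
    rw [show 2 * (M + 1) = 2 * M + 1 + 1 by ring, Finset.sum_range_succ]
  rw [h3]
  calc 2 * (finrank ℚ K * (∑ j ∈ Finset.range (2 * M + 1), D (j + 1) + D (2 * M + 2)))
      = finrank ℚ K * (2 * ∑ j ∈ Finset.range (2 * M + 1), D (j + 1) + 2 * D (2 * M + 2)) := by ring
    _ ≤ finrank ℚ K * ((2 * M + 1) * finrank K L + 2 * finrank K L) := by
        apply Nat.mul_le_mul_left
        omega
    _ = _ := by ring

end

end Pool.Agent.UpLog.BS

namespace Pool.Agent.UpLog

open NumberField Module MvPolynomial Pool.Agent.helper22 Pool.Agent.Helper58.NF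

theorem small_basis' (δ n m : ℕ) (hm : 1 ≤ m) :
    ∃ C : ℝ, 1 ≤ C ∧ ∀ (K L : Type) [Field K] [NumberField K] [Field L] [NumberField L]
      [Algebra K L], finrank ℚ K = δ → finrank K L = n → ∀ X : ℝ, 1 ≤ X → (|discr L| : ℝ) ≤ X →
      ∃ u : Fin n → L, LinearIndependent K u ∧ ∀ i, IsIntegral ℤ (u i) ∧
        house (u i) ≤ C * X ^ ((1 + 1 / (m : ℝ)) / ((δ : ℝ) * n)) := by
  set N := δ * n with hN
  have hvol := vol_pos N
  set Kc : ℝ := 225 ^ N * 3 ^ ((2 * m + 1) * N) with hKc
  have hKc0 : 0 < Kc := by positivity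
  set C0 : ℝ := Kc / vol N ^ 2 + 1 with hC0
  have hC01 : 1 ≤ C0 := by
    have : 0 ≤ Kc / vol N ^ 2 := by positivity
    linarith
  refine ⟨C0 ^ (2 * m), one_le_pow₀ hC01, ?_⟩
  intro K L _ _ _ _ _ hδ hn X hX hD
  have hX0 : 0 < X := by linarith
  have hδ0 : 0 < δ := hδ ▸ Module.finrank_pos
  have hn0 : 0 < n := hn ▸ Module.finrank_pos
  have hN0 : 0 < N := Nat.mul_pos hδ0 hn0
  have hNL : finrank ℚ L = N := by rw [hN, ← hδ, ← hn, Module.finrank_mul_finrank]
  have hmr : (1 : ℝ) ≤ m := by exact_mod_cast hm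
  have hm0 : (0 : ℝ) < m := by linarith
  have hNr : (1 : ℝ) ≤ N := by exact_mod_cast hN0
  have hN0r : (0 : ℝ) < N := by linarith
  have hNcast : ((δ : ℝ) * n) = N := by rw [hN]; push_cast; ring
  rw [hNcast]
  set s : ℝ := (1 + 1 / (m : ℝ)) / (2 * m * N) with hs
  have hs0 : 0 < s := by positivity
  set A : ℝ := C0 * X ^ s with hA
  have hXs : 1 ≤ X ^ s := Real.one_le_rpow hX hs0.le
  have hA1 : 1 ≤ A := one_le_mul_of_one_le_of_one_le hC01 hXs
  have hA0 : 0 < A := by linarith
  have hZ : A ^ (2 * m) = C0 ^ (2 * m) * X ^ ((1 + 1 / (m : ℝ)) / N) := by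
    rw [hA, mul_pow, ← Real.rpow_natCast (X ^ s), ← Real.rpow_mul hX0.le]
    congr 2
    rw [hs]
    push_cast
    field_simp
  rw [← hZ]
  have htop : BS.VV K L (A ^ (2 * m)) = ⊤ := by
    by_contra htop
    have h1 := BS.cnt_pow_le (K := K) (L := L) hA1 (2 * m)
    have h2 := BS.sum_le (K := K) (L := L) hA1 m hm htop
    set S := ∑ i ∈ Finset.range (2 * m), finrank ℚ K * finrank K (BS.VV K L (A ^ (i + 1))) with hS
    rw [hδ, hn, ← hN] at h2
    have h3 : (cnt L 1 : ℝ) ≤ 5 ^ N := by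
      have := cnt_le L (T := 1) (by norm_num)
      rw [hNL] at this
      norm_num at this
      exact this
    have h4 := cnt_lower_uniform L (R := A ^ (2 * m)) (by positivity)
    rw [hNL] at h4
    have hD1 : (1 : ℝ) ≤ |(discr L : ℝ)| := by
      have h5 : (1 : ℤ) ≤ |discr L| := Int.one_le_abs (NumberField.discr_ne_zero L)
      have h6 : ((1 : ℤ) : ℝ) ≤ ((|discr L| : ℤ) : ℝ) := by exact_mod_cast h5
      simpa using h6
    have hD' : |(discr L : ℝ)| ≤ X := by simpa using hD
    have hsq : 0 < √|(discr L : ℝ)| := Real.sqrt_pos.2 (by linarith)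
    have h5 : vol N * (A ^ (2 * m) / 3) ^ N ≤ (3 * A) ^ S * 5 ^ N * √X := by
      rw [div_le_iff₀ hsq] at h4
      calc vol N * (A ^ (2 * m) / 3) ^ N ≤ (cnt L (A ^ (2 * m)) : ℝ) * √|(discr L : ℝ)| := h4
        _ ≤ ((3 * A) ^ S * (cnt L 1 : ℝ)) * √X := by gcongr
        _ ≤ (3 * A) ^ S * 5 ^ N * √X := by gcongr
    have h6 : (vol N * (A ^ (2 * m) / 3) ^ N) ^ 2 ≤ ((3 * A) ^ S * 5 ^ N * √X) ^ 2 :=
      pow_le_pow_left₀ (by positivity) h5 2
    have h7 : ((3 * A) ^ S * 5 ^ N * √X) ^ 2 ≤ (3 * A) ^ ((2 * m + 1) * N) * 25 ^ N * X := by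
      have e1 : ((3 * A) ^ S * 5 ^ N * √X) ^ 2 = (3 * A) ^ (2 * S) * (5 ^ 2) ^ N * X := by
        rw [mul_pow, mul_pow, Real.sq_sqrt hX0.le, ← pow_mul, ← pow_mul, ← pow_mul,
          mul_comm S 2, mul_comm N 2]
      rw [e1]
      have e2 : (5 : ℝ) ^ 2 = 25 := by norm_num
      rw [e2]
      gcongr
      linarith
    have h8 : vol N ^ 2 * A ^ ((2 * m - 1) * N) ≤ Kc * X := by
      have e3 : (vol N * (A ^ (2 * m) / 3) ^ N) ^ 2 =
          vol N ^ 2 * A ^ ((2 * m - 1) * N) * A ^ ((2 * m + 1) * N) / 9 ^ N := by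
        have e4 : A ^ ((2 * m - 1) * N) * A ^ ((2 * m + 1) * N) = (A ^ (2 * m * N)) ^ 2 := by
          rw [← pow_add, ← pow_mul]
          congr 1
          rw [← Nat.add_mul]
          have : 2 * m - 1 + (2 * m + 1) = 2 * m * 2 := by omega
          rw [this]; ring
        rw [mul_assoc (vol N ^ 2), e4, div_pow, ← pow_mul, mul_pow, div_pow]
        rw [show (9 : ℝ) = 3 ^ 2 by norm_num, ← pow_mul 3 2 N, ← pow_mul 3 N 2, mul_comm 2 N,
          mul_div_assoc]
      have e5 := h6.trans h7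
      rw [e3, div_le_iff₀ (by positivity)] at e5
      have e6 : (3 * A) ^ ((2 * m + 1) * N) * 25 ^ N * X * 9 ^ N =
          Kc * X * A ^ ((2 * m + 1) * N) := by
        rw [hKc, show (225 : ℝ) = 25 * 9 by norm_num, mul_pow 25 9, mul_pow 3 A]
        generalize (25 : ℝ) ^ N = u1
        generalize (9 : ℝ) ^ N = u2
        ring
      rw [e6] at e5
      exact le_of_mul_le_mul_right e5 (by positivity)
    have h9 : C0 * X ≤ A ^ ((2 * m - 1) * N) := by
      rw [hA, mul_pow]
      apply mul_le_mul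
      · apply le_self_pow₀ hC01
        have : 0 < 2 * m - 1 := by omega
        positivity
      · rw [← Real.rpow_natCast (X ^ s), ← Real.rpow_mul hX0.le]
        conv_lhs => rw [← Real.rpow_one X]
        apply Real.rpow_le_rpow_of_exponent_le hX
        have hc : (((2 * m - 1) * N : ℕ) : ℝ) = (2 * m - 1) * N := by
          rw [Nat.cast_mul, Nat.cast_sub (by omega)]
          push_cast
          ring
        rw [hc, hs]
        have : (1 + 1 / (m : ℝ)) / (2 * m * N) * ((2 * m - 1) * N) =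
            (m + 1) * (2 * m - 1) / (2 * m ^ 2) := by
          field_simp
        rw [this, le_div_iff₀ (by positivity)]
        nlinarith
      · positivity
      · positivity
    have h10 : vol N ^ 2 * C0 = Kc + vol N ^ 2 := by
      rw [hC0]; field_simp
    have h11 : vol N ^ 2 * C0 * X ≤ Kc * X := by
      calc vol N ^ 2 * C0 * X = vol N ^ 2 * (C0 * X) := by ring
        _ ≤ vol N ^ 2 * A ^ ((2 * m - 1) * N) := by gcongr
        _ ≤ Kc * X := h8
    have h12 : vol N ^ 2 * C0 ≤ Kc := le_of_mul_le_mul_right h11 hX0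
    rw [h10] at h12
    have : 0 < vol N ^ 2 := by positivity
    linarith
  obtain ⟨u, hu, hli⟩ := exists_indep (K := K) {x : L | IsIntegral ℤ x ∧ house x ≤ A ^ (2 * m)} n
    (by
      have : Submodule.span K {x : L | IsIntegral ℤ x ∧ house x ≤ A ^ (2 * m)} = ⊤ := htop
      rw [this, finrank_top, hn])
  exact ⟨u, hli, fun i => hu i⟩

end Pool.Agent.UpLog
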