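import Mathlib
import Pool.Agent.UpLog.Defs

set_option autoImplicit false

/-!
# Basic lemmas on weighted degrees and Taylor expansions
-/

namespace Pool.Agent.UpLog

open NumberField Module MvPolynomial

section wdeg

variable {σ : Type} [Fintype σ] (w : σ → ℕ)

@[simp] lemma wdeg_zero : wdeg w 0 = 0 := by simp [wdeg]

lemma wdeg_add (α β : σ →₀ ℕ) : wdeg w (α + β) = wdeg w α + wdeg w β := by
  simp [wdeg, mul_add, Finset.sum_add_distrib]

lemma wdeg_mono {α β : σ →₀ ℕ} (h : α ≤ β) : wdeg w α ≤ wdeg w β :=
  Finset.sum_le_sum fun j _ => Nat.mul_le_mul_left _ (h j)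

lemma wdeg_single [DecidableEq σ] (j : σ) (n : ℕ) : wdeg w (Finsupp.single j n) = w j * n := by
  unfold wdeg
  rw [Finset.sum_eq_single j]
  · simp
  · intro i _ hi
    simp [Finsupp.single_eq_of_ne hi]
  · simp

lemma degree_eq_sum (α : σ →₀ ℕ) : α.degree = ∑ j, α j := by
  rw [Finsupp.degree_eq_sum]

lemma degree_le_wdeg (hw : ∀ j, 1 ≤ w j) (α : σ →₀ ℕ) : α.degree ≤ wdeg w α := by
  rw [degree_eq_sum]
  exact Finset.sum_le_sum fun j _ => Nat.le_mul_of_pos_left _ (hw j)

lemma apply_le_wdeg (hw : ∀ j, 1 ≤ w j) (α : σ →₀ ℕ) (j : σ) : α j ≤ wdeg w α :=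
  (Nat.le_mul_of_pos_left _ (hw j)).trans
    (Finset.single_le_sum (f := fun j => w j * α j) (fun _ _ => Nat.zero_le _) (Finset.mem_univ j))

lemma wdeg_one (α : σ →₀ ℕ) : wdeg (fun _ => 1) α = α.degree := by
  rw [degree_eq_sum]; simp [wdeg]

end wdeg

section WLe

variable {σ : Type} [Fintype σ] {k k' : Type*} [CommRing k] [CommRing k'] {w : σ → ℕ} {d d' : ℕ}
  {f g : MvPolynomial σ k}

lemma WLe.mono (h : WLe w d f) (hd : d ≤ d') : WLe w d' f := fun α hα => (h α hα).trans hd

lemma WLe.zero : WLe w d (0 : MvPolynomial σ k) := by intro α hα; simp at hα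

lemma WLe.add (hf : WLe w d f) (hg : WLe w d g) : WLe w d (f + g) := by
  classical
  intro α hα
  rcases Finset.mem_union.1 (MvPolynomial.support_add hα) with h | h
  · exact hf α h
  · exact hg α h

lemma WLe.neg (hf : WLe w d f) : WLe w d (-f) := by
  intro α hα
  rw [MvPolynomial.support_neg] at hα
  exact hf α hα

lemma WLe.sub (hf : WLe w d f) (hg : WLe w d g) : WLe w d (f - g) := by
  rw [sub_eq_add_neg]; exact hf.add hg.neg

lemma WLe.sum {ι : Type*} (s : Finset ι) (F : ι → MvPolynomial σ k) (h : ∀ i ∈ s, WLe w d (F i)) :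
    WLe w d (∑ i ∈ s, F i) := by
  classical
  induction s using Finset.induction_on with
  | empty => simpa using WLe.zero
  | insert a s ha ih =>
    rw [Finset.sum_insert ha]
    exact (h a (Finset.mem_insert_self _ _)).add (ih fun i hi => h i (Finset.mem_insert_of_mem hi))

lemma WLe.monomial {α : σ →₀ ℕ} (h : wdeg w α ≤ d) (a : k) :
    WLe w d (MvPolynomial.monomial α a) := by
  classical
  intro β hβ
  have := MvPolynomial.support_monomial_subset hβ
  rw [Finset.mem_singleton] at this
  rwa [this]

lemma WLe.C (a : k) : WLe w d (MvPolynomial.C a : MvPolynomial σ k) := by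
  rw [MvPolynomial.C_apply]
  exact WLe.monomial (by simp) a

lemma WLe.one : WLe w d (1 : MvPolynomial σ k) := by
  have := WLe.C (w := w) (d := d) (σ := σ) (1 : k)
  simpa using this

lemma WLe.mul (hf : WLe w d f) (hg : WLe w d' g) : WLe w (d + d') (f * g) := by
  classical
  intro α hα
  obtain ⟨β, hβ, γ, hγ, rfl⟩ := Finset.mem_add.1 (MvPolynomial.support_mul f g hα)
  rw [wdeg_add]
  exact Nat.add_le_add (hf β hβ) (hg γ hγ)

lemma WLe.C_mul (hf : WLe w d f) (a : k) : WLe w d (MvPolynomial.C a * f) := by
  have := (WLe.C (w := w) (d := 0) (σ := σ) a).mul hf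
  simpa using this

lemma WLe.smul (hf : WLe w d f) (a : k) : WLe w d (a • f) := by
  rw [MvPolynomial.smul_eq_C_mul]; exact hf.C_mul a

lemma WLe.X [DecidableEq σ] (j : σ) (h : w j ≤ d) : WLe w d (MvPolynomial.X j : MvPolynomial σ k) := by
  rw [MvPolynomial.X]
  exact WLe.monomial (by rw [wdeg_single]; simpa using h) 1

lemma WLe.pow (hf : WLe w d f) (m : ℕ) : WLe w (m * d) (f ^ m) := by
  induction m with
  | zero => simpa using WLe.one (σ := σ) (k := k)
  | succ m ih =>
    rw [pow_succ]
    exact (ih.mul hf).mono (by ring_nf; exact le_rfl)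

lemma WLe.prod {ι : Type*} (s : Finset ι) (F : ι → MvPolynomial σ k) (D : ι → ℕ)
    (h : ∀ i ∈ s, WLe w (D i) (F i)) : WLe w (∑ i ∈ s, D i) (∏ i ∈ s, F i) := by
  classical
  induction s using Finset.induction_on with
  | empty => simpa using WLe.one
  | insert a s ha ih =>
    rw [Finset.prod_insert ha, Finset.sum_insert ha]
    exact (h a (Finset.mem_insert_self _ _)).mul (ih fun i hi => h i (Finset.mem_insert_of_mem hi))

lemma WLe.map (φ : k →+* k') (hf : WLe w d f) : WLe w d (MvPolynomial.map φ f) :=
  fun α hα => hf α (MvPolynomial.support_map_subset φ f hα)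

/-- the submodule of polynomials of weighted degree at most `d` -/
def WSub (k : Type*) [CommRing k] {σ : Type} [Fintype σ] (w : σ → ℕ) (d : ℕ) :
    Submodule k (MvPolynomial σ k) where
  carrier := {f | WLe w d f}
  add_mem' := fun ha hb => WLe.add ha hb
  zero_mem' := WLe.zero
  smul_mem' := fun c _ h => WLe.smul h c

lemma mem_WSub : f ∈ WSub k w d ↔ WLe w d f := Iff.rfl

end WLe

section tay

variable {σ : Type} {k A B : Type*} [CommRing k] [CommRing A] [Algebra k A]
  [CommRing B] [Algebra k B]

@[simp] lemma tay_C (x : σ → A) (a : k) : tay (k := k) x (C a) = C (algebraMap k A a) := by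
  unfold tay
  rw [MvPolynomial.aeval_C]
  rfl

@[simp] lemma tay_X (x : σ → A) (j : σ) : tay (k := k) x (X j) = C (x j) + X j := by
  simp [tay]

/-- the constant term of the Taylor expansion is the value -/
lemma coeff_zero_tay (x : σ → A) (f : MvPolynomial σ k) :
    coeff 0 (tay (k := k) x f) = aeval x f := by
  have h : (MvPolynomial.constantCoeff : MvPolynomial σ A →+* A).comp
      (tay (k := k) x : MvPolynomial σ k →+* MvPolynomial σ A) =
      (aeval x : MvPolynomial σ k →ₐ[k] A) := by
    apply MvPolynomial.ringHom_ext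
    · intro r; simp
    · intro i; simp
  have := congrArg (fun φ => φ f) h
  simpa [MvPolynomial.constantCoeff_eq] using this

/-- Taylor expansion and change of rings -/
lemma map_tay (φ : A →ₐ[k] B) (x : σ → A) (f : MvPolynomial σ k) :
    MvPolynomial.map (φ : A →+* B) (tay (k := k) x f) = tay (k := k) (fun j => φ (x j)) f := by
  have h : (MvPolynomial.map (φ : A →+* B)).comp
      (tay (k := k) x : MvPolynomial σ k →+* MvPolynomial σ A) =
      (tay (k := k) (fun j => φ (x j)) : MvPolynomial σ k →+* MvPolynomial σ B) := by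
    apply MvPolynomial.ringHom_ext
    · intro r; simp
    · intro i; simp
  exact congrArg (fun ψ => ψ f) h

lemma coeff_tay_map (φ : A →ₐ[k] B) (x : σ → A) (f : MvPolynomial σ k) (β : σ →₀ ℕ) :
    coeff β (tay (k := k) (fun j => φ (x j)) f) = φ (coeff β (tay (k := k) x f)) := by
  rw [← map_tay, MvPolynomial.coeff_map]; rfl

/-- Taylor formula: the value at `x + y` -/
lemma eval_tay (x y : σ → A) (f : MvPolynomial σ k) :
    MvPolynomial.eval y (tay (k := k) x f) = aeval (fun j => x j + y j) f := by
  have h : (MvPolynomial.eval y).comp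
      (tay (k := k) x : MvPolynomial σ k →+* MvPolynomial σ A) =
      (aeval (fun j => x j + y j) : MvPolynomial σ k →ₐ[k] A) := by
    apply MvPolynomial.ringHom_ext
    · intro r; simp
    · intro i; simp
  exact congrArg (fun ψ => ψ f) h

variable [Fintype σ]

/-- the jets of a monomial -/
lemma coeff_tay_monomial (x : σ → A) (α β : σ →₀ ℕ) (a : k) :
    coeff β (tay (k := k) x (monomial α a)) =
      algebraMap k A a * ∏ j, (((α j).choose (β j) : ℕ) : A) * x j ^ (α j - β j) := by
  classical
  have h1 : tay (k := k) x (monomial α a) =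
      C (algebraMap k A a) * ∏ j, (C (x j) + X j) ^ α j := by
    rw [MvPolynomial.monomial_eq, map_mul, tay_C, Finsupp.prod_fintype _ _ (by simp), map_prod]
    simp
  rw [h1, MvPolynomial.coeff_C_mul]
  congr 1
  have h2 : ∀ j, (C (x j) + X j : MvPolynomial σ A) ^ α j =
      ∑ m ∈ Finset.range (α j + 1), monomial (Finsupp.single j m)
        ((((α j).choose m : ℕ) : A) * x j ^ (α j - m)) := by
    intro j
    rw [add_comm, add_pow]
    apply Finset.sum_congr rfl
    intro m _
    rw [MvPolynomial.X_pow_eq_monomial, ← map_pow, ← map_natCast (C : A →+* MvPolynomial σ A),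
      MvPolynomial.C_apply, MvPolynomial.C_apply, MvPolynomial.monomial_mul,
      MvPolynomial.monomial_mul]
    simp [mul_comm]
  simp_rw [h2]
  rw [Finset.prod_univ_sum]
  rw [MvPolynomial.coeff_sum]
  have h3 : ∀ f ∈ Fintype.piFinset (fun j => Finset.range (α j + 1)),
      coeff β (∏ j, monomial (Finsupp.single j (f j))
        ((((α j).choose (f j) : ℕ) : A) * x j ^ (α j - f j))) =
      if (fun j => β j) = f then ∏ j, (((α j).choose (f j) : ℕ) : A) * x j ^ (α j - f j) else 0 := by
    intro f _
    have h4 : ∏ j, monomial (Finsupp.single j (f j))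
        ((((α j).choose (f j) : ℕ) : A) * x j ^ (α j - f j)) =
        monomial (∑ j, Finsupp.single j (f j))
          (∏ j, ((((α j).choose (f j) : ℕ) : A) * x j ^ (α j - f j))) := by
      rw [MvPolynomial.monomial_sum_prod]
    rw [h4, MvPolynomial.coeff_monomial]
    have h5 : (∑ j, Finsupp.single j (f j) = β) ↔ ((fun j => β j) = f) := by
      constructor
      · intro h
        funext i
        rw [← h]
        simp [Finsupp.finsetSum_apply, Finsupp.single_apply]
      · intro h
        ext i
        rw [← h]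
        simp [Finsupp.finsetSum_apply, Finsupp.single_apply]
    by_cases h6 : (fun j => β j) = f
    · rw [if_pos (h5.2 h6), if_pos h6]
    · rw [if_neg (fun h => h6 (h5.1 h)), if_neg h6]
  rw [Finset.sum_congr rfl h3]
  rw [Finset.sum_ite_eq]
  split_ifs with h7
  · rfl
  · symm
    rw [Fintype.mem_piFinset] at h7
    push Not at h7
    obtain ⟨j, hj⟩ := h7
    apply Finset.prod_eq_zero (Finset.mem_univ j)
    rw [Finset.mem_range, not_lt] at hj
    rw [Nat.choose_eq_zero_of_lt hj]
    simp

/-- the jets of a polynomial in terms of its coefficients -/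
lemma coeff_tay_eq_sum (x : σ → A) (f : MvPolynomial σ k) (β : σ →₀ ℕ) :
    coeff β (tay (k := k) x f) = ∑ α ∈ f.support, algebraMap k A (coeff α f) *
      ∏ j, (((α j).choose (β j) : ℕ) : A) * x j ^ (α j - β j) := by
  conv_lhs => rw [MvPolynomial.as_sum f]
  rw [map_sum, MvPolynomial.coeff_sum]
  exact Finset.sum_congr rfl fun α _ => coeff_tay_monomial x α β _

/-- polynomials over `k` and over `A` have the same Taylor expansions -/
lemma tay_map_algebraMap (x : σ → A) (f : MvPolynomial σ k) :
    tay (k := A) x (MvPolynomial.map (algebraMap k A) f) = tay (k := k) x f := by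
  have h : (tay (k := A) x : MvPolynomial σ A →+* MvPolynomial σ A).comp
      (MvPolynomial.map (algebraMap k A)) =
      (tay (k := k) x : MvPolynomial σ k →+* MvPolynomial σ A) := by
    apply MvPolynomial.ringHom_ext
    · intro r; simp
    · intro i; simp
  exact congrArg (fun ψ => ψ f) h

/-- Taylor formula in the polynomial ring itself, at a point `c` with polynomial coordinates -/
lemma taylor_sum (c : σ → MvPolynomial σ k) (f : MvPolynomial σ k) :
    f = ∑ β ∈ (tay (k := k) c f).support,
      coeff β (tay (k := k) c f) * ∏ j, (X j - c j) ^ β j := by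
  have h := eval_tay (k := k) c (fun j => X j - c j) f
  have h2 : (aeval (fun j => c j + (X j - c j)) f : MvPolynomial σ k) = f := by
    have : (fun j => c j + (X j - c j)) = (X : σ → MvPolynomial σ k) := by
      funext j; ring
    rw [this]
    exact MvPolynomial.aeval_X_left_apply f
  rw [h2, MvPolynomial.eval_eq'] at h
  exact h.symm

/-- only finitely many jets: the exponents of degree less than `b` -/
lemma finite_degree_lt (b : ℕ) : {β : σ →₀ ℕ | β.degree < b}.Finite := by
  classical
  have h : Set.Finite (Set.pi Set.univ (fun _ : σ => (Set.Iio b : Set ℕ))) :=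
    Set.Finite.pi' (fun _ => Set.finite_Iio b) |>.subset (by intro f hf; simpa using hf)
  refine Set.Finite.subset (h.preimage (DFunLike.coe_injective.injOn)) ?_
  intro β hβ
  simp only [Set.mem_preimage, Set.mem_pi, Set.mem_univ, Set.mem_Iio, forall_const]
  intro j
  rw [Set.mem_ofPred_eq, degree_eq_sum] at hβ
  exact lt_of_le_of_lt (Finset.single_le_sum (fun _ _ => Nat.zero_le _) (Finset.mem_univ j)) hβ

end tay

end Pool.Agent.UpLog
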