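import Mathlib
import Pool.Agent.UpLog.Defs

set_option autoImplicit false

/-!
# The number of classes
-/

namespace Pool.Agent.UpLog

open NumberField Module MvPolynomial

namespace CL

/-- a number field of degree `δ` has at most `δ` ring homomorphisms from its integers to a field -/
theorem hom_card (K : Type) [Field K] [NumberField K] (F : Type) [Field F] :
    Finite (𝓞 K →+* F) ∧ Nat.card (𝓞 K →+* F) ≤ finrank ℚ K := by
  classical
  let b := Module.Free.chooseBasis ℤ (𝓞 K)
  have hli : LinearIndependent F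
      (fun (φ : 𝓞 K →+* F) (i : Module.Free.ChooseBasisIndex ℤ (𝓞 K)) => φ (b i)) := by
    have h1 := linearIndependent_monoidHom (𝓞 K) F
    have h2 : LinearIndependent F (fun (φ : 𝓞 K →+* F) => ((φ : 𝓞 K →* F) : 𝓞 K → F)) :=
      h1.comp (fun φ : 𝓞 K →+* F => (φ : 𝓞 K →* F)) (by
        intro φ ψ h
        ext x
        exact DFunLike.congr_fun h x)
    rw [linearIndependent_iff'] at h2 ⊢
    intro s g hg φ hφ
    refine h2 s g ?_ φ hφ
    funext y
    have hy : y = ∑ i, b.repr y i • b i := (b.sum_repr y).symm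
    simp only [Finset.sum_apply, Pi.smul_apply, smul_eq_mul, Pi.zero_apply, MonoidHom.coe_coe]
    have h3 : ∀ ψ : 𝓞 K →+* F, ψ y = ∑ i, (b.repr y i : F) * ψ (b i) := by
      intro ψ
      conv_lhs => rw [hy]
      rw [map_sum]
      refine Finset.sum_congr rfl fun i _ => ?_
      rw [zsmul_eq_mul, map_mul, map_intCast]
    calc ∑ ψ ∈ s, g ψ * ψ y = ∑ ψ ∈ s, ∑ i, (b.repr y i : F) * (g ψ * ψ (b i)) := by
          refine Finset.sum_congr rfl fun ψ _ => ?_
          rw [h3 ψ, Finset.mul_sum]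
          refine Finset.sum_congr rfl fun i _ => ?_
          ring
      _ = ∑ i, (b.repr y i : F) * ∑ ψ ∈ s, g ψ * ψ (b i) := by
          rw [Finset.sum_comm]
          refine Finset.sum_congr rfl fun i _ => ?_
          rw [Finset.mul_sum]
      _ = 0 := by
          refine Finset.sum_eq_zero fun i _ => ?_
          have h4 := congrFun hg i
          simp only [Finset.sum_apply, Pi.smul_apply, smul_eq_mul, Pi.zero_apply] at h4
          rw [h4, mul_zero]
  have hfin : Finite (𝓞 K →+* F) := hli.finite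
  refine ⟨hfin, ?_⟩
  have := Fintype.ofFinite (𝓞 K →+* F)
  rw [Nat.card_eq_fintype_card]
  refine (hli.fintype_card_le_finrank).trans ?_
  rw [Module.finrank_fintype_fun_eq_card, ← Module.finrank_eq_card_chooseBasisIndex,
    RingOfIntegers.rank]

/-- the number of kernels of ring homomorphisms to a finite field -/
theorem ker_card (K : Type) [Field K] [NumberField K] {σ : Type} [Fintype σ] (F : Type) [Field F]
    [Finite F] :
    {I : Ideal (MvPolynomial σ (𝓞 K)) | ∃ φ : MvPolynomial σ (𝓞 K) →+* F,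
      I = RingHom.ker φ}.Finite ∧
    {I : Ideal (MvPolynomial σ (𝓞 K)) | ∃ φ : MvPolynomial σ (𝓞 K) →+* F,
      I = RingHom.ker φ}.ncard ≤ finrank ℚ K * Nat.card F ^ Fintype.card σ := by
  classical
  obtain ⟨hfin, hcard⟩ := hom_card K F
  let E : (MvPolynomial σ (𝓞 K) →+* F) → (𝓞 K →+* F) × (σ → F) :=
    fun φ => (φ.comp C, fun j => φ (X j))
  have hE : Function.Injective E := by
    intro φ ψ h
    apply MvPolynomial.ringHom_ext
    · intro r
      exact DFunLike.congr_fun (congrArg Prod.fst h) r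
    · intro j
      exact congrFun (congrArg Prod.snd h) j
  have : Finite (MvPolynomial σ (𝓞 K) →+* F) := Finite.of_injective E hE
  have hset : {I : Ideal (MvPolynomial σ (𝓞 K)) | ∃ φ : MvPolynomial σ (𝓞 K) →+* F,
      I = RingHom.ker φ} = Set.range (fun φ : MvPolynomial σ (𝓞 K) →+* F => RingHom.ker φ) := by
    ext I
    simp only [Set.mem_ofPred_eq, Set.mem_range]
    constructor
    · rintro ⟨φ, rfl⟩; exact ⟨φ, rfl⟩
    · rintro ⟨φ, rfl⟩; exact ⟨φ, rfl⟩
  rw [hset]
  refine ⟨Set.finite_range _, ?_⟩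
  rw [← Nat.card_coe_set_eq]
  refine (Nat.card_le_card_of_surjective _ Set.rangeFactorization_surjective).trans ?_
  refine (Nat.card_le_card_of_injective E hE).trans ?_
  rw [Nat.card_prod]
  refine Nat.mul_le_mul hcard ?_
  rw [Nat.card_fun, Nat.card_eq_fintype_card (α := σ)]

/-- a reduced finite algebra of characteristic `p` gives a family of kernels to finite fields -/
theorem structure_kr {k : Type} [CommRing k] {σ : Type} {A : Type} [CommRing A] [Algebra k A]
    [IsReduced A] [Finite A] (p : ℕ) [Fact p.Prime] [CharP A p] (N : ℕ)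
    (hcard : Nat.card A = p ^ N) (x : σ → A) :
    ∃ (t : ℕ) (f : Fin t → ℕ), t ≤ N ∧ (∀ i, f i ≤ N) ∧ (∀ i, f i ≠ 0) ∧ ∑ i, f i = N ∧
      ∃ I : Fin t → Ideal (MvPolynomial σ k),
        (∀ i, ∃ φ : MvPolynomial σ k →+* GaloisField p (f i), I i = RingHom.ker φ) ∧
        Kr k x = ⨅ i, I i := by
  classical
  have hp : p.Prime := Fact.out
  have : Finite (MaximalSpectrum A) := inferInstance
  have := Fintype.ofFinite (MaximalSpectrum A)
  let e := IsArtinianRing.equivPi A
  -- the residue fields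
  have hF : ∀ m : MaximalSpectrum A, ∃ f : ℕ, f ≠ 0 ∧ Nat.card (A ⧸ m.asIdeal) = p ^ f ∧
      Nonempty ((A ⧸ m.asIdeal) ≃+* GaloisField p f) := by
    intro m
    have hm : m.asIdeal.IsMaximal := m.isMaximal
    have hfq : Finite (A ⧸ m.asIdeal) := Finite.of_surjective _ Ideal.Quotient.mk_surjective
    let _ : Field (A ⧸ m.asIdeal) := Ideal.Quotient.field m.asIdeal
    have hc : CharP (A ⧸ m.asIdeal) p := by
      rw [CharP.charP_iff_prime_eq_zero hp]
      have : (p : A) = 0 := CharP.cast_eq_zero A p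
      have h2 := congrArg (Ideal.Quotient.mk m.asIdeal) this
      rw [map_natCast, map_zero] at h2
      exact h2
    have := Fintype.ofFinite (A ⧸ m.asIdeal)
    obtain ⟨n, -, hn⟩ := FiniteField.card (A ⧸ m.asIdeal) p
    have hn' : Nat.card (A ⧸ m.asIdeal) = p ^ (n : ℕ) := by
      rw [Nat.card_eq_fintype_card, hn]
    let _ : Algebra (ZMod p) (A ⧸ m.asIdeal) := ZMod.algebra _ p
    exact ⟨n, n.ne_zero, hn', ⟨(GaloisField.algEquivGaloisField p n hn').toRingEquiv⟩⟩
  choose f hf0 hfc hfe using hF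
  have hsum : ∑ m, f m = N := by
    have h1 : Nat.card A = ∏ m : MaximalSpectrum A, Nat.card (A ⧸ m.asIdeal) := by
      rw [Nat.card_congr e.toEquiv, Nat.card_pi]
    rw [hcard, Finset.prod_congr rfl (fun m _ => hfc m), Finset.prod_pow_eq_pow_sum] at h1
    exact (Nat.pow_right_injective hp.two_le h1).symm
  let τ : Fin (Fintype.card (MaximalSpectrum A)) ≃ MaximalSpectrum A :=
    (Fintype.equivFin (MaximalSpectrum A)).symm
  refine ⟨Fintype.card (MaximalSpectrum A), fun i => f (τ i), ?_, ?_, fun i => hf0 _, ?_, ?_⟩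
  · calc Fintype.card (MaximalSpectrum A) = ∑ _m : MaximalSpectrum A, 1 := by simp
      _ ≤ ∑ m, f m := Finset.sum_le_sum fun m _ => Nat.one_le_iff_ne_zero.mpr (hf0 m)
      _ = N := hsum
  · intro i
    rw [← hsum]
    exact Finset.single_le_sum (fun m _ => Nat.zero_le (f m)) (Finset.mem_univ (τ i))
  · rw [Equiv.sum_comp τ f, hsum]
  · refine ⟨fun i => RingHom.ker (((Ideal.Quotient.mk (τ i).asIdeal).comp
      (aeval x : MvPolynomial σ k →ₐ[k] A).toRingHom)), ?_, ?_⟩
    · intro i
      obtain ⟨g⟩ := hfe (τ i)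
      refine ⟨(g : (A ⧸ (τ i).asIdeal) →+* GaloisField p (f (τ i))).comp
        ((Ideal.Quotient.mk (τ i).asIdeal).comp
          (aeval x : MvPolynomial σ k →ₐ[k] A).toRingHom), ?_⟩
      ext z
      simp only [RingHom.mem_ker, RingHom.comp_apply]
      constructor
      · intro h
        rw [h, map_zero]
      · intro h
        exact g.injective (by rw [map_zero]; exact h)
    · ext z
      rw [Ideal.mem_iInf]
      simp only [RingHom.mem_ker, RingHom.comp_apply, Kr]
      constructor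
      · intro h i
        have : (aeval x : MvPolynomial σ k →ₐ[k] A).toRingHom z = 0 := h
        rw [this, map_zero]
      · intro h
        have h2 : e (aeval x z) = 0 := by
          funext m
          have h3 := h (τ.symm m)
          rw [Equiv.apply_symm_apply] at h3
          exact h3
        exact e.injective (by rw [h2, map_zero])

end CL

theorem classes (K : Type) [Field K] [NumberField K] {σ : Type} [Fintype σ] (N : ℕ) :
    ∃ C : ℕ, ∀ p : ℕ, p.Prime →
      {J : Ideal (MvPolynomial σ (𝓞 K)) | ∃ (A : Type) (_ : CommRing A) (_ : Algebra (𝓞 K) A)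
        (x : σ → A), IsReduced A ∧ Finite A ∧ CharP A p ∧ Nat.card A = p ^ N ∧
          J = Kr (𝓞 K) x}.Finite ∧
      {J : Ideal (MvPolynomial σ (𝓞 K)) | ∃ (A : Type) (_ : CommRing A) (_ : Algebra (𝓞 K) A)
        (x : σ → A), IsReduced A ∧ Finite A ∧ CharP A p ∧ Nat.card A = p ^ N ∧
          J = Kr (𝓞 K) x}.ncard ≤ C * p ^ (N * Fintype.card σ) := by
  classical
  refine ⟨∑ t ∈ Finset.range (N + 1), ∑ _f : Fin t → Fin (N + 1), finrank ℚ K ^ t, ?_⟩
  intro p hp
  have : Fact p.Prime := ⟨hp⟩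
  let H : ℕ → Set (Ideal (MvPolynomial σ (𝓞 K))) := fun f =>
    {I | ∃ φ : MvPolynomial σ (𝓞 K) →+* GaloisField p f, I = RingHom.ker φ}
  let T : ∀ t : ℕ, (Fin t → Fin (N + 1)) → Set (Ideal (MvPolynomial σ (𝓞 K))) := fun t f =>
    {J | (∀ i, (f i : ℕ) ≠ 0) ∧ ∑ i, (f i : ℕ) = N ∧
      J ∈ Set.range (fun I : ∀ i : Fin t, H (f i) => ⨅ i, (I i : Ideal (MvPolynomial σ (𝓞 K))))}
  have hH : ∀ f : ℕ, f ≠ 0 → (H f).Finite ∧ Nat.card (H f) ≤
      finrank ℚ K * p ^ (f * Fintype.card σ) := by
    intro f hf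
    obtain ⟨h1, h2⟩ := CL.ker_card K (σ := σ) (GaloisField p f)
    refine ⟨h1, ?_⟩
    rw [Nat.card_coe_set_eq]
    refine h2.trans (le_of_eq ?_)
    rw [GaloisField.card p f hf, ← pow_mul]
  have hT : ∀ t f, (T t f).Finite ∧ (T t f).ncard ≤
      finrank ℚ K ^ t * p ^ (N * Fintype.card σ) := by
    intro t f
    by_cases hf : (∀ i, (f i : ℕ) ≠ 0) ∧ ∑ i, (f i : ℕ) = N
    · have hfin : ∀ i, Finite (H (f i)) := fun i => (hH (f i) (hf.1 i)).1.to_subtype
      have hTe : T t f = Set.range (fun I : ∀ i : Fin t, H (f i) =>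
          ⨅ i, (I i : Ideal (MvPolynomial σ (𝓞 K)))) := by
        ext J
        exact ⟨fun h => h.2.2, fun h => ⟨hf.1, hf.2, h⟩⟩
      rw [hTe]
      refine ⟨Set.finite_range _, ?_⟩
      rw [← Nat.card_coe_set_eq]
      refine (Nat.card_le_card_of_surjective _ Set.rangeFactorization_surjective).trans ?_
      rw [Nat.card_pi]
      refine (Finset.prod_le_prod' fun i _ => (hH (f i) (hf.1 i)).2).trans (le_of_eq ?_)
      rw [Finset.prod_mul_distrib, Finset.prod_const, Finset.prod_pow_eq_pow_sum,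
        ← Finset.sum_mul, hf.2, Finset.card_univ, Fintype.card_fin]
    · have hTe : T t f = ∅ := by
        ext J
        constructor
        · intro h
          exact (hf ⟨h.1, h.2.1⟩).elim
        · intro h
          exact h.elim
      rw [hTe]
      simp
  have hsub : {J : Ideal (MvPolynomial σ (𝓞 K)) | ∃ (A : Type) (_ : CommRing A)
      (_ : Algebra (𝓞 K) A) (x : σ → A), IsReduced A ∧ Finite A ∧ CharP A p ∧
        Nat.card A = p ^ N ∧ J = Kr (𝓞 K) x} ⊆
      ⋃ t ∈ Finset.range (N + 1), ⋃ f : Fin t → Fin (N + 1), T t f := by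
    rintro J ⟨A, _, _, x, _, _, _, hc, rfl⟩
    obtain ⟨t, f, ht, hfN, hf0, hfs, I, hI, hK⟩ := CL.structure_kr (k := 𝓞 K) p N hc x
    simp only [Set.mem_iUnion]
    refine ⟨t, Finset.mem_range.mpr (Nat.lt_succ_of_le ht),
      fun i => ⟨f i, Nat.lt_succ_of_le (hfN i)⟩, hf0, hfs, fun i => ⟨I i, hI i⟩, hK.symm⟩
  have hfinU : (⋃ t ∈ Finset.range (N + 1), ⋃ f : Fin t → Fin (N + 1), T t f).Finite :=
    Set.Finite.biUnion (Finset.finite_toSet _) fun t _ => Set.finite_iUnion fun f => (hT t f).1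
  refine ⟨hfinU.subset hsub, ?_⟩
  refine (Set.ncard_le_ncard hsub hfinU).trans ?_
  refine (Finset.set_ncard_biUnion_le _ _).trans ?_
  rw [Finset.sum_mul]
  refine Finset.sum_le_sum fun t _ => ?_
  refine (Set.ncard_iUnion_le_of_fintype _).trans ?_
  rw [Finset.sum_mul]
  exact Finset.sum_le_sum fun f _ => (hT t f).2

end Pool.Agent.UpLog
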