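import Mathlib

set_option autoImplicit false

/-!
# Determinant bound for the index

Module DT of the project UpLog: the index of the lattice spanned by a full family of tuples of
algebraic integers is at most `S!` times the product of the houses.
-/

namespace Pool.Agent.UpLog

open NumberField Module MvPolynomial

namespace DT

section

variable {ι : Type} [Fintype ι] (L : ι → Type) [∀ i, Field (L i)]

/-- the trace form of the product of the rings of integers -/
noncomputable def T : LinearMap.BilinForm ℤ (∀ i, 𝓞 (L i)) :=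
  ∑ i, (Algebra.traceForm ℤ (𝓞 (L i))).compl₁₂ (LinearMap.proj i) (LinearMap.proj i)

lemma T_apply (x y : ∀ i, 𝓞 (L i)) : T L x y = ∑ i, Algebra.trace ℤ (𝓞 (L i)) (x i * y i) := by
  unfold T
  simp only [LinearMap.sum_apply, LinearMap.compl₁₂_apply, LinearMap.proj_apply,
    Algebra.traceForm_apply]

end

variable {ι : Type} [Fintype ι] (L : ι → Type) [∀ i, Field (L i)] [∀ i, NumberField (L i)]

lemma T_nondeg (y : ∀ i, 𝓞 (L i)) (h : ∀ x, T L x y = 0) : y = 0 := by
  classical
  by_contra hy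
  obtain ⟨i, hi⟩ := Function.ne_iff.1 hy
  have hi0 : ((y i : 𝓞 (L i)) : L i) ≠ 0 := by
    simpa using hi
  have halg : IsAlgebraic ℤ (((y i : 𝓞 (L i)) : L i)⁻¹) :=
    (IsFractionRing.isAlgebraic_iff ℤ ℚ (L i)).2 (Algebra.IsAlgebraic.isAlgebraic _)
  obtain ⟨m, hm, hint⟩ := halg.exists_integral_multiple
  obtain ⟨z, hz⟩ : ∃ z : 𝓞 (L i), (z : L i) = m • (((y i : 𝓞 (L i)) : L i)⁻¹) :=
    ⟨⟨_, hint⟩, rfl⟩
  have h1 := h (Pi.single i z)
  rw [T_apply, Finset.sum_eq_single i] at h1
  · rw [Pi.single_eq_same] at h1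
    have h2 : z * y i = algebraMap ℤ (𝓞 (L i)) m := by
      apply RingOfIntegers.coe_injective
      rw [map_mul]
      change (z : L i) * (y i : L i) = _
      rw [hz]
      simp [hi0]
    rw [h2, Algebra.trace_algebraMap] at h1
    rcases (smul_eq_zero.1 h1) with h3 | h3
    · have := Module.finrank_pos (R := ℤ) (M := 𝓞 (L i))
      omega
    · exact hm h3
  · intro j _ hj
    rw [Pi.single_eq_of_ne hj, zero_mul, map_zero]
  · intro hi'
    exact absurd (Finset.mem_univ i) hi'

/-- the trace form through the complex embeddings -/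
lemma T_emb (x y : ∀ i, 𝓞 (L i)) :
    ((T L x y : ℤ) : ℂ) = ∑ s : Σ i, (L i →ₐ[ℚ] ℂ), s.2 (x s.1 : L s.1) * s.2 (y s.1 : L s.1) := by
  rw [T_apply, Fintype.sum_sigma, Int.cast_sum]
  refine Finset.sum_congr rfl fun i _ => ?_
  have h1 : ((Algebra.trace ℤ (𝓞 (L i)) (x i * y i) : ℤ) : ℚ) =
      Algebra.trace ℚ (L i) ((x i * y i : 𝓞 (L i)) : L i) := Algebra.coe_trace_int _
  have h2 := trace_eq_sum_embeddings ℂ (K := ℚ) (x := ((x i * y i : 𝓞 (L i)) : L i))
  rw [← h1] at h2
  have h3 : (algebraMap ℚ ℂ) ((Algebra.trace ℤ (𝓞 (L i)) (x i * y i) : ℤ) : ℚ) =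
    ((Algebra.trace ℤ (𝓞 (L i)) (x i * y i) : ℤ) : ℂ) := by simp
  rw [← h3, h2]
  refine Finset.sum_congr rfl fun φ _ => ?_
  change φ (((x i : 𝓞 (L i)) : L i) * ((y i : 𝓞 (L i)) : L i)) = _
  rw [map_mul]

/-- the determinant bound with one bound for each column -/
lemma det_bound {S : ℕ} (V : Matrix (Fin S) (Fin S) ℂ) (Bd : Fin S → ℝ)
    (h : ∀ r k, ‖V r k‖ ≤ Bd k) : ‖V.det‖ ≤ S.factorial * ∏ k, Bd k := by
  rw [Matrix.det_apply']
  have h1 : ∀ σ : Equiv.Perm (Fin S),
      ‖((Equiv.Perm.sign σ : ℤ) : ℂ) * ∏ k, V (σ k) k‖ ≤ ∏ k, Bd k := by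
    intro σ
    rw [norm_mul, norm_prod]
    have h2 : ‖((Equiv.Perm.sign σ : ℤ) : ℂ)‖ = 1 := by
      rcases Int.units_eq_one_or (Equiv.Perm.sign σ) with h | h <;> simp [h]
    rw [h2, one_mul]
    exact Finset.prod_le_prod (fun _ _ => norm_nonneg _) fun k _ => h _ _
  calc _ ≤ ∑ σ : Equiv.Perm (Fin S), ∏ k, Bd k := norm_sum_le_of_le _ fun σ _ => h1 σ
    _ = _ := by
      rw [Finset.sum_const, Finset.card_univ, Fintype.card_perm, Fintype.card_fin, nsmul_eq_mul]

end DT

theorem index_le_of_family {ι : Type} [Fintype ι] (L : ι → Type) [∀ i, Field (L i)]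
    [∀ i, NumberField (L i)] (S : ℕ) (hS : ∑ i, finrank ℚ (L i) = S)
    (v : Fin S → ∀ i, 𝓞 (L i)) (hv : LinearIndependent ℤ v) (Bd : Fin S → ℝ)
    (hB : ∀ k i, house ((v k i : 𝓞 (L i)) : L i) ≤ Bd k) :
    (Submodule.span ℤ (Set.range v)).toAddSubgroup.index ≠ 0 ∧
    ((Submodule.span ℤ (Set.range v)).toAddSubgroup.index : ℝ) ≤ S.factorial * ∏ k, Bd k := by
  classical
  -- a basis of the product
  let b0 := Pi.basis (fun i => Module.Free.chooseBasis ℤ (𝓞 (L i)))
  have hcard : Fintype.card (Σ i, Module.Free.ChooseBasisIndex ℤ (𝓞 (L i))) = S := by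
    rw [Fintype.card_sigma, ← hS]
    refine Finset.sum_congr rfl fun i _ => ?_
    rw [← Module.finrank_eq_card_chooseBasisIndex, RingOfIntegers.rank]
  let b : Basis (Fin S) ℤ (∀ i, 𝓞 (L i)) := b0.reindex (Fintype.equivFinOfCardEq hcard)
  -- the embeddings
  have hcard2 : Fintype.card (Σ i, (L i →ₐ[ℚ] ℂ)) = S := by
    rw [Fintype.card_sigma, ← hS]
    refine Finset.sum_congr rfl fun i _ => ?_
    rw [AlgHom.card]
  let e : Fin S ≃ Σ i, (L i →ₐ[ℚ] ℂ) := (Fintype.equivFinOfCardEq hcard2).symm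
  -- the matrices
  let Cm : Matrix (Fin S) (Fin S) ℤ := b.toMatrix v
  let G : Matrix (Fin S) (Fin S) ℤ := Matrix.of fun j k => DT.T L (b j) (b k)
  let V : Matrix (Fin S) (Fin S) ℂ :=
    Matrix.of fun r k => (e r).2 ((v k (e r).1 : 𝓞 (L (e r).1)) : L (e r).1)
  have hvC : ∀ k, v k = ∑ l, Cm l k • b l := fun k => (b.sum_toMatrix_smul_self v k).symm
  -- the index
  have hidx : (Submodule.span ℤ (Set.range v)).toAddSubgroup.index = Cm.det.natAbs := by
    have h := Submodule.natAbs_det_basis_change b (Submodule.span ℤ (Set.range v))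
      (Basis.span hv)
    have h2 : ((↑) ∘ (Basis.span hv) : Fin S → ∀ i, 𝓞 (L i)) = v := by
      funext k
      exact congrArg Subtype.val (Basis.span_apply hv k)
    rw [h2, Basis.det_apply] at h
    exact h.symm
  have hC0 : Cm.det ≠ 0 := by
    intro h0
    obtain ⟨c, hc0, hc⟩ := Matrix.exists_mulVec_eq_zero_iff.2 h0
    apply hc0
    have hsum : ∑ k, c k • v k = 0 := by
      calc ∑ k, c k • v k = ∑ k, ∑ l, (Cm l k * c k) • b l := by
            refine Finset.sum_congr rfl fun k _ => ?_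
            conv_lhs => rw [hvC k]
            rw [Finset.smul_sum]
            refine Finset.sum_congr rfl fun l _ => ?_
            rw [smul_smul, mul_comm]
        _ = ∑ l, (∑ k, Cm l k * c k) • b l := by
            rw [Finset.sum_comm]
            refine Finset.sum_congr rfl fun l _ => ?_
            rw [Finset.sum_smul]
        _ = 0 := by
            refine Finset.sum_eq_zero fun l _ => ?_
            have : ∑ k, Cm l k * c k = 0 := congrFun hc l
            rw [this, zero_smul]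
    funext k
    exact Fintype.linearIndependent_iff.1 hv c hsum k
  have hG0 : G.det ≠ 0 := by
    intro h0
    obtain ⟨c, hc0, hc⟩ := Matrix.exists_mulVec_eq_zero_iff.2 h0
    apply hc0
    have hy : ∑ k, c k • b k = 0 := by
      apply DT.T_nondeg L
      intro x
      have hbj : ∀ j, DT.T L (b j) (∑ k, c k • b k) = 0 := by
        intro j
        have h1 : ∑ k, DT.T L (b j) (b k) * c k = 0 := congrFun hc j
        rw [map_sum, ← h1]
        refine Finset.sum_congr rfl fun k _ => ?_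
        rw [map_smul, smul_eq_mul, mul_comm]
      have hx : DT.T L x = ∑ j, (b.repr x j) • DT.T L (b j) := by
        conv_lhs => rw [← b.sum_repr x]
        rw [map_sum]
        refine Finset.sum_congr rfl fun j _ => ?_
        rw [map_smul]
      rw [hx, LinearMap.sum_apply]
      refine Finset.sum_eq_zero fun j _ => ?_
      rw [LinearMap.smul_apply, hbj j, smul_zero]
    funext k
    exact Fintype.linearIndependent_iff.1 b.linearIndependent c hy k
  -- the Gram matrix
  have hgram : V.transpose * V = ((Cm.transpose * G * Cm).map (Int.castRingHom ℂ)) := by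
    ext j k
    rw [Matrix.map_apply]
    have h1 : (V.transpose * V) j k = ((DT.T L (v j) (v k) : ℤ) : ℂ) := by
      rw [DT.T_emb, Matrix.mul_apply]
      exact Fintype.sum_equiv e _ _ fun r => rfl
    have h2 : (Cm.transpose * G * Cm) j k = DT.T L (v j) (v k) := by
      rw [Matrix.mul_apply]
      conv_rhs => rw [hvC j, hvC k]
      rw [map_sum]
      refine Finset.sum_congr rfl fun m _ => ?_
      rw [map_smul, smul_eq_mul, mul_comm, Matrix.mul_apply]
      congr 1
      rw [map_sum, LinearMap.sum_apply]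
      refine Finset.sum_congr rfl fun l _ => ?_
      rw [map_smul, LinearMap.smul_apply, smul_eq_mul]
      rfl
    rw [h1, h2]
    rfl
  have hdet : V.det ^ 2 = ((Cm.det ^ 2 * G.det : ℤ) : ℂ) := by
    have h := congrArg Matrix.det hgram
    rw [Matrix.det_mul, Matrix.det_transpose, ← RingHom.mapMatrix_apply, ← RingHom.map_det,
      Matrix.det_mul, Matrix.det_mul, Matrix.det_transpose] at h
    rw [sq, h, eq_intCast]
    congr 1
    ring
  have hle : (|Cm.det| : ℝ) ≤ ‖V.det‖ := by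
    have h1 : ‖V.det‖ ^ 2 = (|(Cm.det ^ 2 * G.det : ℤ)| : ℝ) := by
      rw [← norm_pow, hdet]
      exact Complex.norm_intCast _
    have h2 : (1 : ℤ) ≤ |G.det| := Int.one_le_abs hG0
    have h3 : (|Cm.det| : ℤ) ^ 2 ≤ |(Cm.det ^ 2 * G.det : ℤ)| := by
      rw [abs_mul, abs_pow]
      nlinarith [sq_nonneg (|Cm.det|)]
    have h4 : ((|Cm.det| : ℤ) : ℝ) ^ 2 ≤ ((|(Cm.det ^ 2 * G.det : ℤ)| : ℤ) : ℝ) := by
      exact_mod_cast h3
    have h5 : ((|Cm.det| : ℤ) : ℝ) ^ 2 ≤ ‖V.det‖ ^ 2 := by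
      rw [h1]
      exact_mod_cast h4
    have h6 := abs_le_of_sq_le_sq' h5 (norm_nonneg _)
    exact_mod_cast h6.2
  refine ⟨?_, ?_⟩
  · rw [hidx]
    exact Int.natAbs_ne_zero.2 hC0
  · rw [hidx]
    have h1 : ((Cm.det.natAbs : ℕ) : ℝ) = (|Cm.det| : ℝ) := by
      rw [Nat.cast_natAbs, Int.cast_abs]
    rw [h1]
    refine le_trans hle (DT.det_bound V Bd ?_)
    intro r k
    refine le_trans ?_ (hB k (e r).1)
    exact norm_embedding_le_house _ ((e r).2 : L (e r).1 →+* ℂ)

end Pool.Agent.UpLog
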