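import Mathlib
import Pool.Agent.UpLog.Defs
import Pool.Agent.UpLog.DT
import Pool.Agent.helper22.Gain

set_option autoImplicit false

namespace Pool.Agent.UpLog

open NumberField Module MvPolynomial

namespace GM

/-- the coefficients over `𝓞 L` have house at most `B` -/
def CB {σ L : Type} [Field L] [NumberField L] (f : MvPolynomial σ (𝓞 L)) (B : ℝ) : Prop :=
  ∀ β, house ((coeff β f : 𝓞 L) : L) ≤ B

theorem CB_lin {σ L : Type} [Field L] [NumberField L] (x : 𝓞 L) (j : σ)
    {f : MvPolynomial σ (𝓞 L)} {B : ℝ} (h : CB f B) :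
    CB ((C x + X j) * f) ((house (x : L) + 1) * B) := by
  classical
  intro β
  have h0 : 0 ≤ B := (house_nonneg _).trans (h 0)
  rw [add_mul, coeff_add, coeff_C_mul, coeff_X_mul']
  have h1 : house ((x * coeff β f : 𝓞 L) : L) ≤ house (x : L) * B := by
    have := house_mul_le (x : L) ((coeff β f : 𝓞 L) : L)
    calc house ((x * coeff β f : 𝓞 L) : L) = house ((x : L) * ((coeff β f : 𝓞 L) : L)) := by
          simp
      _ ≤ _ := this
      _ ≤ _ := mul_le_mul_of_nonneg_left (h β) (house_nonneg _)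
  have h2 : house (((if j ∈ β.support then coeff (β - Finsupp.single j 1) f else 0 : 𝓞 L)) : L)
      ≤ B := by
    split_ifs
    · exact h _
    · simpa [house] using h0
  calc house (((x * coeff β f + if j ∈ β.support then coeff (β - Finsupp.single j 1) f else 0 :
        𝓞 L)) : L)
      = house (((x * coeff β f : 𝓞 L) : L) +
        ((if j ∈ β.support then coeff (β - Finsupp.single j 1) f else 0 : 𝓞 L) : L)) := by
        rw [← map_add]
    _ ≤ house ((x * coeff β f : 𝓞 L) : L) + house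
        ((if j ∈ β.support then coeff (β - Finsupp.single j 1) f else 0 : 𝓞 L) : L) :=
        house_add_le _ _
    _ ≤ house (x : L) * B + B := add_le_add h1 h2
    _ = _ := by ring

theorem CB_pow {σ L : Type} [Field L] [NumberField L] (x : 𝓞 L) (j : σ) (a : ℕ)
    {f : MvPolynomial σ (𝓞 L)} {B : ℝ} (h : CB f B) :
    CB ((C x + X j) ^ a * f) ((house (x : L) + 1) ^ a * B) := by
  induction a with
  | zero => simpa using h
  | succ a ih =>
    have := CB_lin x j ih
    rw [pow_succ', pow_succ', mul_assoc, mul_assoc]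
    exact this

theorem CB_prod {σ L : Type} [Field L] [NumberField L] (x : σ → 𝓞 L) (α : σ →₀ ℕ)
    (s : Finset σ) {f : MvPolynomial σ (𝓞 L)} {B : ℝ} (h : CB f B) :
    CB ((∏ j ∈ s, (C (x j) + X j) ^ α j) * f) ((∏ j ∈ s, (house (x j : L) + 1) ^ α j) * B) := by
  classical
  induction s using Finset.induction_on with
  | empty => simpa using h
  | insert j s hj ih =>
    rw [Finset.prod_insert hj, Finset.prod_insert hj, mul_assoc, mul_assoc]
    exact CB_pow (x j) j (α j) ih

theorem tay_monomial {σ : Type} [Fintype σ] {k A : Type*} [CommRing k] [CommRing A] [Algebra k A]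
    (x : σ → A) (α : σ →₀ ℕ) (a : k) :
    tay x (monomial α a) = C (algebraMap k A a) * ∏ j, (C (x j) + X j) ^ α j := by
  rw [tay, aeval_monomial, Finsupp.prod_fintype _ _ (fun _ => pow_zero _)]
  rfl

/-- naturality of the Taylor expansion -/
theorem map_tay {σ : Type} {k k' A B : Type*} [CommRing k] [CommRing k'] [CommRing A]
    [CommRing B] [Algebra k A] [Algebra k' B] (φ : k →+* k') (g : A →+* B)
    (hg : ∀ a, algebraMap k' B (φ a) = g (algebraMap k A a)) (x : σ → A)
    (f : MvPolynomial σ k) :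
    tay (fun j => g (x j)) (map φ f) = map g (tay x f) := by
  induction f using MvPolynomial.induction_on with
  | C a => simp [tay, MvPolynomial.algebraMap_apply, hg]
  | add p q hp hq => simp only [map_add, hp, hq]
  | mul_X p j hp =>
    simp only [map_mul, hp]
    congr 1
    simp [tay]

theorem map_tay' {σ : Type} {k A B : Type*} [CommRing k] [CommRing A]
    [CommRing B] [Algebra k A] [Algebra k B] (g : A →+* B)
    (hg : ∀ a, algebraMap k B a = g (algebraMap k A a)) (x : σ → A)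
    (f : MvPolynomial σ k) :
    tay (fun j => g (x j)) f = map g (tay x f) := by
  have := map_tay (RingHom.id k) g hg x f
  rwa [MvPolynomial.map_id] at this

theorem degree_le_wdeg {σ : Type} [Fintype σ] (w : σ → ℕ) (hw : ∀ j, 1 ≤ w j) (α : σ →₀ ℕ) :
    α.degree ≤ wdeg w α := by
  rw [Finsupp.degree_eq_sum, wdeg]
  exact Finset.sum_le_sum fun j _ => Nat.le_mul_of_pos_left _ (hw j)

/-- the bound for the coefficients of the Taylor expansion of a monomial -/
theorem CB_tay (K L : Type) [Field K] [NumberField K] [Field L] [NumberField L] [Algebra K L]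
    {σ : Type} [Fintype σ] (w : σ → ℕ) (hw : ∀ j, 1 ≤ w j) (d : ℕ) {C₁ Y T : ℝ} (hC₁ : 1 ≤ C₁)
    (hY : 1 ≤ Y) (x : σ → 𝓞 L) (hx : ∀ j, house ((x j : 𝓞 L) : L) ≤ C₁ * Y ^ w j)
    (α : σ →₀ ℕ) (hα : wdeg w α ≤ d) (a : 𝓞 K) (ha : house (a : K) ≤ T) :
    CB (tay x (monomial α a)) (T * (2 * C₁) ^ d * Y ^ d) := by
  have hT : 0 ≤ T := (house_nonneg _).trans ha
  rw [tay_monomial, mul_comm]
  have h1 : CB (C (algebraMap (𝓞 K) (𝓞 L) a) : MvPolynomial σ (𝓞 L)) T := by
    classical
    intro β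
    rw [coeff_C]
    split_ifs
    · have := Pool.Agent.helper22.house_algebraMap_le (L := L) (a : K)
      have h2 : ((algebraMap (𝓞 K) (𝓞 L) a : 𝓞 L) : L) = algebraMap K L (a : K) := rfl
      rw [h2]
      exact this.trans ha
    · simpa [house] using hT
  have h3 := CB_prod x α Finset.univ h1
  intro β
  refine (h3 β).trans ?_
  have h4 : ∏ j, (house ((x j : 𝓞 L) : L) + 1) ^ α j ≤ ∏ j, ((2 * C₁) * Y ^ w j) ^ α j := by
    refine Finset.prod_le_prod (fun j _ => pow_nonneg (by linarith [house_nonneg ((x j : 𝓞 L) : L)]) _)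
      fun j _ => ?_
    refine pow_le_pow_left₀ (by linarith [house_nonneg ((x j : 𝓞 L) : L)]) ?_ _
    have : 1 ≤ Y ^ w j := one_le_pow₀ hY
    nlinarith [hx j]
  have h5 : ∏ j, ((2 * C₁) * Y ^ w j) ^ α j = (2 * C₁) ^ α.degree * Y ^ wdeg w α := by
    have h7 : ∀ j, ((2 * C₁) * Y ^ w j) ^ α j = (2 * C₁) ^ α j * (Y ^ w j) ^ α j :=
      fun j => mul_pow _ _ _
    rw [Finset.prod_congr rfl fun j _ => h7 j]
    rw [Finset.prod_mul_distrib, Finset.prod_pow_eq_pow_sum, ← Finsupp.degree_eq_sum]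
    congr 1
    rw [wdeg, ← Finset.prod_pow_eq_pow_sum]
    exact Finset.prod_congr rfl fun j _ => by rw [← pow_mul]
  have h6 : (2 * C₁) ^ α.degree * Y ^ wdeg w α ≤ (2 * C₁) ^ d * Y ^ d :=
    mul_le_mul (pow_le_pow_right₀ (by linarith) ((degree_le_wdeg w hw α).trans hα))
      (pow_le_pow_right₀ hY hα) (by positivity) (by positivity)
  calc (∏ j, (house ((x j : 𝓞 L) : L) + 1) ^ α j) * T
      ≤ ((2 * C₁) ^ d * Y ^ d) * T := mul_le_mul_of_nonneg_right ((h4.trans_eq h5).trans h6) hT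
    _ = _ := by ring

/-- the rational span of the jet vectors of the monomials is everything -/
theorem span_top (K L : Type) [Field K] [NumberField K] [Field L] [NumberField L] [Algebra K L]
    {σ : Type} [Fintype σ] (w : σ → ℕ) (d b : ℕ) (x : σ → 𝓞 L)
    (hgood : Good K w d b (fun j => ((x j : 𝓞 L) : L))) :
    Submodule.span ℚ {v : {β : σ →₀ ℕ // β.degree < b} → L |
      ∃ e : Free.ChooseBasisIndex ℤ (𝓞 K), ∃ α : σ →₀ ℕ, wdeg w α ≤ d ∧
        v = fun β => ((coeff β.1 (tay x (monomial α (RingOfIntegers.basis K e))) : 𝓞 L) : L)}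
      = ⊤ := by
  classical
  rw [eq_top_iff]
  intro u _
  obtain ⟨f, hf, hfu⟩ := hgood (fun β => if h : β.degree < b then u ⟨β, h⟩ else 0)
  have key : ∀ (α : σ →₀ ℕ) (c : K), tay (k := K) (fun j => ((x j : 𝓞 L) : L)) (monomial α c) =
      ∑ e, (integralBasis K).repr c e •
        map (algebraMap (𝓞 L) L) (tay x (monomial α (RingOfIntegers.basis K e))) := by
    intro α c
    have h1 : ∀ e, map (algebraMap (𝓞 L) L) (tay x (monomial α (RingOfIntegers.basis K e)))
        = tay (k := K) (fun j => ((x j : 𝓞 L) : L)) (monomial α (integralBasis K e)) := by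
      intro e
      have h2 := map_tay (algebraMap (𝓞 K) K) (algebraMap (𝓞 L) L) (fun a => rfl) x
        (monomial α (RingOfIntegers.basis K e))
      rw [map_monomial] at h2
      rw [← h2, integralBasis_apply]
    simp_rw [h1]
    have h3 : (monomial α c : MvPolynomial σ K) =
        ∑ e, C (algebraMap ℚ K ((integralBasis K).repr c e)) * monomial α (integralBasis K e) := by
      conv_lhs => rw [← (integralBasis K).sum_repr c]
      rw [map_sum]
      refine Finset.sum_congr rfl fun e _ => ?_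
      rw [C_mul_monomial, Algebra.smul_def]
    conv_lhs => rw [h3]
    rw [map_sum]
    refine Finset.sum_congr rfl fun e _ => ?_
    rw [map_mul, Algebra.smul_def]
    congr 1
    simp only [tay, MvPolynomial.algHom_C, MvPolynomial.algebraMap_apply]
    simp
  have hsum : u = ∑ α ∈ f.support, ∑ e, (integralBasis K).repr (coeff α f) e •
      (fun β : {β : σ →₀ ℕ // β.degree < b} =>
        ((coeff β.1 (tay x (monomial α (RingOfIntegers.basis K e))) : 𝓞 L) : L)) := by
    funext β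
    have h1 := hfu β.1 β.2
    simp only [β.2, dif_pos] at h1
    rw [← h1]
    conv_lhs => rw [MvPolynomial.as_sum f]
    rw [map_sum, coeff_sum, Finset.sum_apply]
    refine Finset.sum_congr rfl fun α _ => ?_
    rw [key, coeff_sum, Finset.sum_apply]
    refine Finset.sum_congr rfl fun e _ => ?_
    rw [coeff_smul, coeff_map, Pi.smul_apply]
  rw [hsum]
  refine Submodule.sum_mem _ fun α hα => Submodule.sum_mem _ fun e _ => ?_
  exact Submodule.smul_mem _ _ (Submodule.subset_span ⟨e, α, hf α hα, rfl⟩)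

theorem exists_family (K L : Type) [Field K] [NumberField K] [Field L] [NumberField L]
    [Algebra K L] {σ : Type} [Fintype σ] (w : σ → ℕ) (d b : ℕ) (x : σ → 𝓞 L)
    (hgood : Good K w d b (fun j => ((x j : 𝓞 L) : L)))
    [Fintype {β : σ →₀ ℕ // β.degree < b}] (S : ℕ)
    (hS : ∑ _i : {β : σ →₀ ℕ // β.degree < b}, finrank ℚ L = S) :
    ∃ (e : Fin S → Free.ChooseBasisIndex ℤ (𝓞 K)) (α : Fin S → σ →₀ ℕ),
      (∀ k, wdeg w (α k) ≤ d) ∧
      LinearIndependent ℤ (fun k => fun β : {β : σ →₀ ℕ // β.degree < b} =>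
        coeff β.1 (tay x (monomial (α k) (RingOfIntegers.basis K (e k))))) := by
  classical
  obtain ⟨B, hB, hspan, hli⟩ := exists_linearIndependent ℚ {v : {β : σ →₀ ℕ // β.degree < b} → L |
      ∃ e : Free.ChooseBasisIndex ℤ (𝓞 K), ∃ α : σ →₀ ℕ, wdeg w α ≤ d ∧
        v = fun β => ((coeff β.1 (tay x (monomial α (RingOfIntegers.basis K e))) : 𝓞 L) : L)}
  rw [span_top K L w d b x hgood] at hspan
  have bs : Basis B ℚ ({β : σ →₀ ℕ // β.degree < b} → L) :=
    Basis.mk hli (by rw [Subtype.range_coe, hspan])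
  have hbs : Nonempty (Fin S ≃ B) := by
    have h1 : finrank ℚ ({β : σ →₀ ℕ // β.degree < b} → L) = S := by
      rw [← hS, Module.finrank_pi_fintype]
    have h2 := (finBasis ℚ ({β : σ →₀ ℕ // β.degree < b} → L)).indexEquiv bs
    rw [h1] at h2
    exact ⟨h2⟩
  obtain ⟨eq⟩ := hbs
  choose e α hα hv using fun k : Fin S => hB (eq k).2
  refine ⟨e, α, hα, ?_⟩
  have h3 : LinearIndependent ℚ (fun k : Fin S =>
      ((eq k : B) : {β : σ →₀ ℕ // β.degree < b} → L)) :=
    hli.comp eq eq.injective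
  have h4 : LinearIndependent ℤ (fun k : Fin S =>
      ((eq k : B) : {β : σ →₀ ℕ // β.degree < b} → L)) :=
    h3.restrict_scalars (by
      intro a c h
      simpa using h)
  let g : ({β : σ →₀ ℕ // β.degree < b} → 𝓞 L) →ₗ[ℤ] ({β : σ →₀ ℕ // β.degree < b} → L) :=
    { toFun := fun v β => ((v β : 𝓞 L) : L)
      map_add' := fun v v' => by funext β; simp
      map_smul' := fun c v => by funext β; simp }
  refine LinearIndependent.of_comp g ?_
  convert h4 using 1
  funext k
  exact (hv k).symm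

end GM

open GM in
theorem good_mod (K : Type) [Field K] [NumberField K] {σ : Type} [Fintype σ]
    (n : ℕ) (w : σ → ℕ) (hw : ∀ j, 1 ≤ w j) (d b : ℕ) (C₁ : ℝ) (hC₁ : 1 ≤ C₁) :
    ∃ C : ℝ, ∃ c : ℕ, 1 ≤ C ∧ ∀ Y : ℝ, 1 ≤ Y → ∀ (L : Type) [Field L] [NumberField L] [Algebra K L]
      (x : σ → 𝓞 L), finrank K L = n → (∀ j, house ((x j : 𝓞 L) : L) ≤ C₁ * Y ^ w j) →
      Good K w d b (fun j => ((x j : 𝓞 L) : L)) →
      ∃ I : ℕ, I ≠ 0 ∧ (I : ℝ) ≤ C * Y ^ c ∧ ∀ p : ℕ, p.Prime → ¬ p ∣ I →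
        Good (𝓞 K) w d b (red p x) := by
  classical
  have hfin : Finite {β : σ →₀ ℕ // β.degree < b} := (Finsupp.finite_of_degree_lt b).to_subtype
  let _ : Fintype {β : σ →₀ ℕ // β.degree < b} := Fintype.ofFinite _
  let S : ℕ := Fintype.card {β : σ →₀ ℕ // β.degree < b} * (finrank ℚ K * n)
  obtain ⟨T, hT1, hT⟩ : ∃ T : ℝ, 1 ≤ T ∧ ∀ e, house ((RingOfIntegers.basis K e : 𝓞 K) : K) ≤ T := by
    refine ⟨1 + ∑ e, house ((RingOfIntegers.basis K e : 𝓞 K) : K), ?_, fun e => ?_⟩
    · have := Finset.sum_nonneg (s := Finset.univ)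
        (fun (e : Free.ChooseBasisIndex ℤ (𝓞 K)) _ =>
          house_nonneg ((RingOfIntegers.basis K e : 𝓞 K) : K))
      linarith
    · have := Finset.single_le_sum (s := Finset.univ) (f := fun e : Free.ChooseBasisIndex ℤ (𝓞 K) =>
        house ((RingOfIntegers.basis K e : 𝓞 K) : K)) (fun e _ => house_nonneg _)
        (Finset.mem_univ e)
      linarith
  have hTC : 1 ≤ T * (2 * C₁) ^ d := by
    have : 1 ≤ (2 * C₁) ^ d := one_le_pow₀ (by linarith)
    nlinarith
  have hfac : (1 : ℝ) ≤ S.factorial := by exact_mod_cast S.factorial_pos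
  refine ⟨S.factorial * (T * (2 * C₁) ^ d) ^ S, d * S, ?_, ?_⟩
  · have : 1 ≤ (T * (2 * C₁) ^ d) ^ S := one_le_pow₀ hTC
    nlinarith
  intro Y hY L _ _ _ x hn hx hgood
  have hS : ∑ _i : {β : σ →₀ ℕ // β.degree < b}, finrank ℚ L = S := by
    rw [Finset.sum_const, Finset.card_univ, smul_eq_mul]
    change _ = Fintype.card {β : σ →₀ ℕ // β.degree < b} * (finrank ℚ K * n)
    rw [← hn, Module.finrank_mul_finrank]
  obtain ⟨e, α, hα, hli⟩ := exists_family K L w d b x hgood S hS
  obtain ⟨hI0, hI⟩ := index_le_of_family (fun _ : {β : σ →₀ ℕ // β.degree < b} => L) S hS _ hli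
    (fun _ => T * (2 * C₁) ^ d * Y ^ d)
    (fun k β => CB_tay K L w hw d hC₁ hY x hx (α k) (hα k) _ (hT (e k)) β.1)
  refine ⟨_, hI0, ?_, ?_⟩
  · refine hI.trans_eq ?_
    rw [Finset.prod_const, Finset.card_univ, Fintype.card_fin, mul_pow, ← pow_mul, mul_assoc]
  intro p hp hpI u
  set Λ := Submodule.span ℤ (Set.range fun k : Fin S => fun β : {β : σ →₀ ℕ // β.degree < b} =>
    coeff β.1 (tay x (monomial (α k) (RingOfIntegers.basis K (e k))))) with hΛ
  obtain ⟨a, c, hac⟩ : IsCoprime (Λ.toAddSubgroup.index : ℤ) (p : ℤ) :=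
    Nat.isCoprime_iff_coprime.2 ((Nat.Prime.coprime_iff_not_dvd hp).2 hpI).symm
  choose y hy using fun β : {β : σ →₀ ℕ // β.degree < b} =>
    Ideal.Quotient.mk_surjective (I := Ideal.span {((p : ℕ) : 𝓞 L)}) (u β.1)
  have hmem : (a * (Λ.toAddSubgroup.index : ℤ)) • y ∈ Λ := by
    rw [mul_smul]
    refine Λ.smul_mem _ ?_
    have := Λ.toAddSubgroup.nsmul_index_mem y
    rw [natCast_zsmul]
    exact this
  obtain ⟨cc, hcc⟩ := (Submodule.mem_span_range_iff_exists_fun ℤ).1 hmem
  refine ⟨∑ k, cc k • monomial (α k) (RingOfIntegers.basis K (e k)), ?_, ?_⟩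
  · intro γ hγ
    rw [MvPolynomial.mem_support_iff, coeff_sum] at hγ
    obtain ⟨k, -, hk⟩ := Finset.exists_ne_zero_of_sum_ne_zero hγ
    have : α k = γ := by
      by_contra hne
      apply hk
      rw [coeff_smul, coeff_monomial, if_neg hne, smul_zero]
    exact this ▸ hα k
  · intro β hβ
    have h1 := map_tay' (k := 𝓞 K) (Ideal.Quotient.mk (Ideal.span {((p : ℕ) : 𝓞 L)}))
      (fun a => rfl) x
      (∑ k, cc k • monomial (α k) (RingOfIntegers.basis K (e k)))
    change coeff β (tay (k := 𝓞 K)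
      (fun j => Ideal.Quotient.mk (Ideal.span {((p : ℕ) : 𝓞 L)}) (x j)) _) = _
    rw [h1, coeff_map]
    have h2 : coeff β (tay (k := 𝓞 K) x (∑ k, cc k • monomial (α k) (RingOfIntegers.basis K (e k)))) =
        y ⟨β, hβ⟩ - (c * (p : ℤ) : ℤ) • y ⟨β, hβ⟩ := by
      have h3 := congrFun hcc ⟨β, hβ⟩
      rw [Finset.sum_apply] at h3
      rw [map_sum, coeff_sum]
      have h4 : ∀ k, coeff β (tay (k := 𝓞 K) x (cc k • monomial (α k) (RingOfIntegers.basis K (e k)))) =
          cc k • coeff β (tay x (monomial (α k) (RingOfIntegers.basis K (e k)))) := by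
        intro k
        rw [map_zsmul, coeff_smul]
      rw [Finset.sum_congr rfl fun k _ => h4 k]
      refine h3.trans ?_
      have h5 : a * (Λ.toAddSubgroup.index : ℤ) = 1 - c * (p : ℤ) := by linarith
      rw [Pi.smul_apply, h5, sub_smul, one_smul]
    rw [h2, map_sub, hy]
    have h6 : Ideal.Quotient.mk (Ideal.span {((p : ℕ) : 𝓞 L)})
        ((c * (p : ℤ) : ℤ) • y ⟨β, hβ⟩) = 0 := by
      rw [Ideal.Quotient.eq_zero_iff_mem, Ideal.mem_span_singleton]
      refine ⟨(c : 𝓞 L) * y ⟨β, hβ⟩, ?_⟩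
      rw [zsmul_eq_mul]
      push_cast
      ring
    rw [h6, sub_zero]

end Pool.Agent.UpLog
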