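import Mathlib

set_option autoImplicit false

namespace Pool.Agent.UpLog

open Module

/-! ## GR : greedy basis -/

namespace GR

theorem chain {V : Type} [AddCommGroup V] [Module ℚ V] [FiniteDimensional ℚ V] {G : Type}
    [DecidableEq G] (wt : G → ℕ) (g : G → V) (t : ℕ) :
    ∃ b : Finset G, (∀ s ∈ b, wt s ≤ t) ∧ LinearIndepOn ℚ g (b : Set G) ∧
      g '' {s | wt s ≤ t} ⊆ Submodule.span ℚ (g '' (b : Set G)) ∧
      ∀ t' ≤ t, finrank ℚ (Submodule.span ℚ (g '' {s | wt s ≤ t'})) ≤
        (b.filter fun s => wt s ≤ t').card := by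
  -- extension of an independent set
  have ext : ∀ (t : ℕ) (b₀ : Finset G), (∀ s ∈ b₀, wt s ≤ t) → LinearIndepOn ℚ g (b₀ : Set G) →
      ∃ b : Finset G, b₀ ⊆ b ∧ (∀ s ∈ b, wt s ≤ t) ∧ LinearIndepOn ℚ g (b : Set G) ∧
        g '' {s | wt s ≤ t} ⊆ Submodule.span ℚ (g '' (b : Set G)) ∧
        finrank ℚ (Submodule.span ℚ (g '' {s | wt s ≤ t})) ≤ b.card := by
    intro t b₀ h1 h2
    obtain ⟨b, hb1, hb2, hb3, hb4⟩ := exists_linearIndepOn_extension (t := {s | wt s ≤ t}) h2
      (fun s hs => h1 s hs)
    have hfin : b.Finite := by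
      have : Finite b := LinearIndependent.finite (R := ℚ) (f := fun x : b => g x) hb4
      exact Set.toFinite b
    refine ⟨hfin.toFinset, ?_, ?_, ?_, ?_, ?_⟩
    · intro s hs
      rw [Set.Finite.mem_toFinset]
      exact hb2 hs
    · intro s hs
      exact hb1 ((Set.Finite.mem_toFinset _).1 hs)
    · rw [Set.Finite.coe_toFinset]
      exact hb4
    · rw [Set.Finite.coe_toFinset]
      exact hb3
    · have e1 : Submodule.span ℚ (g '' {s | wt s ≤ t}) ≤
          Submodule.span ℚ (g '' (hfin.toFinset : Set G)) := by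
        rw [Set.Finite.coe_toFinset, Submodule.span_le]
        exact hb3
      refine (Submodule.finrank_mono e1).trans ?_
      have e2 : g '' (hfin.toFinset : Set G) = Set.range fun s : hfin.toFinset => g s := by
        ext v
        simp
      have e3 := finrank_range_le_card (R := ℚ) (fun s : hfin.toFinset => g s)
      rw [← e2, Fintype.card_coe] at e3
      exact e3
  induction t with
  | zero =>
    obtain ⟨b, -, h2, h3, h4, h5⟩ := ext 0 ∅ (by simp) (by simp)
    refine ⟨b, h2, h3, h4, ?_⟩
    intro t' ht'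
    obtain rfl : t' = 0 := by omega
    rwa [Finset.filter_true_of_mem h2]
  | succ t ih =>
    obtain ⟨b₀, h1, h2, -, h4⟩ := ih
    obtain ⟨b, g1, g2, g3, g4, g5⟩ := ext (t + 1) b₀ (fun s hs => (h1 s hs).trans (by omega)) h2
    refine ⟨b, g2, g3, g4, ?_⟩
    intro t' ht'
    rcases Nat.lt_or_ge t t' with hlt | hge
    · obtain rfl : t' = t + 1 := by omega
      rwa [Finset.filter_true_of_mem g2]
    · exact (h4 t' hge).trans (Finset.card_le_card (Finset.filter_subset_filter _ g1))

end GR

theorem greedy {V : Type} [AddCommGroup V] [Module ℚ V] [FiniteDimensional ℚ V] {G : Type}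
    (wt : G → ℕ) (g : G → V) (t₁ : ℕ)
    (hspan : Submodule.span ℚ (g '' {s | wt s ≤ t₁}) = ⊤) :
    ∃ s : Fin (finrank ℚ V) → G, LinearIndependent ℚ (fun k => g (s k)) ∧
      ∑ k, wt (s k) ≤ ∑ t ∈ Finset.range t₁,
        (finrank ℚ V - finrank ℚ (Submodule.span ℚ (g '' {s | wt s ≤ t}))) := by
  classical
  obtain ⟨b, h1, h2, h3, h4⟩ := GR.chain wt g t₁
  have hcard : b.card = finrank ℚ V := by
    apply le_antisymm
    · have h5 : LinearIndependent ℚ (fun s : b => g s) := h2
      have := h5.fintype_card_le_finrank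
      rwa [Fintype.card_coe] at this
    · have h5 := h4 t₁ le_rfl
      rw [hspan, finrank_top, Finset.filter_true_of_mem h1] at h5
      exact h5
  let e : Fin (finrank ℚ V) ≃ b := (finCongr hcard.symm).trans b.equivFin.symm
  refine ⟨fun k => (e k : G), ?_, ?_⟩
  · have h5 : LinearIndependent ℚ (fun s : b => g s) := h2
    exact h5.comp e e.injective
  · have e1 : ∑ k, wt (e k : G) = ∑ s ∈ b, wt s := by
      rw [Equiv.sum_comp e (fun s : b => wt s), Finset.sum_coe_sort b wt]
    have e2 : ∀ s ∈ b, wt s = ∑ t ∈ Finset.range t₁, if t < wt s then 1 else 0 := by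
      intro s hs
      rw [← Finset.sum_filter, Finset.sum_const, smul_eq_mul, mul_one]
      have : (Finset.range t₁).filter (fun t => t < wt s) = Finset.range (wt s) := by
        ext t
        have := h1 s hs
        simp only [Finset.mem_filter, Finset.mem_range]
        omega
      rw [this, Finset.card_range]
    rw [e1, Finset.sum_congr rfl e2, Finset.sum_comm]
    apply Finset.sum_le_sum
    intro t ht
    rw [← Finset.sum_filter, Finset.sum_const, smul_eq_mul, mul_one]
    have h5 := h4 t (Finset.mem_range.1 ht).le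
    have h6 := Finset.card_filter_add_card_filter_not (s := b) (fun s => wt s ≤ t)
    have h7 : b.filter (fun s => t < wt s) = b.filter (fun s => ¬ wt s ≤ t) := by
      ext s
      simp
    rw [h7]
    omega

end Pool.Agent.UpLog
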