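import Mathlib
import Pool.Agent.UpLog.Defs

set_option autoImplicit false

namespace Pool.Agent.UpLog

open Module

/-! ## HF : Hilbert function -/

namespace HF

variable {V : Type} [CommRing V] [Algebra ℚ V] {E σ : Type} [Fintype σ]

/-- the span of the monomials of weighted degree at most `t` -/
def VT (w : σ → ℕ) (θ : E → V) (x : σ → V) (t : ℕ) : Submodule ℚ V :=
  Submodule.span ℚ ((fun s : E × (σ →₀ ℕ) => θ s.1 * ∏ j, x j ^ s.2 j) '' {s | wdeg w s.2 ≤ t})

theorem VT_mono (w : σ → ℕ) (θ : E → V) (x : σ → V) {t t' : ℕ} (h : t ≤ t') :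
    VT w θ x t ≤ VT w θ x t' := by
  apply Submodule.span_mono
  apply Set.image_mono
  intro s hs
  exact le_trans hs h

theorem mul_mem (w : σ → ℕ) (θ : E → V) (x : σ → V) (t : ℕ) (j : σ) (v : V)
    (hv : v ∈ VT w θ x t) : x j * v ∈ VT w θ x (t + ∑ j, w j) := by
  classical
  unfold VT at hv
  induction hv using Submodule.span_induction with
  | mem v h =>
    obtain ⟨s, hs, rfl⟩ := h
    apply Submodule.subset_span
    refine ⟨(s.1, s.2 + Finsupp.single j 1), ?_, ?_⟩
    · have h1 : wdeg w (s.2 + Finsupp.single j 1) = wdeg w s.2 + w j := by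
        unfold wdeg
        simp only [Finsupp.add_apply, mul_add, Finset.sum_add_distrib]
        congr 1
        rw [Finset.sum_eq_single j]
        · simp
        · intro i _ hi
          rw [Finsupp.single_eq_of_ne hi, mul_zero]
        · intro h
          exact absurd (Finset.mem_univ j) h
      have h2 : w j ≤ ∑ j, w j := Finset.single_le_sum (fun _ _ => Nat.zero_le _)
        (Finset.mem_univ j)
      have h3 : wdeg w s.2 ≤ t := hs
      show wdeg w (s.2 + Finsupp.single j 1) ≤ t + ∑ j, w j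
      omega
    · simp only
      have h1 : ∏ i, x i ^ ((s.2 + Finsupp.single j 1 : σ →₀ ℕ) i) = (∏ i, x i ^ s.2 i) * x j := by
        simp only [Finsupp.add_apply, pow_add, Finset.prod_mul_distrib]
        congr 1
        rw [Finset.prod_eq_single j]
        · simp
        · intro i _ hi
          rw [Finsupp.single_eq_of_ne hi, pow_zero]
        · intro h
          exact absurd (Finset.mem_univ j) h
      rw [h1]
      ring
  | zero => rw [mul_zero]; exact Submodule.zero_mem _
  | add a b _ _ ha hb => rw [mul_add]; exact Submodule.add_mem _ ha hb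
  | smul c a _ ha => rw [mul_smul_comm]; exact Submodule.smul_mem _ c ha

theorem stable (w : σ → ℕ) (θ : E → V) (x : σ → V)
    (hfull : Submodule.span ℚ (Set.range fun s : E × (σ →₀ ℕ) => θ s.1 * ∏ j, x j ^ s.2 j) = ⊤)
    (t : ℕ) (h : VT w θ x (t + ∑ j, w j) ≤ VT w θ x t) : VT w θ x t = ⊤ := by
  let S : Submonoid V :=
    { carrier := {y | ∀ v ∈ VT w θ x t, y * v ∈ VT w θ x t}
      mul_mem' := by
        intro a b ha hb v hv
        rw [mul_assoc]
        exact ha _ (hb _ hv)
      one_mem' := by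
        intro v hv
        rwa [one_mul] }
  have hx : ∀ j, x j ∈ S := fun j v hv => h (mul_mem w θ x t j v hv)
  rw [eq_top_iff, ← hfull, Submodule.span_le]
  rintro _ ⟨s, rfl⟩
  have h1 : ∏ j, x j ^ s.2 j ∈ S := S.prod_mem fun j _ => S.pow_mem (hx j) _
  have h2 : θ s.1 ∈ VT w θ x t := by
    apply Submodule.subset_span
    refine ⟨(s.1, 0), ?_, by simp⟩
    show wdeg w 0 ≤ t
    unfold wdeg
    simp
  have h3 := h1 _ h2
  rw [mul_comm] at h3
  exact h3

end HF

open HF

theorem hilb_top {V : Type} [CommRing V] [Algebra ℚ V] [FiniteDimensional ℚ V] {E σ : Type}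
    [Fintype σ] (w : σ → ℕ) (hw : ∀ j, 1 ≤ w j) (θ : E → V) (x : σ → V)
    (hfull : Submodule.span ℚ (Set.range fun s : E × (σ →₀ ℕ) => θ s.1 * ∏ j, x j ^ s.2 j) = ⊤)
    (t : ℕ) (ht : (∑ j, w j) * finrank ℚ V ≤ t) :
    Submodule.span ℚ ((fun s : E × (σ →₀ ℕ) => θ s.1 * ∏ j, x j ^ s.2 j) ''
      {s | wdeg w s.2 ≤ t}) = ⊤ := by
  have key : ∀ k : ℕ, VT w θ x ((∑ j, w j) * k) = ⊤ ∨
      k ≤ finrank ℚ (VT w θ x ((∑ j, w j) * k)) := by
    intro k
    induction k with
    | zero => right; exact Nat.zero_le _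
    | succ k ih =>
      have hle : VT w θ x ((∑ j, w j) * k) ≤ VT w θ x ((∑ j, w j) * (k + 1)) :=
        VT_mono w θ x (Nat.mul_le_mul_left _ (Nat.le_succ k))
      by_cases heq : VT w θ x ((∑ j, w j) * k) = ⊤
      · left
        rw [eq_top_iff, ← heq]
        exact hle
      · right
        have h1 := ih.resolve_left heq
        have hlt : VT w θ x ((∑ j, w j) * k) < VT w θ x ((∑ j, w j) * (k + 1)) := by
          refine lt_of_le_of_ne hle fun he => heq ?_
          apply stable w θ x hfull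
          rw [he, mul_add, mul_one]
        have h2 := Submodule.finrank_lt_finrank_of_lt hlt
        omega
  have h1 : VT w θ x ((∑ j, w j) * finrank ℚ V) = ⊤ := by
    rcases key (finrank ℚ V) with h | h
    · exact h
    · exact Submodule.eq_top_of_finrank_eq (le_antisymm (Submodule.finrank_le _) h)
  show VT w θ x t = ⊤
  rw [eq_top_iff, ← h1]
  exact VT_mono w θ x ht

theorem hilb_le {V : Type} [CommRing V] [Algebra ℚ V] [FiniteDimensional ℚ V] {E σ : Type}
    [Fintype E] [Fintype σ] (w : σ → ℕ) (hw : ∀ j, 1 ≤ w j) (θ : E → V) (x : σ → V) (t : ℕ) :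
    finrank ℚ (Submodule.span ℚ ((fun s : E × (σ →₀ ℕ) => θ s.1 * ∏ j, x j ^ s.2 j) ''
      {s | wdeg w s.2 ≤ t})) ≤ Fintype.card E * (t + 1) ^ Fintype.card σ := by
  classical
  have h1 := finrank_range_le_card (R := ℚ)
    (fun s : E × (σ → Fin (t + 1)) => θ s.1 * ∏ j, x j ^ (s.2 j : ℕ))
  have h2 : Fintype.card (E × (σ → Fin (t + 1))) = Fintype.card E * (t + 1) ^ Fintype.card σ := by
    simp
  rw [h2] at h1
  refine le_trans (Submodule.finrank_mono ?_) h1
  apply Submodule.span_mono
  rintro _ ⟨s, hs, rfl⟩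
  have hs' : ∑ j, w j * s.2 j ≤ t := hs
  have h3 : ∀ j, s.2 j ≤ t := by
    intro j
    have h4 : w j * s.2 j ≤ ∑ j, w j * s.2 j := Finset.single_le_sum
      (f := fun j => w j * s.2 j) (fun _ _ => Nat.zero_le _) (Finset.mem_univ j)
    have h5 : 1 * s.2 j ≤ w j * s.2 j := Nat.mul_le_mul_right _ (hw j)
    omega
  exact ⟨(s.1, fun j => ⟨s.2 j, by have := h3 j; omega⟩), rfl⟩

end Pool.Agent.UpLog
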