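import Mathlib
import Pool.Agent.UpLog.Defs

set_option autoImplicit false

/-!
# The index lemma for `ℤ`-modules
-/

namespace Pool.Agent.UpLog

open Module

namespace IX

variable {O : Type} [AddCommGroup O]

/-- the elements `y` with `p ^ b • y` in `Rm` -/
def lev (Rm : Submodule ℤ O) (p b : ℕ) : AddSubgroup O where
  carrier := {y | ((p : ℤ) ^ b) • y ∈ Rm}
  add_mem' := by
    intro x y hx hy
    simp only [Set.mem_ofPred_eq, smul_add] at *
    exact Rm.add_mem hx hy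
  zero_mem' := by simp
  neg_mem' := by
    intro x hx
    simp only [Set.mem_ofPred_eq, smul_neg] at *
    exact Rm.neg_mem hx

lemma mem_lev {Rm : Submodule ℤ O} {p b : ℕ} {y : O} :
    y ∈ lev Rm p b ↔ ((p : ℤ) ^ b) • y ∈ Rm := Iff.rfl

lemma lev_mono (Rm : Submodule ℤ O) (p b : ℕ) : lev Rm p b ≤ lev Rm p (b + 1) := by
  intro y hy
  rw [mem_lev] at *
  rw [pow_succ', mul_smul]
  exact Rm.smul_mem _ hy

/-- the map `y ↦ p ^ b • y` modulo `p • Rm` -/
noncomputable def mp (Rm : Submodule ℤ O) (p b : ℕ) : lev Rm p b →+ ModN Rm p :=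
  (ModN.mkQ (G := Rm) p).comp
    { toFun := fun y => ⟨((p : ℤ) ^ b) • (y : O), y.2⟩
      map_zero' := by ext; simp
      map_add' := by intro x y; ext; simp }

lemma le_ker_mp (Rm : Submodule ℤ O) (p b : ℕ) :
    (lev Rm p b).addSubgroupOf (lev Rm p (b + 1)) ≤ (mp Rm p (b + 1)).ker := by
  intro y hy
  rw [AddSubgroup.mem_addSubgroupOf, mem_lev] at hy
  rw [AddMonoidHom.mem_ker]
  change (LinearMap.range (LinearMap.lsmul ℤ Rm p)).mkQ
      (⟨((p : ℤ) ^ (b + 1)) • (y : O), y.2⟩ : Rm) = 0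
  rw [Submodule.mkQ_apply, Submodule.Quotient.mk_eq_zero]
  refine ⟨⟨_, hy⟩, ?_⟩
  ext
  simp [pow_succ', mul_smul]

end IX

theorem index_ge {O : Type} [AddCommGroup O] [Module.Free ℤ O] [Module.Finite ℤ O]
    (Rm : Submodule ℤ O) (hfin : Rm.toAddSubgroup.index ≠ 0) (p : ℕ) (hp : p.Prime) (B : ℕ)
    (W : ℕ → Submodule ℤ O) (h : ℕ → ℕ) (hh : ∀ b, finrank ℤ (W b) ≤ h b) (hW : ∀ b, W b ≤ Rm)
    (hdec : ∀ b, 1 ≤ b → b ≤ B → ∀ r ∈ Rm, ∃ a ∈ W b, ∃ y ∈ Rm, ∃ o : O, ∃ s ∈ Rm,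
      y = ((p : ℤ) ^ b) • o ∧ r = a + y + (p : ℤ) • s) :
    p ^ (∑ b ∈ Finset.Icc 1 B, (finrank ℤ O - h b)) ≤ Rm.toAddSubgroup.index := by
  classical
  have : NeZero p := ⟨hp.ne_zero⟩
  have hq : Finite (O ⧸ Rm) := by
    have : Nat.card (O ⧸ Rm.toAddSubgroup) ≠ 0 := hfin
    exact (Nat.card_ne_zero.1 this).2
  have hrank : finrank ℤ Rm = finrank ℤ O := (Submodule.finiteQuotient_iff Rm).1 hq
  have hcard : Nat.card (ModN Rm p) = p ^ finrank ℤ O := by
    rw [ModN.natCard_eq, hrank]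
  -- each step
  have hstep : ∀ b, b + 1 ≤ B → p ^ (finrank ℤ O - h (b + 1)) ≤
      (IX.lev Rm p b).relIndex (IX.lev Rm p (b + 1)) := by
    intro b hb
    -- the image of `W (b+1)`
    let ι₀ : W (b + 1) →+ ModN Rm p :=
      (ModN.mkQ (G := Rm) p).comp (Submodule.inclusion (hW (b + 1))).toAddMonoidHom
    have hι₀ : ∀ g, p • ι₀ g = 0 := by
      intro g
      have : p • ι₀ g = (ModN.mkQ (G := Rm) p) (p • Submodule.inclusion (hW (b + 1)) g) := by
        rw [map_nsmul]; rfl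
      rw [this]
      change (LinearMap.range (LinearMap.lsmul ℤ Rm p)).mkQ _ = 0
      rw [Submodule.mkQ_apply, Submodule.Quotient.mk_eq_zero]
      exact ⟨Submodule.inclusion (hW (b + 1)) g, by simp⟩
    let ι₁ : ModN (W (b + 1)) p →+ ModN Rm p := ModN.liftEquiv.symm ⟨ι₀, hι₀⟩
    have hι₁ : ∀ g, ι₁ (ModN.mkQ p g) = ι₀ g := by
      intro g
      rfl
    have hsurj : Function.Surjective
        (fun z : ModN (W (b + 1)) p × (IX.mp Rm p (b + 1)).range => ι₁ z.1 + (z.2 : ModN Rm p)) := by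
      intro t
      obtain ⟨r, rfl⟩ := (LinearMap.range (LinearMap.lsmul ℤ Rm p)).mkQ_surjective t
      obtain ⟨a, ha, y, hy, o, s, hs, hyo, hr⟩ := hdec (b + 1) (by omega) hb r r.2
      have ho : o ∈ IX.lev Rm p (b + 1) := by
        rw [IX.mem_lev, ← hyo]; exact hy
      refine ⟨(ModN.mkQ p ⟨a, ha⟩, ⟨IX.mp Rm p (b + 1) ⟨o, ho⟩, ⟨_, rfl⟩⟩), ?_⟩
      simp only
      rw [hι₁]
      have e1 : ι₀ ⟨a, ha⟩ = (LinearMap.range (LinearMap.lsmul ℤ Rm p)).mkQ
        (⟨a, hW _ ha⟩ : Rm) := rfl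
      have e2 : IX.mp Rm p (b + 1) ⟨o, ho⟩ = (LinearMap.range (LinearMap.lsmul ℤ Rm p)).mkQ
        (⟨((p : ℤ) ^ (b + 1)) • o, ho⟩ : Rm) := rfl
      rw [e1, e2, ← map_add, ← sub_eq_zero, ← map_sub, Submodule.mkQ_apply,
        Submodule.Quotient.mk_eq_zero]
      refine ⟨-⟨s, hs⟩, ?_⟩
      ext
      have : (r : O) = a + ((p : ℤ) ^ (b + 1)) • o + (p : ℤ) • s := by rw [hr, hyo]
      simp only [LinearMap.lsmul_apply, Submodule.coe_smul, Submodule.coe_neg, smul_neg,
        Submodule.coe_sub, Submodule.coe_add]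
      rw [this]
      abel
    have hle : Nat.card (ModN Rm p) ≤ p ^ (finrank ℤ (W (b + 1))) *
        Nat.card (IX.mp Rm p (b + 1)).range := by
      rw [← ModN.natCard_eq (W (b + 1)) p, ← Nat.card_prod]
      exact Nat.card_le_card_of_surjective _ hsurj
    have hker : (IX.mp Rm p (b + 1)).ker.index = Nat.card (IX.mp Rm p (b + 1)).range :=
      AddSubgroup.index_ker _
    have hne : (IX.lev Rm p b).relIndex (IX.lev Rm p (b + 1)) ≠ 0 := by
      have h1 : Rm.toAddSubgroup ≤ IX.lev Rm p b := by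
        intro y hy
        rw [IX.mem_lev]
        exact Rm.smul_mem _ hy
      have h2 : (IX.lev Rm p b).index ≠ 0 := by
        intro h0
        have := AddSubgroup.index_dvd_of_le h1
        rw [h0, zero_dvd_iff] at this
        exact hfin this
      intro h0
      have := AddSubgroup.relIndex_dvd_index_of_normal (IX.lev Rm p b) (IX.lev Rm p (b + 1))
      rw [h0, zero_dvd_iff] at this
      exact h2 this
    have hrel : Nat.card (IX.mp Rm p (b + 1)).range ≤
        (IX.lev Rm p b).relIndex (IX.lev Rm p (b + 1)) := by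
      rw [← hker]
      exact Nat.le_of_dvd (Nat.pos_of_ne_zero hne)
        (AddSubgroup.index_dvd_of_le (IX.le_ker_mp Rm p b))
    rw [hcard] at hle
    have hle2 : p ^ finrank ℤ O ≤ p ^ h (b + 1) *
        (IX.lev Rm p b).relIndex (IX.lev Rm p (b + 1)) :=
      hle.trans (Nat.mul_le_mul (Nat.pow_le_pow_right hp.pos (hh _)) hrel)
    by_cases hc : h (b + 1) ≤ finrank ℤ O
    · have : p ^ finrank ℤ O = p ^ h (b + 1) * p ^ (finrank ℤ O - h (b + 1)) := by
        rw [← pow_add]; congr 1; omega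
      rw [this] at hle2
      exact Nat.le_of_mul_le_mul_left hle2 (pow_pos hp.pos _)
    · have : finrank ℤ O - h (b + 1) = 0 := by omega
      rw [this, pow_zero]
      exact Nat.one_le_iff_ne_zero.2 hne
  have hmain : ∀ b, b ≤ B → p ^ (∑ b ∈ Finset.Icc 1 b, (finrank ℤ O - h b)) ≤
      (IX.lev Rm p 0).relIndex (IX.lev Rm p b) := by
    intro b
    induction b with
    | zero => intro _; simp
    | succ b ih =>
      intro hb
      rw [Finset.sum_Icc_succ_top (by omega), pow_add]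
      have h0 : IX.lev Rm p 0 ≤ IX.lev Rm p b := by
        clear ih hb
        induction b with
        | zero => exact le_rfl
        | succ b ih => exact ih.trans (IX.lev_mono Rm p b)
      rw [← AddSubgroup.relIndex_mul_relIndex _ _ _ h0 (IX.lev_mono Rm p b)]
      exact Nat.mul_le_mul (ih (by omega)) (hstep b hb)
  refine (hmain B le_rfl).trans ?_
  have h0 : IX.lev Rm p 0 = Rm.toAddSubgroup := by
    ext y
    rw [IX.mem_lev]
    simp
  rw [h0]
  exact Nat.le_of_dvd (Nat.pos_of_ne_zero hfin)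
    (AddSubgroup.relIndex_dvd_index_of_normal _ _)

end Pool.Agent.UpLog
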