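import Mathlib

set_option autoImplicit false

namespace Pool.Agent.UpLog

/-! ## NU : numerical lemma -/

theorem numeric (H : ℕ → ℕ) (S κ c₀ B t₁ : ℕ) (hκ : 1 ≤ κ) (hmono : Monotone H)
    (hS : ∀ t, H t ≤ S) (hB : t₁ ≤ κ * B + c₀) :
    ∑ t ∈ Finset.range t₁, (S - H t) ≤
      κ * (∑ b ∈ Finset.Icc 1 B, (S - H (κ * (b - 1) + c₀))) + c₀ * S := by
  have key : ∀ B : ℕ, ∑ t ∈ Finset.range (κ * B + c₀), (S - H t) ≤
      κ * (∑ b ∈ Finset.Icc 1 B, (S - H (κ * (b - 1) + c₀))) + c₀ * S := by
    intro B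
    induction B with
    | zero =>
      have h1 : ∑ t ∈ Finset.range (κ * 0 + c₀), (S - H t) ≤ (Finset.range c₀).card • S := by
        rw [mul_zero, zero_add]
        exact Finset.sum_le_card_nsmul _ _ _ fun t _ => Nat.sub_le _ _
      rw [Finset.card_range, smul_eq_mul] at h1
      exact h1.trans (Nat.le_add_left _ _)
    | succ B ih =>
      have e1 : κ * (B + 1) + c₀ = (κ * B + c₀) + κ := by ring
      have h2 : ∑ x ∈ Finset.range κ, (S - H (κ * B + c₀ + x)) ≤
          κ * (S - H (κ * B + c₀)) := by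
        have h3 := Finset.sum_le_card_nsmul (Finset.range κ)
          (fun x => S - H (κ * B + c₀ + x)) (S - H (κ * B + c₀)) (fun x _ =>
            Nat.sub_le_sub_left (hmono (Nat.le_add_right _ _)) _)
        rwa [Finset.card_range, smul_eq_mul] at h3
      rw [e1, Finset.sum_range_add, Finset.sum_Icc_succ_top (by omega), mul_add]
      have e2 : B + 1 - 1 = B := rfl
      rw [e2]
      omega
  refine le_trans ?_ (key B)
  exact Finset.sum_le_sum_of_subset (Finset.range_subset_range.2 hB)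

end Pool.Agent.UpLog
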