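import Mathlib
import Pool.Agent.UpLog.Basic
import Pool.Agent.UpLog.IX
import Pool.Agent.UpLog.DT
import Pool.Agent.UpLog.GR
import Pool.Agent.UpLog.HF
import Pool.Agent.UpLog.NU
import Pool.Agent.helper22.Fields

set_option autoImplicit false

namespace Pool.Agent.UpLog

open NumberField Module MvPolynomial

namespace KC

lemma house_one (L : Type*) [Field L] [NumberField L] : house (1 : L) = 1 := by
  have := house_intCast (K := L) 1
  simpa using this

lemma house_algebraMap_le (K L : Type*) [Field K] [NumberField K] [Field L] [NumberField L]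
    [Algebra K L] (a : K) : house (algebraMap K L a) ≤ house a := by
  rw [Pool.Agent.helper22.house_le_iff]
  intro φ
  have := norm_embedding_le_house a (φ.comp (algebraMap K L))
  simpa using this

/-- house of a monomial with weights -/
lemma house_prod_le' {L : Type*} [Field L] [NumberField L] {σ : Type} [Fintype σ] (w : σ → ℕ)
    (hw : ∀ j, 1 ≤ w j) (C₁ Y : ℝ) (hC : 1 ≤ C₁) (hY : 1 ≤ Y) (x : σ → L)
    (hx : ∀ j, house (x j) ≤ C₁ * Y ^ w j) (α : σ →₀ ℕ) :
    house (∏ j, x j ^ α j) ≤ (C₁ * Y) ^ wdeg w α := by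
  classical
  have h1 : ∀ s : Finset σ, house (∏ j ∈ s, x j ^ α j) ≤ ∏ j ∈ s, (C₁ * Y) ^ (w j * α j) := by
    intro s
    induction s using Finset.induction_on with
    | empty => simp [house_one]
    | insert a s ha ih =>
      rw [Finset.prod_insert ha, Finset.prod_insert ha]
      refine (house_mul_le _ _).trans ?_
      apply mul_le_mul _ ih (house_nonneg _) (by positivity)
      refine (house_pow_le _ _).trans ?_
      rw [pow_mul]
      apply pow_le_pow_left₀ (house_nonneg _)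
      refine (hx a).trans ?_
      rw [mul_pow]
      have : C₁ ≤ C₁ ^ w a := le_self_pow₀ hC (by have := hw a; omega)
      gcongr
  refine (h1 Finset.univ).trans (le_of_eq ?_)
  rw [Finset.prod_pow_eq_pow_sum, wdeg]

/-- rank of a `ℤ`-submodule inside a `ℚ`-vector space -/
lemma finrank_int_le {O V : Type} [AddCommGroup O] [Module.Free ℤ O] [Module.Finite ℤ O]
    [AddCommGroup V] [Module ℚ V] [FiniteDimensional ℚ V] (ι : O →+ V)
    (hι : Function.Injective ι) (N : Submodule ℤ O) (U : Submodule ℚ V)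
    (h : ∀ x ∈ N, ι x ∈ U) : finrank ℤ N ≤ finrank ℚ U := by
  classical
  let b := Module.finBasis ℤ N
  have hli : LinearIndependent ℤ (fun i => ι (b i : O)) := by
    have h1 : LinearIndependent ℤ (fun i => (b i : O)) :=
      b.linearIndependent.map' N.subtype (Submodule.ker_subtype N)
    have h2 := h1.map' ι.toIntLinearMap (LinearMap.ker_eq_bot.2 (by simpa using hι))
    exact h2
  have hli2 : LinearIndependent ℚ (fun i => ι (b i : O)) :=
    (LinearIndependent.iff_fractionRing ℤ ℚ).1 hli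
  have hli3 : LinearIndependent ℚ (fun i => (⟨ι (b i : O), h _ (b i).2⟩ : U)) := by
    apply LinearIndependent.of_comp U.subtype
    exact hli2
  have := hli3.fintype_card_le_finrank
  simpa using this

/-- Chinese remainder theorem for points of number fields -/
lemma crt_surj {K : Type} [Field K] {σ ι : Type} [Finite ι] (L : ι → Type) [∀ i, Field (L i)]
    [∀ i, Algebra K (L i)] (x : ∀ i, σ → L i)
    (hs : ∀ i, Function.Surjective (aeval (x i) : MvPolynomial σ K →ₐ[K] L i))
    (hinj : Function.Injective fun i => RingHom.ker (aeval (x i) : MvPolynomial σ K →ₐ[K] L i))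
    (y : ∀ i, L i) : ∃ f : MvPolynomial σ K, ∀ i, aeval (x i) f = y i := by
  have hmax : ∀ i, (RingHom.ker (aeval (x i) : MvPolynomial σ K →ₐ[K] L i)).IsMaximal :=
    fun i => RingHom.ker_isMaximal_of_surjective _ (hs i)
  have hco : Pairwise (Function.onFun IsCoprime
      fun i => RingHom.ker (aeval (x i) : MvPolynomial σ K →ₐ[K] L i)) := by
    intro i j hij
    apply Ideal.isCoprime_of_isMaximal
    exact fun h => hij (hinj h)
  choose g hg using fun i => hs i (y i)
  obtain ⟨r, hr⟩ := Ideal.exists_forall_sub_mem_ideal hco g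
  refine ⟨r, fun i => ?_⟩
  have := hr i
  rw [RingHom.mem_ker, map_sub, sub_eq_zero] at this
  rw [← hg i]
  exact this

section family

variable {K : Type} [Field K] [NumberField K] {σ ι : Type} [Fintype σ] [Fintype ι]
  (L : ι → Type) [∀ i, Field (L i)] [∀ i, NumberField (L i)] [∀ i, Algebra K (L i)]

/-- the `𝓞 K`-point of the product ring -/
def pt (x : ∀ i, σ → 𝓞 (L i)) : σ → ∀ i, 𝓞 (L i) := fun j i => x i j

omit [NumberField K] [Fintype σ] [Fintype ι] [∀ i, NumberField (L i)] in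
lemma aeval_pt (x : ∀ i, σ → 𝓞 (L i)) (f : MvPolynomial σ (𝓞 K)) (i : ι) :
    (aeval (pt L x) f : ∀ i, 𝓞 (L i)) i = aeval (x i) f := by
  have h : (Pi.evalAlgHom (𝓞 K) (fun i => 𝓞 (L i)) i).comp (aeval (pt L x)) =
      (aeval (x i) : MvPolynomial σ (𝓞 K) →ₐ[𝓞 K] 𝓞 (L i)) := by
    apply MvPolynomial.algHom_ext
    intro j
    simp [pt]
  exact congrArg (fun ψ => ψ f) h

/-- the inclusion of the product of the rings of integers in the product of the fields -/
def inc : (∀ i, 𝓞 (L i)) →+* ∀ i, L i :=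
  RingHom.pi fun i => (algebraMap (𝓞 (L i)) (L i)).comp (Pi.evalRingHom _ i)

omit [Fintype ι] [∀ i, NumberField (L i)] in
lemma inc_apply (y : ∀ i, 𝓞 (L i)) (i : ι) : inc L y i = ((y i : 𝓞 (L i)) : L i) := rfl

omit [Fintype ι] [∀ i, NumberField (L i)] in
lemma inc_injective : Function.Injective (inc L) := by
  intro a b h
  funext i
  exact RingOfIntegers.coe_injective (congrFun h i)

omit [NumberField K] [Fintype σ] in
/-- evaluation over `𝓞 K` and over `K` -/
lemma aeval_coe {F : Type} [Field F] [Algebra K F] (x : σ → 𝓞 F) (f : MvPolynomial σ (𝓞 K)) :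
    ((aeval x f : 𝓞 F) : F) =
      aeval (fun j => ((x j : 𝓞 F) : F)) (MvPolynomial.map (algebraMap (𝓞 K) K) f) := by
  have h : (algebraMap (𝓞 F) F).comp
      (aeval x : MvPolynomial σ (𝓞 K) →ₐ[𝓞 K] 𝓞 F).toRingHom =
      (aeval (fun j => ((x j : 𝓞 F) : F)) : MvPolynomial σ K →ₐ[K] F).toRingHom.comp
        (MvPolynomial.map (algebraMap (𝓞 K) K)) := by
    apply MvPolynomial.ringHom_ext
    · intro r
      simp
      rfl
    · intro j
      simp
  exact congrArg (fun ψ => ψ f) h

omit [Fintype σ] [Fintype ι] [∀ i, NumberField (L i)] in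
/-- the monomials with integral coefficients span the product of the fields over the rationals -/
lemma span_full [Finite ι] (x : ∀ i, σ → 𝓞 (L i))
    (hs : ∀ i, Function.Surjective
      (aeval (fun j => ((x i j : 𝓞 (L i)) : L i)) : MvPolynomial σ K →ₐ[K] L i))
    (hinj : Function.Injective fun i => Kr (𝓞 K) (x i)) [Fintype σ] [∀ i, CharZero (L i)] :
    Submodule.span ℚ (Set.range fun s : Free.ChooseBasisIndex ℤ (𝓞 K) × (σ →₀ ℕ) =>
      algebraMap K (∀ i, L i) (integralBasis K s.1) *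
        ∏ j, (fun i => ((x i j : 𝓞 (L i)) : L i)) ^ s.2 j) = ⊤ := by
  classical
  rw [eq_top_iff]
  intro y _
  have hinj' : Function.Injective fun i => RingHom.ker
      (aeval (fun j => ((x i j : 𝓞 (L i)) : L i)) : MvPolynomial σ K →ₐ[K] L i) := by
    intro a b hab
    apply hinj
    ext f
    have key : ∀ i, f ∈ Kr (𝓞 K) (x i) ↔ MvPolynomial.map (algebraMap (𝓞 K) K) f ∈
        RingHom.ker (aeval (fun j => ((x i j : 𝓞 (L i)) : L i)) : MvPolynomial σ K →ₐ[K] L i) := by
      intro i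
      rw [Kr, RingHom.mem_ker, RingHom.mem_ker]
      have := aeval_coe (K := K) (x i) f
      constructor
      · intro h
        change aeval (x i) f = 0 at h
        rw [h] at this
        simpa using this.symm
      · intro h
        apply RingOfIntegers.coe_injective
        rw [map_zero]
        exact this.trans h
    rw [key, key]
    simp only at hab
    rw [hab]
  obtain ⟨f, hf⟩ := crt_surj L (fun i j => ((x i j : 𝓞 (L i)) : L i)) hs hinj' y
  have hy : y = aeval (fun j i => ((x i j : 𝓞 (L i)) : L i)) f := by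
    funext i
    have h : (Pi.evalAlgHom K (fun i => L i) i).comp
        (aeval (fun j i => ((x i j : 𝓞 (L i)) : L i))) =
        (aeval (fun j => ((x i j : 𝓞 (L i)) : L i)) : MvPolynomial σ K →ₐ[K] L i) := by
      apply MvPolynomial.algHom_ext
      intro j
      simp
    rw [← hf i, ← h]
    rfl
  rw [hy, MvPolynomial.as_sum f, map_sum]
  apply Submodule.sum_mem
  intro α _
  rw [MvPolynomial.aeval_monomial]
  have h1 : coeff α f = ∑ e, (integralBasis K).repr (coeff α f) e • integralBasis K e :=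
    ((integralBasis K).sum_repr _).symm
  rw [h1, map_sum, Finset.sum_mul]
  apply Submodule.sum_mem
  intro e _
  have h2 : algebraMap K (∀ i, L i) ((integralBasis K).repr (coeff α f) e • integralBasis K e) =
      (integralBasis K).repr (coeff α f) e • algebraMap K (∀ i, L i) (integralBasis K e) :=
    map_rat_smul (algebraMap K (∀ i, L i)) _ _
  rw [h2, smul_mul_assoc]
  apply Submodule.smul_mem
  apply Submodule.subset_span
  refine ⟨(e, α), ?_⟩
  simp only
  rw [Finsupp.prod_fintype _ _ (by simp)]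

end family

lemma numeric_end (S κ m c₀ D Sg p : ℕ) (hκ : 1 ≤ κ) (hm : 1 ≤ m) (hS : 1 ≤ S)
    (h1 : D ≤ κ * Sg + c₀ * S) (h2 : 2 * ((κ * m + 1) * c₀ + κ * m) * S ≤ 2 * D) (Y Cc : ℝ)
    (hY : 1 ≤ Y) (_hC : 1 ≤ Cc) (hp : Y ^ (κ * m + 1) ≤ (p : ℝ) ^ m)
    (h : (p : ℝ) ^ Sg ≤ Cc * Y ^ D) : Y ≤ Cc ^ (m * κ) := by
  have hY0 : 0 < Y := by linarith
  have e1 : D - c₀ * S ≤ κ * Sg := by omega
  have e2 : m * κ * D + 1 ≤ (κ * m + 1) * (D - c₀ * S) := by
    have h3 : ((κ * m + 1) * c₀ + κ * m) * S ≤ D := by nlinarith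
    have h4 : (κ * m + 1) * c₀ * S + 1 ≤ D := by
      have : 1 ≤ κ * m * S := Nat.mul_pos (Nat.mul_pos hκ hm) hS
      nlinarith
    have h5 : c₀ * S ≤ D := by
      have : c₀ * S ≤ (κ * m + 1) * c₀ * S := by
        rw [mul_assoc]
        exact Nat.le_mul_of_pos_left _ (Nat.succ_pos _)
      omega
    obtain ⟨E, hE⟩ := Nat.exists_eq_add_of_le h5
    have h6 : D - c₀ * S = E := by omega
    rw [h6]
    have h7 : κ * m * (c₀ * S) + 1 ≤ E := by
      have : (κ * m + 1) * c₀ * S = κ * m * (c₀ * S) + c₀ * S := by ring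
      omega
    rw [hE]
    nlinarith
  have e3 : Y ^ (m * κ * D + 1) ≤ Cc ^ (m * κ) * Y ^ (m * κ * D) := by
    calc Y ^ (m * κ * D + 1) ≤ Y ^ ((κ * m + 1) * (κ * Sg)) :=
          pow_le_pow_right₀ hY (e2.trans (Nat.mul_le_mul_left _ e1))
      _ = (Y ^ (κ * m + 1)) ^ (κ * Sg) := by rw [pow_mul]
      _ ≤ ((p : ℝ) ^ m) ^ (κ * Sg) := pow_le_pow_left₀ (by positivity) hp _
      _ = ((p : ℝ) ^ Sg) ^ (m * κ) := by rw [← pow_mul, ← pow_mul]; congr 1; ring
      _ ≤ (Cc * Y ^ D) ^ (m * κ) := pow_le_pow_left₀ (by positivity) h _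
      _ = Cc ^ (m * κ) * Y ^ (m * κ * D) := by rw [mul_pow, ← pow_mul]; congr 2; ring
  rw [pow_succ'] at e3
  have e4 : 0 < Y ^ (m * κ * D) := by positivity
  nlinarith [le_of_mul_le_mul_right e3 e4]

end KC

theorem class_bound (K : Type) [Field K] [NumberField K] {σ : Type} [Fintype σ]
    (n κ c₀ m : ℕ) (w : σ → ℕ) (hn : 1 ≤ n) (hκ : 1 ≤ κ) (hm : 1 ≤ m) (hw : ∀ j, 1 ≤ w j) :
    ∃ M B : ℕ, 1 ≤ M ∧ 1 ≤ B ∧ ∀ C₁ : ℝ, 1 ≤ C₁ → ∃ C₂ : ℝ, ∀ Y : ℝ, 1 ≤ Y → ∀ p : ℕ, p.Prime →
      Y ^ (κ * m + 1) ≤ (p : ℝ) ^ m →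
      ∀ (L : Fin M → Type) [∀ i, Field (L i)] [∀ i, NumberField (L i)] [∀ i, Algebra K (L i)]
        (x : ∀ i, σ → 𝓞 (L i)) (J : Ideal (MvPolynomial σ (𝓞 K))),
        (∀ i, finrank K (L i) = n) →
        (∀ i j, house ((x i j : 𝓞 (L i)) : L i) ≤ C₁ * Y ^ w j) →
        (∀ i, Function.Surjective
          (aeval (fun j => ((x i j : 𝓞 (L i)) : L i)) : MvPolynomial σ K →ₐ[K] L i)) →
        (∀ i, Kr (𝓞 K) (red p (x i)) = J) →
        (Function.Injective fun i => Kr (𝓞 K) (x i)) →
        (∀ b, 1 ≤ b → b ≤ B → ∀ f : MvPolynomial σ (𝓞 K), ∃ g, WLe w (κ * (b - 1) + c₀) g ∧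
          f - g ∈ J ^ b ⊔ Ideal.span {((p : ℕ) : MvPolynomial σ (𝓞 K))}) →
        Y ≤ C₂ := by
  classical
  set δ := finrank ℚ K with hδ
  have hδ0 : 0 < δ := Module.finrank_pos
  set T₀ := 2 * ((κ * m + 1) * c₀ + κ * m) with hT₀
  set M := 2 * T₀ ^ Fintype.card σ + 1 with hM
  set S := δ * n * M with hS
  set t₁ := (∑ j, w j) * S + T₀ with ht₁
  have hS1 : 1 ≤ S := Nat.mul_pos (Nat.mul_pos hδ0 hn) (Nat.succ_pos _)
  let Idx := Free.ChooseBasisIndex ℤ (𝓞 K)
  let Cθ : ℝ := 1 + ∑ e : Idx, house (integralBasis K e)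
  have hCθ : 1 ≤ Cθ := by
    have : 0 ≤ ∑ e : Idx, house (integralBasis K e) := Finset.sum_nonneg fun e _ => house_nonneg _
    simp only [Cθ]; linarith
  have hCe : ∀ e : Idx, house (integralBasis K e) ≤ Cθ := by
    intro e
    have := Finset.single_le_sum (f := fun e : Idx => house (integralBasis K e))
      (fun e _ => house_nonneg _) (Finset.mem_univ e)
    simp only [Cθ]; linarith
  refine ⟨M, t₁ + 1, Nat.succ_pos _, Nat.succ_pos _, fun C₁ hC₁ => ?_⟩
  refine ⟨((S.factorial : ℝ) * Cθ ^ S * C₁ ^ (S * t₁)) ^ (m * κ), ?_⟩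
  intro Y hY p hp hpY L _ _ _ x J hdeg hsize hsurj hJ hinj hstar
  -- the ambient objects
  let V := ∀ i, L i
  let O := ∀ i, 𝓞 (L i)
  let θ : Idx → V := fun e => algebraMap K V (integralBasis K e)
  let xV : σ → V := fun j i => ((x i j : 𝓞 (L i)) : L i)
  let gV : Idx × (σ →₀ ℕ) → V := fun s => θ s.1 * ∏ j, xV j ^ s.2 j
  let gO : Idx × (σ →₀ ℕ) → O := fun s =>
    algebraMap (𝓞 K) O (RingOfIntegers.basis K s.1) * ∏ j, KC.pt L x j ^ s.2 j
  have hinc : ∀ s, KC.inc L (gO s) = gV s := by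
    intro s
    simp only [gO, gV, map_mul, map_prod, map_pow]
    congr 1
    funext i
    rw [KC.inc_apply]
    simp only [θ, integralBasis_apply]
    rfl
  have hfrL : ∀ i, finrank ℚ (L i) = δ * n := by
    intro i
    rw [hδ, ← hdeg i, Module.finrank_mul_finrank]
  have hfrV : finrank ℚ V = S := by
    rw [Module.finrank_pi_fintype]
    simp only [hfrL, Finset.sum_const, Finset.card_univ, Fintype.card_fin, smul_eq_mul]
    rw [hS]; ring
  have hfrO : finrank ℤ O = S := by
    rw [Module.finrank_pi_fintype]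
    simp only [RingOfIntegers.rank, hfrL, Finset.sum_const, Finset.card_univ, Fintype.card_fin,
      smul_eq_mul]
    rw [hS]; ring
  have hfull := KC.span_full L x hsurj hinj
  let H : ℕ → ℕ := fun t => finrank ℚ (Submodule.span ℚ (gV '' {s | wdeg w s.2 ≤ t}))
  have hHmono : Monotone H := by
    intro a b hab
    apply Submodule.finrank_mono
    apply Submodule.span_mono
    apply Set.image_mono
    intro s hs
    exact le_trans hs hab
  have hHS : ∀ t, H t ≤ S := by
    intro t
    rw [← hfrV]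
    exact Submodule.finrank_le _
  obtain ⟨s, hsli, hssum⟩ := greedy (fun s : Idx × (σ →₀ ℕ) => wdeg w s.2) gV t₁
    (hilb_top w hw θ xV hfull t₁ (by rw [hfrV]; omega))
  set D := ∑ t ∈ Finset.range t₁, (S - H t) with hD
  -- index bounds
  let Φ : MvPolynomial σ (𝓞 K) →ₐ[𝓞 K] O := aeval (KC.pt L x)
  let Rm : Submodule ℤ O := (LinearMap.range Φ.toLinearMap).restrictScalars ℤ
  let W : ℕ → Submodule ℤ O := fun b =>
    ((WSub (𝓞 K) w (κ * (b - 1) + c₀)).map Φ.toLinearMap).restrictScalars ℤ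
  have hWR : ∀ b, W b ≤ Rm := by
    rintro b _ ⟨f, _, rfl⟩
    exact ⟨f, rfl⟩
  have hWH : ∀ b, finrank ℤ (W b) ≤ H (κ * (b - 1) + c₀) := by
    intro b
    apply KC.finrank_int_le (KC.inc L : O →+ V) (KC.inc_injective L)
    rintro _ ⟨f, hf, rfl⟩
    have e1 : Φ f = ∑ α ∈ f.support, ∑ e : Idx,
        ((RingOfIntegers.basis K).repr (coeff α f) e : ℤ) • gO (e, α) := by
      conv_lhs => rw [MvPolynomial.as_sum f, map_sum]
      apply Finset.sum_congr rfl
      intro α _
      have e2 : coeff α f = ∑ e, (RingOfIntegers.basis K).repr (coeff α f) e •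
          RingOfIntegers.basis K e := ((RingOfIntegers.basis K).sum_repr _).symm
      conv_lhs => rw [MvPolynomial.aeval_monomial, e2, map_sum, Finset.sum_mul]
      apply Finset.sum_congr rfl
      intro e _
      simp only [gO]
      rw [map_zsmul, smul_mul_assoc, Finsupp.prod_fintype _ _ (by simp)]
    have e3 : (KC.inc L : O →+ V) (Φ f) = ∑ α ∈ f.support, ∑ e : Idx,
        ((RingOfIntegers.basis K).repr (coeff α f) e : ℤ) • gV (e, α) := by
      rw [e1, map_sum]
      apply Finset.sum_congr rfl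
      intro α _
      rw [map_sum]
      apply Finset.sum_congr rfl
      intro e _
      rw [map_zsmul]
      congr 1
      exact hinc (e, α)
    change (KC.inc L : O →+ V) (Φ f) ∈ _
    rw [e3]
    apply Submodule.sum_mem
    intro α hα
    apply Submodule.sum_mem
    intro e _
    apply zsmul_mem
    apply Submodule.subset_span
    exact ⟨(e, α), hf α hα, rfl⟩
  -- the independent family
  have hsO : LinearIndependent ℤ (fun k : Fin (finrank ℚ V) => gO (s k)) := by
    have h1 : LinearIndependent ℤ (fun k : Fin (finrank ℚ V) => gV (s k)) :=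
      (LinearIndependent.iff_fractionRing ℤ ℚ).2 hsli
    have h2 : LinearIndependent ℤ
        (fun k : Fin (finrank ℚ V) => (KC.inc L : O →+ V).toIntLinearMap (gO (s k))) := by
      have h3 : (fun k : Fin (finrank ℚ V) => (KC.inc L : O →+ V).toIntLinearMap (gO (s k))) =
          fun k => gV (s k) := funext fun k => hinc (s k)
      rw [h3]
      exact h1
    exact LinearIndependent.of_comp _ h2
  have hDT := index_le_of_family L (finrank ℚ V) (by
    rw [Module.finrank_pi_fintype]) (fun k => gO (s k)) hsO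
    (fun k => Cθ * (C₁ * Y) ^ wdeg w (s k).2) (by
      intro k i
      have h1 : ((gO (s k) i : 𝓞 (L i)) : L i) = algebraMap K (L i) (integralBasis K (s k).1) *
          ∏ j, ((x i j : 𝓞 (L i)) : L i) ^ (s k).2 j := by
        have := congrFun (hinc (s k)) i
        rw [KC.inc_apply] at this
        rw [this]
        change (θ (s k).1 * ∏ j, xV j ^ (s k).2 j) i = _
        rw [Pi.mul_apply, Finset.prod_apply]
        rfl
      rw [h1]
      refine (house_mul_le _ _).trans ?_
      apply mul_le_mul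
      · exact (KC.house_algebraMap_le K (L i) _).trans (hCe _)
      · exact KC.house_prod_le' w hw C₁ Y hC₁ hY _ (hsize i) _
      · exact house_nonneg _
      · linarith)
  obtain ⟨hDT0, hDT1⟩ := hDT
  have hle : Submodule.span ℤ (Set.range fun k : Fin (finrank ℚ V) => gO (s k)) ≤ Rm := by
    rw [Submodule.span_le]
    rintro _ ⟨k, rfl⟩
    refine ⟨MvPolynomial.monomial (s k).2 (RingOfIntegers.basis K (s k).1), ?_⟩
    simp only [gO, Φ, AlgHom.toLinearMap_apply]
    rw [MvPolynomial.aeval_monomial, Finsupp.prod_fintype _ _ (by simp)]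
  have hdvd : Rm.toAddSubgroup.index ∣
      (Submodule.span ℤ (Set.range fun k : Fin (finrank ℚ V) => gO (s k))).toAddSubgroup.index :=
    AddSubgroup.index_dvd_of_le hle
  have hRm0 : Rm.toAddSubgroup.index ≠ 0 := fun h => hDT0 (by rw [h] at hdvd; exact Nat.eq_zero_of_zero_dvd hdvd)
  have hRm1 := Nat.le_of_dvd (Nat.pos_of_ne_zero hDT0) hdvd
  have hIX := index_ge Rm hRm0 p hp (t₁ + 1) W (fun b => H (κ * (b - 1) + c₀)) hWH hWR (by
    intro b hb1 hb2 r hr
    obtain ⟨f, rfl⟩ := hr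
    obtain ⟨g, hg, hfg⟩ := hstar b hb1 hb2 f
    obtain ⟨h, hh, t, ht, hht⟩ := Submodule.mem_sup.1 hfg
    obtain ⟨u, rfl⟩ := Ideal.mem_span_singleton'.1 ht
    have hJp : ∀ a ∈ J, Φ a ∈ Ideal.span {((p : ℕ) : O)} := by
      intro a ha
      have h1 : ∀ i, ∃ c : 𝓞 (L i), Φ a i = p * c := by
        intro i
        rw [← hJ i, Kr, RingHom.mem_ker] at ha
        have h2 : (Ideal.Quotient.mk (Ideal.span {((p : ℕ) : 𝓞 (L i))})) (aeval (x i) a) = 0 := by
          have h3 : ((Ideal.Quotient.mkₐ (𝓞 K) (Ideal.span {((p : ℕ) : 𝓞 (L i))})).comp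
              (aeval (x i))) = aeval (red p (x i)) := by
            apply MvPolynomial.algHom_ext
            intro j
            simp [red]
          have h4 := congrArg (fun ψ => ψ a) h3
          simp only [AlgHom.comp_apply, Ideal.Quotient.mkₐ_eq_mk] at h4
          rw [h4]
          exact ha
        rw [Ideal.Quotient.eq_zero_iff_mem, Ideal.mem_span_singleton'] at h2
        obtain ⟨c, hc⟩ := h2
        refine ⟨c, ?_⟩
        have h5 := KC.aeval_pt (K := K) L x a i
        change (aeval (KC.pt L x) a : O) i = _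
        rw [h5, ← hc, mul_comm]
      choose c hc using h1
      rw [Ideal.mem_span_singleton']
      refine ⟨c, ?_⟩
      funext i
      rw [hc i, mul_comm]
      rfl
    have hJb : Φ h ∈ Ideal.span {((p : ℕ) : O)} ^ b := by
      have h1 : J.map Φ.toRingHom ≤ Ideal.span {((p : ℕ) : O)} := by
        rw [Ideal.map_le_iff_le_comap]
        exact hJp
      have h2 : Φ.toRingHom h ∈ (J ^ b).map Φ.toRingHom := Ideal.mem_map_of_mem _ hh
      rw [Ideal.map_pow] at h2
      exact Ideal.pow_right_mono h1 b h2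
    rw [Ideal.span_singleton_pow, Ideal.mem_span_singleton'] at hJb
    obtain ⟨o, ho⟩ := hJb
    refine ⟨Φ g, ⟨g, hg, rfl⟩, Φ h, ⟨h, rfl⟩, o, Φ u, ⟨u, rfl⟩, ?_, ?_⟩
    · rw [← ho, zsmul_eq_mul]
      push_cast
      ring
    · have h1 : f = g + h + u * ((p : ℕ) : MvPolynomial σ (𝓞 K)) := by
        rw [add_assoc, hht]; ring
      change Φ f = _
      conv_lhs => rw [h1, map_add, map_add, map_mul, map_natCast]
      rw [zsmul_eq_mul]
      push_cast
      ring)
  -- numerical part
  have hDS : D ≤ S * t₁ := by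
    rw [hD]
    calc ∑ t ∈ Finset.range t₁, (S - H t) ≤ ∑ _t ∈ Finset.range t₁, S :=
          Finset.sum_le_sum fun t _ => Nat.sub_le _ _
      _ = S * t₁ := by simp [mul_comm]
  have hnum := numeric H S κ c₀ (t₁ + 1) t₁ hκ hHmono hHS (by nlinarith)
  have h2D : T₀ * S ≤ 2 * D := by
    have hT1 : T₀ ≤ t₁ := by omega
    have h1 : ∀ t ∈ Finset.range T₀, S ≤ 2 * (S - H t) := by
      intro t ht
      have ht' : t + 1 ≤ T₀ := Finset.mem_range.1 ht
      have h2 : H t ≤ Fintype.card Idx * (t + 1) ^ Fintype.card σ := hilb_le w hw θ xV t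
      have h3 : Fintype.card Idx = δ := by
        rw [← finrank_eq_card_basis (RingOfIntegers.basis K), RingOfIntegers.rank]
      have h4 : (t + 1) ^ Fintype.card σ ≤ T₀ ^ Fintype.card σ := Nat.pow_le_pow_left ht' _
      have h5 : H t ≤ δ * T₀ ^ Fintype.card σ := by
        rw [h3] at h2
        exact h2.trans (Nat.mul_le_mul_left _ h4)
      have h6 : 2 * (δ * T₀ ^ Fintype.card σ) ≤ S := by
        rw [hS, hM]
        have : δ * (2 * T₀ ^ Fintype.card σ) ≤ δ * n * (2 * T₀ ^ Fintype.card σ + 1) := by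
          have h7 : δ * 1 ≤ δ * n := Nat.mul_le_mul_left _ hn
          calc δ * (2 * T₀ ^ Fintype.card σ) ≤ δ * n * (2 * T₀ ^ Fintype.card σ) :=
                Nat.mul_le_mul_right _ (by omega)
            _ ≤ _ := Nat.mul_le_mul_left _ (Nat.le_succ _)
        calc 2 * (δ * T₀ ^ Fintype.card σ) = δ * (2 * T₀ ^ Fintype.card σ) := by ring
          _ ≤ _ := this
      omega
    calc T₀ * S = ∑ _t ∈ Finset.range T₀, S := by simp
      _ ≤ ∑ t ∈ Finset.range T₀, 2 * (S - H t) := Finset.sum_le_sum h1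
      _ = 2 * ∑ t ∈ Finset.range T₀, (S - H t) := by rw [Finset.mul_sum]
      _ ≤ 2 * D := by
          apply Nat.mul_le_mul_left
          exact Finset.sum_le_sum_of_subset (Finset.range_mono hT1)
  have hY0 : 0 < Y := by linarith
  have hfinal : (p : ℝ) ^ (∑ b ∈ Finset.Icc 1 (t₁ + 1), (S - H (κ * (b - 1) + c₀))) ≤
      ((S.factorial : ℝ) * Cθ ^ S * C₁ ^ (S * t₁)) * Y ^ D := by
    rw [hfrO] at hIX
    have h1 : (p : ℝ) ^ (∑ b ∈ Finset.Icc 1 (t₁ + 1), (S - H (κ * (b - 1) + c₀))) ≤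
        (Rm.toAddSubgroup.index : ℝ) := by exact_mod_cast hIX
    have h2 : (Rm.toAddSubgroup.index : ℝ) ≤ ((Submodule.span ℤ (Set.range
        fun k : Fin (finrank ℚ V) => gO (s k))).toAddSubgroup.index : ℝ) := by exact_mod_cast hRm1
    refine h1.trans (h2.trans (hDT1.trans ?_))
    have hfac : (finrank ℚ V).factorial = S.factorial := by rw [hfrV]
    have hpw : Cθ ^ (finrank ℚ V) = Cθ ^ S := by rw [hfrV]
    rw [Finset.prod_mul_distrib, Finset.prod_const, Finset.card_univ, Fintype.card_fin,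
      Finset.prod_pow_eq_pow_sum, hfac, hpw]
    have h3 : ∑ k, wdeg w (s k).2 ≤ D := by
      rw [hD]
      refine hssum.trans (le_of_eq ?_)
      rw [hfrV]
    have h4 : 1 ≤ C₁ * Y := one_le_mul_of_one_le_of_one_le hC₁ hY
    calc (S.factorial : ℝ) * (Cθ ^ S * (C₁ * Y) ^ ∑ k, wdeg w (s k).2)
        ≤ (S.factorial : ℝ) * (Cθ ^ S * (C₁ * Y) ^ D) := by gcongr
      _ = (S.factorial : ℝ) * Cθ ^ S * C₁ ^ D * Y ^ D := by rw [mul_pow]; ring
      _ ≤ (S.factorial : ℝ) * Cθ ^ S * C₁ ^ (S * t₁) * Y ^ D := by gcongr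
  refine KC.numeric_end S κ m c₀ D _ p hκ hm hS1 hnum ?_ Y _ hY ?_ hpY hfinal
  · exact h2D
  · have h1 : (1 : ℝ) ≤ S.factorial := by exact_mod_cast Nat.factorial_pos S
    have h2 : 1 ≤ Cθ ^ S := one_le_pow₀ hCθ
    have h3 : 1 ≤ C₁ ^ (S * t₁) := one_le_pow₀ hC₁
    exact one_le_mul_of_one_le_of_one_le (one_le_mul_of_one_le_of_one_le h1 h2) h3

end Pool.Agent.UpLog
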