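import Mathlib
import Pool.Agent.UpLog.Defs

set_option autoImplicit false

namespace Pool.Agent.UpLog.KZ

open NumberField Module MvPolynomial

/-- clearing denominators in a polynomial over a number field -/
theorem clear_denom {K : Type} [Field K] [NumberField K] {σ : Type} (f : MvPolynomial σ K) :
    ∃ b : 𝓞 K, b ≠ 0 ∧ ∃ g : MvPolynomial σ (𝓞 K),
      map (algebraMap (𝓞 K) K) g = C (algebraMap (𝓞 K) K b) * f := by
  induction f using MvPolynomial.induction_on with
  | C a =>
    obtain ⟨u, v, hv, rfl⟩ := IsFractionRing.div_surjective (A := 𝓞 K) a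
    have hv0 : v ≠ 0 := nonZeroDivisors.ne_zero hv
    have hv1 : algebraMap (𝓞 K) K v ≠ 0 := by
      rw [Ne, FaithfulSMul.algebraMap_eq_zero_iff]
      exact hv0
    refine ⟨v, hv0, C u, ?_⟩
    rw [map_C, ← C_mul]
    congr 1
    field_simp
  | add p q hp hq =>
    obtain ⟨b, hb, g, hg⟩ := hp
    obtain ⟨c, hc, h, hh⟩ := hq
    refine ⟨b * c, mul_ne_zero hb hc, C c * g + C b * h, ?_⟩
    rw [map_add, map_mul, map_mul, map_C, map_C, hg, hh, map_mul, C_mul]
    ring
  | mul_X p i hp =>
    obtain ⟨b, hb, g, hg⟩ := hp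
    refine ⟨b, hb, g * X i, ?_⟩
    rw [map_mul, map_X, hg, mul_assoc]

theorem aeval_zero_of_Kr_eq {K : Type} [Field K] [NumberField K] {σ : Type} [Fintype σ]
    {z z' : σ → AlgebraicClosure K} (h : Kr (𝓞 K) z = Kr (𝓞 K) z') (f : MvPolynomial σ K)
    (hf : aeval z f = 0) : aeval z' f = 0 := by
  obtain ⟨b, hb, g, hg⟩ := clear_denom f
  have hb1 : algebraMap K (AlgebraicClosure K) (algebraMap (𝓞 K) K b) ≠ 0 := by
    rw [Ne, FaithfulSMul.algebraMap_eq_zero_iff, FaithfulSMul.algebraMap_eq_zero_iff]
    exact hb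
  have key : ∀ y : σ → AlgebraicClosure K,
      aeval y g = algebraMap K (AlgebraicClosure K) (algebraMap (𝓞 K) K b) * aeval y f := by
    intro y
    rw [← aeval_map_algebraMap K, hg, map_mul, aeval_C]
  have h1 : g ∈ Kr (𝓞 K) z := by
    change aeval z g = 0
    rw [key, hf, mul_zero]
  rw [h] at h1
  have h2 : aeval z' g = 0 := h1
  rw [key] at h2
  exact (mul_eq_zero.mp h2).resolve_left hb1

theorem exists_emb {K : Type} [Field K] [NumberField K] {σ : Type} [Fintype σ]
    (z z' : σ → AlgebraicClosure K) (h : Kr (𝓞 K) z = Kr (𝓞 K) z') :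
    ∃ φ : IntermediateField.adjoin K (Set.range z) →ₐ[K] AlgebraicClosure K,
      ∀ j, φ ⟨z j, IntermediateField.subset_adjoin K _ (Set.mem_range_self j)⟩ = z' j := by
  let f0 : MvPolynomial σ K →ₐ[K] IntermediateField.adjoin K (Set.range z) :=
    aeval fun j => ⟨z j, IntermediateField.subset_adjoin K _ (Set.mem_range_self j)⟩
  have hval : ∀ f, ((f0 f : IntermediateField.adjoin K (Set.range z)) : AlgebraicClosure K) =
      aeval z f := by
    intro f
    have h1 : (IntermediateField.adjoin K (Set.range z)).val.comp f0 = aeval z := by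
      apply MvPolynomial.algHom_ext
      intro j
      simp [f0]
    exact DFunLike.congr_fun h1 f
  have hsurj : Function.Surjective f0 := by
    intro y
    have hy : (y : AlgebraicClosure K) ∈
        (IntermediateField.adjoin K (Set.range z)).toSubalgebra := y.2
    rw [IntermediateField.adjoin_toSubalgebra_of_isAlgebraic
      (fun x _ => Algebra.IsAlgebraic.isAlgebraic x), Algebra.adjoin_range_eq_range_aeval] at hy
    obtain ⟨f, hf⟩ := hy
    refine ⟨f, Subtype.ext ?_⟩
    rw [hval]
    exact hf
  have hker : ∀ f ∈ RingHom.ker f0, (aeval z' : MvPolynomial σ K →ₐ[K] AlgebraicClosure K) f = 0 := by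
    intro f hf
    refine aeval_zero_of_Kr_eq h f ?_
    rw [← hval]
    have : f0 f = 0 := hf
    rw [this]
    rfl
  refine ⟨(Ideal.Quotient.liftₐ (RingHom.ker f0) (aeval z') hker).comp
    (Ideal.quotientKerAlgEquivOfSurjective hsurj).symm.toAlgHom, ?_⟩
  intro j
  have h3 : (Ideal.quotientKerAlgEquivOfSurjective hsurj).symm
      ⟨z j, IntermediateField.subset_adjoin K _ (Set.mem_range_self j)⟩ =
      Ideal.Quotient.mk (RingHom.ker f0) (X j) := by
    rw [AlgEquiv.symm_apply_eq]
    apply Subtype.ext
    change z j = ((f0 (X j) : IntermediateField.adjoin K (Set.range z)) : AlgebraicClosure K)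
    rw [hval, aeval_X]
  change (Ideal.Quotient.liftₐ (RingHom.ker f0) (aeval z') hker)
    ((Ideal.quotientKerAlgEquivOfSurjective hsurj).symm
      ⟨z j, IntermediateField.subset_adjoin K _ (Set.mem_range_self j)⟩) = z' j
  rw [h3]
  change (aeval z' : MvPolynomial σ K →ₐ[K] AlgebraicClosure K) (X j) = z' j
  rw [aeval_X]

end Pool.Agent.UpLog.KZ

namespace Pool.Agent.UpLog

open NumberField Module MvPolynomial

theorem kernel_fibre (K : Type) [Field K] [NumberField K] {σ : Type} [Fintype σ] (n : ℕ)
    (P : Ideal (MvPolynomial σ (𝓞 K))) :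
    {z : σ → AlgebraicClosure K | Kr (𝓞 K) z = P ∧
      finrank K (IntermediateField.adjoin K (Set.range z)) = n}.Finite ∧
    {z : σ → AlgebraicClosure K | Kr (𝓞 K) z = P ∧
      finrank K (IntermediateField.adjoin K (Set.range z)) = n}.ncard ≤ n := by
  set S : Set (σ → AlgebraicClosure K) := {z : σ → AlgebraicClosure K | Kr (𝓞 K) z = P ∧
      finrank K (IntermediateField.adjoin K (Set.range z)) = n} with hS
  by_cases hne : S.Nonempty
  · obtain ⟨z0, hz0⟩ := hne
    have hfd : FiniteDimensional K (IntermediateField.adjoin K (Set.range z0)) := by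
      have : Finite (Set.range z0) := Set.finite_range z0
      exact IntermediateField.finiteDimensional_adjoin
        (fun x _ => (Algebra.IsAlgebraic.isAlgebraic x).isIntegral)
    have hex : ∀ z : S, ∃ φ : IntermediateField.adjoin K (Set.range z0) →ₐ[K] AlgebraicClosure K,
        ∀ j, φ ⟨z0 j, IntermediateField.subset_adjoin K _ (Set.mem_range_self j)⟩ = z.1 j := by
      intro z
      exact KZ.exists_emb z0 z.1 (hz0.1.trans z.2.1.symm)
    choose Φ hΦ using hex
    have hinj : Function.Injective Φ := by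
      intro z z' h
      apply Subtype.ext
      funext j
      rw [← hΦ z j, ← hΦ z' j, h]
    have hfin : Finite S := Finite.of_injective Φ hinj
    refine ⟨Set.toFinite S, ?_⟩
    have h1 : Nat.card S ≤
        Nat.card (IntermediateField.adjoin K (Set.range z0) →ₐ[K] AlgebraicClosure K) :=
      Nat.card_le_card_of_injective Φ hinj
    have h2 : Nat.card (IntermediateField.adjoin K (Set.range z0) →ₐ[K] AlgebraicClosure K) = n := by
      rw [Nat.card_eq_fintype_card, AlgHom.card, hz0.2]
    rw [← Nat.card_coe_set_eq]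
    omega
  · rw [Set.not_nonempty_iff_eq_empty] at hne
    rw [hne]
    simp

end Pool.Agent.UpLog
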