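import Mathlib
import Pool.Agent.UpLog.Defs

set_option autoImplicit false

/-!
# Finitely many primes of controlled size, one of which does not divide a given integer
-/

namespace Pool.Agent.UpLog

open NumberField Module MvPolynomial

namespace PR

theorem exists_seq (Q : ℕ) (hQ : 1 ≤ Q) : ∃ f : ℕ → ℕ, StrictMono f ∧
    (∀ i, (f i).Prime ∧ Q < f i) ∧ ∀ i, f i ≤ 2 ^ (i + 1) * Q := by
  have hg : ∀ n : ℕ, ∃ p : ℕ, n ≠ 0 → p.Prime ∧ n < p ∧ p ≤ 2 * n := by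
    intro n
    by_cases hn : n = 0
    · exact ⟨0, fun h => absurd hn h⟩
    · obtain ⟨p, hp⟩ := Nat.exists_prime_lt_and_le_two_mul n hn
      exact ⟨p, fun _ => hp⟩
  choose g hg using hg
  let f : ℕ → ℕ := fun i => Nat.rec (g Q) (fun _ x => g x) i
  have h0 : f 0 = g Q := rfl
  have hs : ∀ i, f (i + 1) = g (f i) := fun i => rfl
  have hQ0 : Q ≠ 0 := by omega
  have hpr : ∀ i, (f i).Prime ∧ Q < f i := by
    intro i
    induction i with
    | zero => rw [h0]; exact ⟨(hg Q hQ0).1, (hg Q hQ0).2.1⟩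
    | succ i ih =>
      have hne : f i ≠ 0 := ih.1.ne_zero
      rw [hs]
      exact ⟨(hg _ hne).1, ih.2.trans (hg _ hne).2.1⟩
  refine ⟨f, strictMono_nat_of_lt_succ fun i => ?_, hpr, ?_⟩
  · rw [hs]
    exact (hg _ (hpr i).1.ne_zero).2.1
  · intro i
    induction i with
    | zero => rw [h0]; simpa using (hg Q hQ0).2.2
    | succ i ih =>
      rw [hs]
      calc g (f i) ≤ 2 * f i := (hg _ (hpr i).1.ne_zero).2.2
        _ ≤ 2 * (2 ^ (i + 1) * Q) := Nat.mul_le_mul_left _ ih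
        _ = 2 ^ (i + 1 + 1) * Q := by ring

end PR

theorem primes (a m c : ℕ) (hm : 1 ≤ m) (ha : m ≤ a) (C : ℝ) :
    ∃ h : ℕ, ∃ C' : ℝ, 1 ≤ C' ∧ ∀ Y : ℝ, 1 ≤ Y → ∃ P : Finset ℕ, P.card ≤ h ∧
      (∀ p ∈ P, p.Prime ∧ Y ^ a ≤ (p : ℝ) ^ m ∧ (p : ℝ) ≤ C' * Y ^ ((a : ℝ) / m)) ∧
      ∀ I : ℕ, I ≠ 0 → (I : ℝ) ≤ C * Y ^ c → ∃ p ∈ P, ¬ p ∣ I := by
  classical
  obtain ⟨h₁, hh₁⟩ := pow_unbounded_of_one_lt C (by norm_num : (1 : ℝ) < 2)
  refine ⟨h₁ + c, 2 ^ (h₁ + c + 2), one_le_pow₀ (by norm_num), fun Y hY => ?_⟩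
  have hY0 : (0 : ℝ) < Y := by linarith
  have hm0 : (0 : ℝ) < m := by exact_mod_cast hm
  set Z : ℝ := Y ^ ((a : ℝ) / m) with hZ
  have hZY : Y ≤ Z := by
    calc Y = Y ^ (1 : ℝ) := (Real.rpow_one Y).symm
      _ ≤ Y ^ ((a : ℝ) / m) := by
        apply Real.rpow_le_rpow_of_exponent_le hY
        rw [one_le_div hm0]
        exact_mod_cast ha
  have hZ1 : 1 ≤ Z := hY.trans hZY
  have hZm : Z ^ m = Y ^ a := by
    rw [hZ, ← Real.rpow_natCast, ← Real.rpow_mul hY0.le, div_mul_cancel₀ _ hm0.ne',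
      Real.rpow_natCast]
  set Q : ℕ := ⌈Z⌉₊ with hQ
  have hZQ : Z ≤ Q := Nat.le_ceil Z
  have hQZ : (Q : ℝ) ≤ 2 * Z := by
    have := Nat.ceil_lt_add_one (by linarith : (0 : ℝ) ≤ Z)
    linarith
  have hQ1 : 1 ≤ Q := by
    have : (1 : ℝ) ≤ Q := hZ1.trans hZQ
    exact_mod_cast this
  obtain ⟨f, hmono, hpr, hle⟩ := PR.exists_seq Q hQ1
  have hfZ : ∀ i, Z ≤ (f i : ℝ) := by
    intro i
    have : (Q : ℝ) ≤ f i := by exact_mod_cast (hpr i).2.le
    linarith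
  refine ⟨(Finset.range (h₁ + c)).image f, ?_, ?_, ?_⟩
  · exact Finset.card_image_le.trans (by simp)
  · intro p hp
    rw [Finset.mem_image] at hp
    obtain ⟨i, hi, rfl⟩ := hp
    rw [Finset.mem_range] at hi
    refine ⟨(hpr i).1, ?_, ?_⟩
    · rw [← hZm]
      exact pow_le_pow_left₀ (by linarith) (hfZ i) m
    · have h1 : (f i : ℝ) ≤ 2 ^ (i + 1) * Q := by exact_mod_cast hle i
      have h2 : (2 : ℝ) ^ (i + 1) ≤ 2 ^ (h₁ + c + 1) :=
        pow_le_pow_right₀ (by norm_num) (by omega)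
      calc (f i : ℝ) ≤ 2 ^ (i + 1) * Q := h1
        _ ≤ 2 ^ (h₁ + c + 1) * (2 * Z) := by
          apply mul_le_mul h2 hQZ (by positivity) (by positivity)
        _ = 2 ^ (h₁ + c + 2) * Z := by ring
  · intro I hI hIle
    by_contra hcon
    push Not at hcon
    have hdvd : ∏ p ∈ (Finset.range (h₁ + c)).image f, p ∣ I := by
      apply Finset.prod_primes_dvd
      · intro p hp
        rw [Finset.mem_image] at hp
        obtain ⟨i, _, rfl⟩ := hp
        exact (hpr i).1.prime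
      · exact hcon
    rw [Finset.prod_image fun x _ y _ h => hmono.injective h] at hdvd
    have hle2 : (∏ i ∈ Finset.range (h₁ + c), (f i : ℝ)) ≤ I := by
      have := Nat.le_of_dvd (Nat.pos_of_ne_zero hI) hdvd
      exact_mod_cast this
    rw [Finset.prod_range_add] at hle2
    have e1 : (2 : ℝ) ^ h₁ ≤ ∏ i ∈ Finset.range h₁, (f i : ℝ) := by
      calc (2 : ℝ) ^ h₁ = ∏ i ∈ Finset.range h₁, (2 : ℝ) := by simp
        _ ≤ _ := Finset.prod_le_prod (fun _ _ => by norm_num) fun i _ => by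
          exact_mod_cast (hpr i).1.two_le
    have e2 : Y ^ c ≤ ∏ i ∈ Finset.range c, (f (h₁ + i) : ℝ) := by
      calc Y ^ c = ∏ i ∈ Finset.range c, Y := by simp
        _ ≤ _ := Finset.prod_le_prod (fun _ _ => hY0.le) fun i _ => hZY.trans (hfZ _)
    have hYc : 0 < Y ^ c := by positivity
    have e3 : (2 : ℝ) ^ h₁ * Y ^ c ≤ I :=
      (mul_le_mul e1 e2 hYc.le ((by positivity : (0 : ℝ) ≤ 2 ^ h₁).trans e1)).trans hle2
    have e4 : C * Y ^ c < 2 ^ h₁ * Y ^ c := mul_lt_mul_of_pos_right hh₁ hYc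
    linarith

end Pool.Agent.UpLog
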