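import Mathlib
import Pool.Agent.UpLog.Defs

set_option autoImplicit false

/-!
# Reducedness of the ring of integers modulo a prime not dividing the discriminant
-/

namespace Pool.Agent.UpLog

open NumberField Module MvPolynomial

namespace RD

lemma trace_of_pow_mem {S : Type*} [CommRing S] {ι : Type*} [Fintype ι] [DecidableEq ι]
    (b : Basis ι ℤ S) (p : ℕ) (hp : p.Prime) (y : S) (m : ℕ) (w : S)
    (h : y ^ m = (p : S) * w) : (p : ℤ) ∣ Algebra.trace ℤ S y := by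
  have : Fact p.Prime := ⟨hp⟩
  have h1 : Algebra.leftMulMatrix b y ^ m = (p : ℤ) • Algebra.leftMulMatrix b w := by
    have h' : y ^ m = (p : ℤ) • w := by rw [h]; simp
    rw [← map_pow, h', map_smul]
  set M := (Algebra.leftMulMatrix b y).map (Int.castRingHom (ZMod p)) with hM
  have h2 : M ^ m = 0 := by
    have h3 : M = (Int.castRingHom (ZMod p)).mapMatrix (Algebra.leftMulMatrix b y) := rfl
    rw [h3, ← map_pow, h1]
    ext i j
    rw [RingHom.mapMatrix_apply, Matrix.map_apply, Matrix.smul_apply]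
    simp
  have h4 : IsNilpotent M.trace := Matrix.isNilpotent_trace_of_isNilpotent ⟨m, h2⟩
  have h5 : M.trace = ((Algebra.trace ℤ S y : ℤ) : ZMod p) := by
    rw [Algebra.trace_eq_matrix_trace b, hM]
    simp [Matrix.trace]
  rw [← ZMod.intCast_zmod_eq_zero_iff_dvd, ← h5]
  exact h4.eq_zero

lemma mem_of_pow_mem (L : Type) [Field L] [NumberField L] (p : ℕ) (hp : p.Prime)
    (h : ¬ (p : ℤ) ∣ discr L) (y : 𝓞 L) (m : ℕ) (hy : (p : 𝓞 L) ∣ y ^ m) : (p : 𝓞 L) ∣ y := by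
  classical
  have : Fact p.Prime := ⟨hp⟩
  obtain ⟨w, hw⟩ := hy
  let b := RingOfIntegers.basis L
  let G := (Algebra.traceMatrix ℤ b).map (Int.castRingHom (ZMod p))
  have hG : G.det ≠ 0 := by
    have h1 : G.det = ((discr L : ℤ) : ZMod p) := by
      have h2 : G = (Int.castRingHom (ZMod p)).mapMatrix (Algebra.traceMatrix ℤ b) := rfl
      rw [h2, ← RingHom.map_det]
      rfl
    rw [h1]
    intro h2
    exact h ((ZMod.intCast_zmod_eq_zero_iff_dvd _ _).1 h2)
  let a : Free.ChooseBasisIndex ℤ (𝓞 L) → ℤ := fun i => b.repr y i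
  have hya : y = ∑ i, a i • b i := (b.sum_repr y).symm
  have h3 : G.mulVec (fun i => ((a i : ℤ) : ZMod p)) = 0 := by
    ext j
    have h4 : (p : ℤ) ∣ Algebra.trace ℤ (𝓞 L) (b j * y) := by
      refine trace_of_pow_mem b p hp _ m (b j ^ m * w) ?_
      rw [mul_pow, hw]; ring
    rw [← ZMod.intCast_zmod_eq_zero_iff_dvd] at h4
    have h5 : Algebra.trace ℤ (𝓞 L) (b j * y) = ∑ i, Algebra.traceMatrix ℤ b j i * a i := by
      conv_lhs => rw [hya]
      rw [Finset.mul_sum, map_sum]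
      refine Finset.sum_congr rfl fun i _ => ?_
      rw [mul_smul_comm, map_smul, Algebra.traceMatrix_apply, Algebra.traceForm_apply, smul_eq_mul,
        mul_comm]
    rw [h5] at h4
    simpa [Matrix.mulVec, dotProduct, G] using h4
  have h6 : (fun i => ((a i : ℤ) : ZMod p)) = 0 := by
    have := Matrix.eq_zero_of_mulVec_eq_zero hG h3
    exact this
  have h7 : ∀ i, (p : ℤ) ∣ a i := fun i =>
    (ZMod.intCast_zmod_eq_zero_iff_dvd _ _).1 (congrFun h6 i)
  rw [hya]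
  refine Finset.dvd_sum fun i _ => ?_
  obtain ⟨c, hc⟩ := h7 i
  refine ⟨c • b i, ?_⟩
  rw [hc, mul_smul]
  simp

lemma natCast_ne_zero (L : Type) [Field L] [NumberField L] (p : ℕ) (hp : p.Prime) :
    (p : 𝓞 L) ≠ 0 := by
  exact_mod_cast hp.ne_zero

lemma card_quot (L : Type) [Field L] [NumberField L] (p : ℕ) (hp : p.Prime) :
    Nat.card (𝓞 L ⧸ Ideal.span {((p : ℕ) : 𝓞 L)}) = p ^ finrank ℚ L := by
  rw [← Submodule.cardQuot_apply, ← Ideal.absNorm_apply, Ideal.absNorm_span_singleton]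
  have h : ((p : ℕ) : 𝓞 L) = algebraMap ℤ (𝓞 L) p := by simp
  rw [h, Algebra.norm_algebraMap, RingOfIntegers.rank]
  simp [Int.natAbs_pow]

lemma finite_quot (L : Type) [Field L] [NumberField L] (p : ℕ) (hp : p.Prime) :
    Finite (𝓞 L ⧸ Ideal.span {((p : ℕ) : 𝓞 L)}) := by
  apply Nat.finite_of_card_ne_zero
  rw [card_quot L p hp]
  exact pow_ne_zero _ hp.ne_zero

lemma charP_quot (L : Type) [Field L] [NumberField L] (p : ℕ) (hp : p.Prime) :
    CharP (𝓞 L ⧸ Ideal.span {((p : ℕ) : 𝓞 L)}) p := by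
  have : Fact p.Prime := ⟨hp⟩
  refine CharP.quotient (𝓞 L) p ?_
  intro hu
  have h1 : Ideal.span {((p : ℕ) : 𝓞 L)} = ⊤ := Ideal.span_singleton_eq_top.2 hu
  have h2 := card_quot L p hp
  rw [h1] at h2
  have h3 : Nat.card (𝓞 L ⧸ (⊤ : Ideal (𝓞 L))) = 1 := by
    have : Subsingleton (𝓞 L ⧸ (⊤ : Ideal (𝓞 L))) := Ideal.Quotient.subsingleton_iff.2 rfl
    exact Nat.card_unique
  rw [h3] at h2
  have h4 : 1 < p ^ finrank ℚ L := Nat.one_lt_pow finrank_pos.ne' hp.one_lt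
  omega

end RD

theorem reduced_mod (L : Type) [Field L] [NumberField L] (p : ℕ) (hp : p.Prime)
    (h : ¬ (p : ℤ) ∣ discr L) :
    IsReduced (𝓞 L ⧸ Ideal.span {((p : ℕ) : 𝓞 L)}) := by
  refine ⟨fun z hz => ?_⟩
  obtain ⟨y, rfl⟩ := Ideal.Quotient.mk_surjective z
  obtain ⟨m, hm⟩ := hz
  rw [← map_pow, Ideal.Quotient.eq_zero_iff_mem, Ideal.mem_span_singleton] at hm
  rw [Ideal.Quotient.eq_zero_iff_mem, Ideal.mem_span_singleton]
  exact RD.mem_of_pow_mem L p hp h y m hm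

theorem quot_char (L : Type) [Field L] [NumberField L] (p : ℕ) (hp : p.Prime) :
    Finite (𝓞 L ⧸ Ideal.span {((p : ℕ) : 𝓞 L)}) ∧ CharP (𝓞 L ⧸ Ideal.span {((p : ℕ) : 𝓞 L)}) p ∧
      Nat.card (𝓞 L ⧸ Ideal.span {((p : ℕ) : 𝓞 L)}) = p ^ finrank ℚ L :=
  ⟨RD.finite_quot L p hp, RD.charP_quot L p hp, RD.card_quot L p hp⟩

theorem frob_surj (K L : Type) [Field K] [NumberField K] [Field L] [NumberField L] [Algebra K L]
    (p : ℕ) (hp : p.Prime) (h : ¬ (p : ℤ) ∣ discr L) (u : 𝓞 K) :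
    ∃ v : 𝓞 K, u - v ^ p ∈ Ideal.span {((p : ℕ) : 𝓞 K)} := by
  have : Fact p.Prime := ⟨hp⟩
  have := RD.finite_quot K p hp
  have := RD.charP_quot K p hp
  have hred : IsReduced (𝓞 K ⧸ Ideal.span {((p : ℕ) : 𝓞 K)}) := by
    refine ⟨fun z hz => ?_⟩
    obtain ⟨y, rfl⟩ := Ideal.Quotient.mk_surjective z
    obtain ⟨m, hm⟩ := hz
    rw [← map_pow, Ideal.Quotient.eq_zero_iff_mem, Ideal.mem_span_singleton] at hm
    rw [Ideal.Quotient.eq_zero_iff_mem, Ideal.mem_span_singleton]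
    have h1 : (p : 𝓞 L) ∣ (algebraMap (𝓞 K) (𝓞 L) y) ^ m := by
      have := map_dvd (algebraMap (𝓞 K) (𝓞 L)) hm
      rwa [map_natCast, map_pow] at this
    obtain ⟨z, hz⟩ := RD.mem_of_pow_mem L p hp h _ m h1
    have hp0 : (p : K) ≠ 0 := by exact_mod_cast hp.ne_zero
    have hint : IsIntegral ℤ ((y : K) / p) := by
      have h2 : IsIntegral ℤ (algebraMap K L ((y : K) / p)) := by
        have h3 : algebraMap K L ((y : K) / p) = (z : L) := by
          rw [map_div₀, map_natCast, div_eq_iff (by exact_mod_cast hp.ne_zero)]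
          have h4 := congrArg (fun t : 𝓞 L => (t : L)) hz
          simp only [map_mul, map_natCast] at h4
          rw [mul_comm]
          rw [← h4]
          exact (IsScalarTower.algebraMap_apply (𝓞 K) (𝓞 L) L y).symm.trans
            (IsScalarTower.algebraMap_apply (𝓞 K) K L y) |>.symm
        rw [h3]
        exact z.2
      exact (isIntegral_algebraMap_iff (algebraMap K L).injective).1 h2
    refine ⟨⟨(y : K) / p, hint⟩, ?_⟩
    apply RingOfIntegers.ext
    change (y : K) = p * ((y : K) / p)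
    field_simp
  have hinj : Function.Injective (frobenius (𝓞 K ⧸ Ideal.span {((p : ℕ) : 𝓞 K)}) p) :=
    frobenius_inj _ p
  have hsurj := Finite.surjective_of_injective hinj
  obtain ⟨v, hv⟩ := hsurj (Ideal.Quotient.mk _ u)
  obtain ⟨v, rfl⟩ := Ideal.Quotient.mk_surjective v
  refine ⟨v, ?_⟩
  rw [← Ideal.Quotient.eq_zero_iff_mem, map_sub, map_pow, sub_eq_zero]
  exact hv.symm

end Pool.Agent.UpLog
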