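import Pool.Agent.UpLog.Defs

set_option autoImplicit false

/-!
# Module ST : from jets to powers of the kernel ideal (Frobenius)
-/

namespace Pool.Agent.UpLog

open NumberField Module MvPolynomial

namespace ST

/-- iterated `p`-th roots modulo `p` -/
theorem root_iter {k : Type} [CommRing k] (p : ℕ)
    (hk : ∀ u : k, ∃ v : k, u - v ^ p ∈ Ideal.span {((p : ℕ) : k)}) (m : ℕ) (u : k) :
    ∃ v : k, u - v ^ (p ^ m) ∈ Ideal.span {((p : ℕ) : k)} := by
  induction m with
  | zero => exact ⟨u, by simp⟩
  | succ m ih =>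
    obtain ⟨v, hv⟩ := ih
    obtain ⟨z, hz⟩ := hk v
    refine ⟨z, ?_⟩
    rw [← Ideal.Quotient.eq] at hv hz ⊢
    rw [hv, map_pow, hz, map_pow, map_pow, ← pow_mul, pow_succ']

section

variable {k A : Type} [CommRing k] [CommRing A] [Algebra k A] {σ : Type}

/-- the quotient of the polynomial ring by `p` has characteristic `p` -/
theorem charP_quot (p : ℕ) [CharP A p] (x : σ → A) :
    CharP (MvPolynomial σ k ⧸ Ideal.span {((p : ℕ) : MvPolynomial σ k)}) p := by
  constructor
  intro n
  have hle : Ideal.span {((p : ℕ) : MvPolynomial σ k)} ≤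
      RingHom.ker (aeval x : MvPolynomial σ k →ₐ[k] A) := by
    rw [Ideal.span_singleton_le_iff_mem, RingHom.mem_ker]
    simp
  constructor
  · intro h
    have h1 : ((n : ℕ) : MvPolynomial σ k) ∈ Ideal.span {((p : ℕ) : MvPolynomial σ k)} := by
      rw [← Ideal.Quotient.eq_zero_iff_mem]
      simpa using h
    have h2 := hle h1
    rw [RingHom.mem_ker, map_natCast] at h2
    exact (CharP.cast_eq_zero_iff A p n).1 h2
  · rintro ⟨r, rfl⟩
    have h1 : ((p * r : ℕ) : MvPolynomial σ k) ∈ Ideal.span {((p : ℕ) : MvPolynomial σ k)} := by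
      rw [Nat.cast_mul]
      exact Ideal.mul_mem_right _ _ (Ideal.mem_span_singleton_self _)
    rw [← Ideal.Quotient.eq_zero_iff_mem] at h1
    simpa using h1

/-- Taylor expansion at `c^q` modulo `p` -/
theorem tay_frob (p : ℕ) [Fact p.Prime]
    [CharP (MvPolynomial σ k ⧸ Ideal.span {((p : ℕ) : MvPolynomial σ k)}) p]
    (hk : ∀ u : k, ∃ v : k, u - v ^ p ∈ Ideal.span {((p : ℕ) : k)}) (m : ℕ)
    (c : σ → MvPolynomial σ k) (e : MvPolynomial σ k) :
    ∃ V : MvPolynomial σ k,
      MvPolynomial.map (Ideal.Quotient.mk (Ideal.span {((p : ℕ) : MvPolynomial σ k)}))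
        (tay (k := k) (fun j => c j ^ (p ^ m)) e) =
      MvPolynomial.map (iterateFrobenius _ p m)
        (MvPolynomial.map (Ideal.Quotient.mk (Ideal.span {((p : ℕ) : MvPolynomial σ k)}))
          (tay (k := k) c V)) := by
  induction e using MvPolynomial.induction_on with
  | C a =>
    obtain ⟨v, hv⟩ := root_iter p hk m a
    refine ⟨C v, ?_⟩
    have h1 : tay (k := k) (fun j => c j ^ (p ^ m)) (C a) = C (C a) := by
      unfold tay
      rw [aeval_C]
      rfl
    have h2 : tay (k := k) c (C v) = C (C v) := by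
      unfold tay
      rw [aeval_C]
      rfl
    rw [h1, h2, map_C, map_C, map_C, iterateFrobenius_def, ← map_pow, ← map_pow]
    congr 1
    rw [Ideal.Quotient.eq, ← map_sub]
    have h3 := Ideal.mem_map_of_mem (C : k →+* MvPolynomial σ k) hv
    rw [Ideal.map_span, Set.image_singleton, map_natCast] at h3
    exact h3
  | add e1 e2 h1 h2 =>
    obtain ⟨V1, h1⟩ := h1
    obtain ⟨V2, h2⟩ := h2
    exact ⟨V1 + V2, by simp only [map_add, h1, h2]⟩
  | mul_X e j h =>
    obtain ⟨V, h⟩ := h
    refine ⟨V * X j, ?_⟩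
    rw [map_mul, map_mul, h, map_mul, map_mul, map_mul]
    congr 1
    unfold tay
    rw [aeval_X, aeval_X, map_add, map_add, map_add, map_C, map_C, map_C, map_X, map_X,
      iterateFrobenius_def, map_pow]

end

end ST

theorem star {k A : Type} [CommRing k] [CommRing A] [Algebra k A] [IsReduced A] [Finite A]
    (p : ℕ) [Fact p.Prime] [CharP A p]
    (hk : ∀ u : k, ∃ v : k, u - v ^ p ∈ Ideal.span {((p : ℕ) : k)})
    {σ : Type} [Fintype σ] (w : σ → ℕ) (d b : ℕ) (hb : 1 ≤ b) (x : σ → A)
    (hgood : Good k w d b x) (f : MvPolynomial σ k) :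
    ∃ g, WLe w d g ∧ f - g ∈ Kr k x ^ b ⊔ Ideal.span {((p : ℕ) : MvPolynomial σ k)} := by
  obtain ⟨g, hg1, hg2⟩ := hgood (fun β => coeff β (tay (k := k) x f))
  refine ⟨g, hg1, ?_⟩
  set e := f - g with he
  have hjet : ∀ β : σ →₀ ℕ, β.degree < b → coeff β (tay (k := k) x e) = 0 := by
    intro β hβ
    rw [he, map_sub, coeff_sub, hg2 β hβ, sub_self]
  -- the evaluation is onto
  have hc0 : ∀ h : MvPolynomial σ k, coeff 0 (tay (k := k) x h) = aeval x h := by
    intro h
    have h1 : (constantCoeff : MvPolynomial σ A →+* A).comp (tay (k := k) x).toRingHom =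
        (aeval x : MvPolynomial σ k →ₐ[k] A).toRingHom := by
      apply MvPolynomial.ringHom_ext
      · intro r
        simp [tay, MvPolynomial.algebraMap_apply]
      · intro j
        simp [tay]
    exact congrArg (fun φ : MvPolynomial σ k →+* A => φ h) h1
  have honto : Function.Surjective (aeval x : MvPolynomial σ k →ₐ[k] A) := by
    intro a
    obtain ⟨h, -, hh⟩ := hgood (fun _ => a)
    refine ⟨h, ?_⟩
    rw [← hc0]
    exact hh 0 (by simp; omega)
  set q := p ^ b with hq
  have hbq : b ≤ q := (Nat.lt_pow_self (Fact.out : p.Prime).one_lt).le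
  have hfrob : Function.Surjective (iterateFrobenius A p b) :=
    Finite.injective_iff_surjective.1 (iterateFrobenius_inj A p b)
  choose a ha using fun j => hfrob (x j)
  choose c hc using fun j => honto (a j)
  have hy : ∀ j, aeval x (c j ^ q) = x j := by
    intro j
    rw [map_pow, hc, ← ha j, iterateFrobenius_def]
  have hchar := ST.charP_quot (k := k) p x
  obtain ⟨V, hV⟩ := ST.tay_frob p hk b c e
  rw [← hq] at hV
  -- the coefficients of the Taylor expansion
  have hE : ∀ β : σ →₀ ℕ, coeff β (tay (k := k) (fun j => c j ^ q) e) -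
      (coeff β (tay (k := k) c V)) ^ q ∈ Ideal.span {((p : ℕ) : MvPolynomial σ k)} := by
    intro β
    have h1 := congrArg (coeff β) hV
    rw [coeff_map, coeff_map, coeff_map, iterateFrobenius_def, ← map_pow] at h1
    exact Ideal.Quotient.eq.1 h1
  have hx : ∀ β : σ →₀ ℕ, aeval x (coeff β (tay (k := k) (fun j => c j ^ q) e)) =
      coeff β (tay (k := k) x e) := by
    intro β
    have h1 : (MvPolynomial.map (aeval x : MvPolynomial σ k →ₐ[k] A).toRingHom).comp
        (tay (k := k) (fun j => c j ^ q)).toRingHom = (tay (k := k) x).toRingHom := by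
      apply MvPolynomial.ringHom_ext
      · intro r
        simp [tay, MvPolynomial.algebraMap_apply]
      · intro j
        have h3 : MvPolynomial.map (aeval x : MvPolynomial σ k →ₐ[k] A).toRingHom
            (tay (k := k) (fun j => c j ^ q) (X j)) = tay (k := k) x (X j) := by
          unfold tay
          rw [aeval_X, aeval_X, map_add, map_C, map_X]
          congr 2
          exact hy j
        exact h3
    have h2 : MvPolynomial.map (aeval x : MvPolynomial σ k →ₐ[k] A).toRingHom
        (tay (k := k) (fun j => c j ^ q) e) = tay (k := k) x e :=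
      congrArg (fun φ : MvPolynomial σ k →+* MvPolynomial σ A => φ e) h1
    rw [← h2, coeff_map]
    rfl
  have hker : ∀ β : σ →₀ ℕ, β.degree < b → coeff β (tay (k := k) c V) ∈ Kr k x := by
    intro β hβ
    have hle : Ideal.span {((p : ℕ) : MvPolynomial σ k)} ≤
        RingHom.ker (aeval x : MvPolynomial σ k →ₐ[k] A) := by
      rw [Ideal.span_singleton_le_iff_mem, RingHom.mem_ker]
      simp
    have h1 := hle (hE β)
    rw [RingHom.mem_ker, map_sub, hx, hjet β hβ, zero_sub, neg_eq_zero, map_pow] at h1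
    exact RingHom.mem_ker.2 (eq_zero_of_pow_eq_zero h1)
  -- Taylor formula
  have htay : e = eval (fun j => X j - c j ^ q) (tay (k := k) (fun j => c j ^ q) e) := by
    have h1 : (eval (fun j => X j - c j ^ q) : MvPolynomial σ (MvPolynomial σ k) →+* _).comp
        (tay (k := k) (fun j => c j ^ q)).toRingHom = RingHom.id (MvPolynomial σ k) := by
      apply MvPolynomial.ringHom_ext
      · intro r
        simp [tay, MvPolynomial.algebraMap_apply]
      · intro j
        simp [tay]
    exact (congrArg (fun φ : MvPolynomial σ k →+* MvPolynomial σ k => φ e) h1).symm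
  rw [htay, eval_eq']
  apply Ideal.sum_mem
  intro β _
  by_cases hβ : β.degree < b
  · apply Ideal.mul_mem_right
    have h1 : (coeff β (tay (k := k) c V)) ^ q ∈ Kr k x ^ b :=
      Ideal.pow_le_pow_right hbq (Ideal.pow_mem_pow (hker β hβ) q)
    have h2 := Ideal.add_mem (Kr k x ^ b ⊔ Ideal.span {((p : ℕ) : MvPolynomial σ k)})
      (Ideal.mem_sup_left h1) (Ideal.mem_sup_right (hE β))
    rwa [add_sub_cancel] at h2
  · apply Ideal.mul_mem_left
    apply Ideal.mem_sup_left
    have h1 : ∏ j : σ, (X j - c j ^ q) ^ β j ∈ ∏ j : σ, Kr k x ^ β j := by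
      apply Ideal.prod_mem_prod
      intro j _
      apply Ideal.pow_mem_pow
      unfold Kr
      rw [RingHom.mem_ker, map_sub, hy, aeval_X, sub_self]
    rw [Finset.prod_pow_eq_pow_sum] at h1
    refine Ideal.pow_le_pow_right ?_ h1
    have h2 : β.degree = ∑ j, β j := by
      rw [Finsupp.degree_eq_sum]
    omega

end Pool.Agent.UpLog
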