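import Mathlib
import Pool.Agent.UpLog.Basic
import Pool.Agent.UpLog.KC
import Pool.Agent.UpLog.ST
import Pool.Agent.UpLog.GM
import Pool.Agent.UpLog.RD
import Pool.Agent.UpLog.CL
import Pool.Agent.UpLog.PR
import Pool.Agent.UpLog.KZ

set_option autoImplicit false

/-!
# The core counting theorem
-/

namespace Pool.Agent.UpLog

open NumberField Module MvPolynomial

namespace CO

/-- the evaluation at a good point is onto -/
lemma surj_of_good {σ : Type} [Fintype σ] {k A : Type*} [CommRing k] [CommRing A] [Algebra k A]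
    (w : σ → ℕ) (d : ℕ) (x : σ → A) (h : Good k w d 1 x) :
    Function.Surjective (aeval x : MvPolynomial σ k →ₐ[k] A) := by
  intro y
  obtain ⟨f, _, hf⟩ := h (fun _ => y)
  refine ⟨f, ?_⟩
  rw [← coeff_zero_tay]
  exact hf 0 (by simp)

lemma Kr_comp {σ : Type} {k A B : Type*} [CommRing k] [CommRing A] [CommRing B]
    [Algebra k A] [Algebra k B] (φ : A →ₐ[k] B) (hφ : Function.Injective φ) (x : σ → A) :
    Kr k (fun j => φ (x j)) = Kr k x := by
  ext f
  simp only [Kr, RingHom.mem_ker]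
  have h : aeval (fun j => φ (x j)) f = φ (aeval x f) := by
    have : (aeval (fun j => φ (x j)) : MvPolynomial σ k →ₐ[k] B) = φ.comp (aeval x) := by
      apply MvPolynomial.algHom_ext
      intro i
      simp
    rw [this]; rfl
  change aeval (fun j => φ (x j)) f = 0 ↔ aeval x f = 0
  rw [h]
  exact map_eq_zero_iff φ hφ

/-- the embedding of the integers of `L` in the algebraic closure -/
noncomputable def emb (K : Type) [Field K] [NumberField K]
    (L : IntermediateField K (AlgebraicClosure K)) : 𝓞 L →ₐ[𝓞 K] AlgebraicClosure K :=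
  { toRingHom := (algebraMap L (AlgebraicClosure K)).comp (algebraMap (𝓞 L) L)
    commutes' := by
      intro a
      have h1 : algebraMap (𝓞 L) L (algebraMap (𝓞 K) (𝓞 L) a) = algebraMap K L (a : K) := rfl
      change algebraMap L (AlgebraicClosure K) (algebraMap (𝓞 L) L (algebraMap (𝓞 K) (𝓞 L) a)) = _
      rw [h1, IsScalarTower.algebraMap_apply (𝓞 K) K (AlgebraicClosure K)]
      rfl }

lemma emb_injective (K : Type) [Field K] [NumberField K]
    (L : IntermediateField K (AlgebraicClosure K)) : Function.Injective (emb K L) := by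
  have h : (emb K L : 𝓞 L → AlgebraicClosure K) =
      (algebraMap L (AlgebraicClosure K)) ∘ (algebraMap (𝓞 L) L) := rfl
  rw [h]
  exact (algebraMap L (AlgebraicClosure K)).injective.comp RingOfIntegers.coe_injective

lemma finite_of_no_inj {α : Type*} (S : Set α) (M : ℕ)
    (h : ∀ f : Fin M → α, Function.Injective f → (∀ i, f i ∈ S) → False) :
    S.Finite ∧ S.ncard ≤ M := by
  by_contra hc
  have hM : (M : ℕ∞) ≤ S.encard := by
    by_cases hS : S.Finite
    · have : M < S.ncard := by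
        by_contra h2
        exact hc ⟨hS, not_lt.1 h2⟩
      rw [← hS.cast_ncard_eq]
      exact_mod_cast this.le
    · rw [Set.Infinite.encard_eq hS]; exact le_top
  obtain ⟨t, ht, hcard⟩ := Set.exists_subset_encard_eq hM
  have hfin : t.Finite := Set.finite_of_encard_eq_coe hcard
  have hn : t.ncard = M := by
    have := hfin.cast_ncard_eq
    rw [hcard] at this
    exact_mod_cast this
  have hfin' : Finite t := hfin
  let e : Fin M ≃ t := (Finite.equivFinOfCardEq (by rw [Nat.card_coe_set_eq]; exact hn)).symm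
  exact h (fun i => (e i : α)) (Subtype.val_injective.comp e.injective) (fun i => ht (e i).2)

lemma ncard_biUnion_le {α β : Type*} (s : Finset β) (f : β → Set α) (c : ℕ)
    (hf : ∀ b ∈ s, (f b).Finite ∧ (f b).ncard ≤ c) :
    (⋃ b ∈ s, f b).Finite ∧ (⋃ b ∈ s, f b).ncard ≤ s.card * c := by
  classical
  induction s using Finset.induction_on with
  | empty => simp
  | insert a s ha ih =>
    obtain ⟨h1, h2⟩ := ih fun b hb => hf b (Finset.mem_insert_of_mem hb)
    obtain ⟨h3, h4⟩ := hf a (Finset.mem_insert_self _ _)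
    rw [Finset.set_biUnion_insert]
    refine ⟨h3.union h1, (Set.ncard_union_le _ _).trans ?_⟩
    rw [Finset.card_insert_of_notMem ha]
    calc (f a).ncard + (⋃ b ∈ s, f b).ncard ≤ c + s.card * c := Nat.add_le_add h4 h2
      _ = (s.card + 1) * c := by ring

/-- the points with witness prime `p` and class `J` -/
def Wit (K : Type) [Field K] [NumberField K] {σ : Type} [Fintype σ] (n κ c₀ B : ℕ)
    (w : σ → ℕ) (c₁ : ℕ) (C₁ Y : ℝ) (p : ℕ) (J : Ideal (MvPolynomial σ (𝓞 K)))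
    (z : σ → AlgebraicClosure K) : Prop :=
  ∃ (L : IntermediateField K (AlgebraicClosure K)) (_ : NumberField L) (x : σ → 𝓞 L),
    (∀ j, z j = (((x j : 𝓞 L) : L) : AlgebraicClosure K)) ∧ Adm K n κ c₀ B w c₁ C₁ Y L x ∧
    ¬ (p : ℤ) ∣ discr L ∧
    (∀ b, 1 ≤ b → b ≤ B → Good (𝓞 K) w (κ * (b - 1) + c₀) b (red p x)) ∧
    Kr (𝓞 K) (red p x) = J

section Wit

variable {K : Type} [Field K] [NumberField K] {σ : Type} [Fintype σ] {n κ c₀ B : ℕ}
    {w : σ → ℕ} {c₁ : ℕ} {C₁ Y : ℝ}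

lemma adm_mono {Y' : ℝ} (hY : 0 ≤ Y) (hYY : Y ≤ Y') (hC₁ : 1 ≤ C₁)
    {L : Type} [Field L] [NumberField L] [Algebra K L] {x : σ → 𝓞 L}
    (h : Adm K n κ c₀ B w c₁ C₁ Y L x) : Adm K n κ c₀ B w c₁ C₁ Y' L x :=
  { deg := h.deg
    size := fun j => (h.size j).trans
      (mul_le_mul_of_nonneg_left (pow_le_pow_left₀ hY hYY _) (by linarith))
    disc := h.disc.trans
      (mul_le_mul_of_nonneg_left (pow_le_pow_left₀ hY hYY _) (by linarith))
    good := h.good }

lemma surj_of_adm (hB : 1 ≤ B) {L : Type} [Field L] [NumberField L] [Algebra K L] {x : σ → 𝓞 L}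
    (h : Adm K n κ c₀ B w c₁ C₁ Y L x) :
    Function.Surjective (aeval (fun j => ((x j : 𝓞 L) : L)) : MvPolynomial σ K →ₐ[K] L) :=
  surj_of_good w _ _ (h.good 1 le_rfl hB)

omit [NumberField K] [Fintype σ] in
/-- the point generates the field -/
lemma adjoin_eq (L : IntermediateField K (AlgebraicClosure K)) (y : σ → L)
    (h : Function.Surjective (aeval y : MvPolynomial σ K →ₐ[K] L)) :
    IntermediateField.adjoin K (Set.range fun j => ((y j : L) : AlgebraicClosure K)) = L := by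
  apply le_antisymm
  · rw [IntermediateField.adjoin_le_iff]
    rintro _ ⟨j, rfl⟩
    exact (y j).2
  · intro t ht
    obtain ⟨f, hf⟩ := h ⟨t, ht⟩
    have h1 : aeval (fun j => ((y j : L) : AlgebraicClosure K)) f = t := by
      have : (aeval (fun j => ((y j : L) : AlgebraicClosure K)) :
          MvPolynomial σ K →ₐ[K] AlgebraicClosure K) = L.val.comp (aeval y) := by
        apply MvPolynomial.algHom_ext
        intro i
        simp
      rw [this, AlgHom.comp_apply, hf]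
      rfl
    rw [← h1]
    have h2 : aeval (fun j => ((y j : L) : AlgebraicClosure K)) f ∈
        Algebra.adjoin K (Set.range fun j => ((y j : L) : AlgebraicClosure K)) := by
      rw [Algebra.adjoin_range_eq_range_aeval]
      exact ⟨f, rfl⟩
    exact IntermediateField.algebra_adjoin_le_adjoin K _ h2

end Wit

/-- one class contains boundedly many points -/
lemma wit_count {K : Type} [Field K] [NumberField K] {σ : Type} [Fintype σ] {n κ c₀ B m M : ℕ}
    {w : σ → ℕ} {c₁ : ℕ} {C₁ C₂ Y : ℝ} (hB : 1 ≤ B) (hM : 1 ≤ M)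
    (hKC : ∀ Y : ℝ, 1 ≤ Y → ∀ p : ℕ, p.Prime →
      Y ^ (κ * m + 1) ≤ (p : ℝ) ^ m →
      ∀ (L : Fin M → Type) [∀ i, Field (L i)] [∀ i, NumberField (L i)] [∀ i, Algebra K (L i)]
        (x : ∀ i, σ → 𝓞 (L i)) (J : Ideal (MvPolynomial σ (𝓞 K))),
        (∀ i, finrank K (L i) = n) →
        (∀ i j, house ((x i j : 𝓞 (L i)) : L i) ≤ C₁ * Y ^ w j) →
        (∀ i, Function.Surjective
          (aeval (fun j => ((x i j : 𝓞 (L i)) : L i)) : MvPolynomial σ K →ₐ[K] L i)) →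
        (∀ i, Kr (𝓞 K) (red p (x i)) = J) →
        (Function.Injective fun i => Kr (𝓞 K) (x i)) →
        (∀ b, 1 ≤ b → b ≤ B → ∀ f : MvPolynomial σ (𝓞 K), ∃ g, WLe w (κ * (b - 1) + c₀) g ∧
          f - g ∈ J ^ b ⊔ Ideal.span {((p : ℕ) : MvPolynomial σ (𝓞 K))}) →
        Y ≤ C₂)
    (h1Y : 1 ≤ Y) (hY : C₂ < Y) (p : ℕ) (hp : p.Prime) (hYp : Y ^ (κ * m + 1) ≤ (p : ℝ) ^ m)
    (J : Ideal (MvPolynomial σ (𝓞 K))) :
    {z | Wit K n κ c₀ B w c₁ C₁ Y p J z}.Finite ∧
      {z | Wit K n κ c₀ B w c₁ C₁ Y p J z}.ncard ≤ M * n := by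
  classical
  set S := {z | Wit K n κ c₀ B w c₁ C₁ Y p J z} with hS
  have hpF : Fact p.Prime := ⟨hp⟩
  have hK : (Kr (𝓞 K) '' S).Finite ∧ (Kr (𝓞 K) '' S).ncard ≤ M := by
    apply finite_of_no_inj
    intro f hf hfS
    choose z hz hzf using hfS
    choose L hL x hx hadm hdisc hgood hKr using hz
    have hfin : ∀ i : Fin M, IsReduced (𝓞 (L i) ⧸ Ideal.span {((p : ℕ) : 𝓞 (L i))}) :=
      fun i => reduced_mod (L i) p hp (hdisc i)
    refine absurd (hKC Y h1Y p hp hYp (fun i => L i) x J (fun i => (hadm i).deg)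
      (fun i => (hadm i).size) (fun i => surj_of_adm hB (hadm i)) hKr ?_ ?_) (not_le.2 hY)
    · intro i j hij
      apply hf
      have h1 : ∀ i, Kr (𝓞 K) (x i) = f i := by
        intro i
        rw [← hzf i, ← Kr_comp (emb K (L i)) (emb_injective K (L i)) (x i)]
        congr 1
        funext j
        rw [hx i j]
        rfl
      rw [← h1 i, ← h1 j]
      exact hij
    · intro b hb1 hb2 g
      let i₀ : Fin M := ⟨0, hM⟩
      obtain ⟨hq1, hq2, _⟩ := quot_char (L i₀) p hp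
      have := hfin i₀
      have h2 := star (k := 𝓞 K) (A := 𝓞 (L i₀) ⧸ Ideal.span {((p : ℕ) : 𝓞 (L i₀))}) p
        (fun u => frob_surj K (L i₀) p hp (hdisc i₀) u) w (κ * (b - 1) + c₀) b hb1
        (red p (x i₀)) (hgood i₀ b hb1 hb2) g
      rw [hKr i₀] at h2
      exact h2
  have hsub : S ⊆ ⋃ Q ∈ hK.1.toFinset, {z : σ → AlgebraicClosure K | Kr (𝓞 K) z = Q ∧
      finrank K (IntermediateField.adjoin K (Set.range z)) = n} := by
    intro z hz
    simp only [Set.mem_iUnion, Set.Finite.mem_toFinset]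
    refine ⟨Kr (𝓞 K) z, ⟨z, hz, rfl⟩, rfl, ?_⟩
    obtain ⟨L, hL, x, hx, hadm, -⟩ := hz
    have h1 : z = fun j => (((x j : 𝓞 L) : L) : AlgebraicClosure K) := funext hx
    rw [h1, adjoin_eq L (fun j => ((x j : 𝓞 L) : L)) (surj_of_adm hB hadm)]
    exact hadm.deg
  obtain ⟨h1, h2⟩ := ncard_biUnion_le hK.1.toFinset (fun Q => {z : σ → AlgebraicClosure K |
    Kr (𝓞 K) z = Q ∧ finrank K (IntermediateField.adjoin K (Set.range z)) = n}) n
    (fun Q _ => kernel_fibre K n Q)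
  refine ⟨h1.subset hsub, (Set.ncard_le_ncard hsub h1).trans (h2.trans ?_)⟩
  apply Nat.mul_le_mul_right
  rw [← Set.ncard_eq_toFinset_card _ hK.1]
  exact hK.2

end CO

theorem core (K : Type) [Field K] [NumberField K] {σ : Type} [Fintype σ] (n κ c₀ m : ℕ)
    (w : σ → ℕ) (hn : 1 ≤ n) (hκ : 1 ≤ κ) (hm : 1 ≤ m) (hw : ∀ j, 1 ≤ w j) :
    ∃ B : ℕ, 1 ≤ B ∧ ∀ (c₁ : ℕ) (C₁ : ℝ), 1 ≤ C₁ → ∃ C : ℝ, 0 < C ∧ ∀ Y : ℝ, 1 ≤ Y →
      ∀ T : Set (σ → AlgebraicClosure K),
        (∀ z ∈ T, ∃ (L : IntermediateField K (AlgebraicClosure K)) (_ : NumberField L)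
          (x : σ → 𝓞 L), (∀ j, z j = (((x j : 𝓞 L) : L) : AlgebraicClosure K)) ∧
            Adm K n κ c₀ B w c₁ C₁ Y L x) →
        T.Finite ∧ (T.ncard : ℝ) ≤
          C * Y ^ (((κ : ℝ) + 1 / m) * (finrank ℚ K * n * Fintype.card σ)) := by
  classical
  obtain ⟨M, B, hM, hB, hKC⟩ := class_bound K n κ c₀ m w hn hκ hm hw
  refine ⟨B, hB, fun c₁ C₁ hC₁ => ?_⟩
  obtain ⟨C₂, hKC⟩ := hKC C₁ hC₁
  choose CC cc hCC hGM using fun b => good_mod K n w hw (κ * (b - 1) + c₀) b C₁ hC₁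
  obtain ⟨h, C', hC', hPR⟩ := primes (κ * m + 1) m (c₁ + ∑ b ∈ Finset.Icc 1 B, cc b) hm
    (by nlinarith) (C₁ * ∏ b ∈ Finset.Icc 1 B, CC b)
  obtain ⟨Ccl, hCL⟩ := classes K (σ := σ) (finrank ℚ K * n)
  set e : ℝ := ((κ : ℝ) + 1 / m) * (finrank ℚ K * n * Fintype.card σ) with he
  have he0 : 0 ≤ e := by positivity
  have hC'0 : 0 < C' := by linarith
  refine ⟨(h * (Ccl * C' ^ (finrank ℚ K * n * Fintype.card σ)) * (M * n) + 1) *
    (|C₂| + 2) ^ e, by positivity, fun Y hY T hT => ?_⟩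
  -- enlarge `Y`
  set Y' : ℝ := (|C₂| + 2) * Y with hY'
  have hY1 : 1 ≤ Y' := by
    have := abs_nonneg C₂
    nlinarith
  have hYY : Y ≤ Y' := by
    have := abs_nonneg C₂
    nlinarith
  have hY2 : C₂ < Y' := by
    have := abs_nonneg C₂
    have := le_abs_self C₂
    nlinarith
  obtain ⟨P, hPh, hP, hPI⟩ := hPR Y' hY1
  have hsub : T ⊆ ⋃ p ∈ P, ⋃ J ∈ (if hp : p.Prime then (hCL p hp).1.toFinset else ∅),
      {z | CO.Wit K n κ c₀ B w c₁ C₁ Y' p J z} := by
    intro z hz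
    obtain ⟨L, hL, x, hx, hadm⟩ := hT z hz
    have hadm' := CO.adm_mono (by linarith) hYY hC₁ hadm
    have hI : ∀ b, ∃ I : ℕ, I ≠ 0 ∧ (I : ℝ) ≤ CC b * Y' ^ cc b ∧ (1 ≤ b → b ≤ B →
        ∀ p : ℕ, p.Prime → ¬ p ∣ I → Good (𝓞 K) w (κ * (b - 1) + c₀) b (red p x)) := by
      intro b
      by_cases hb : 1 ≤ b ∧ b ≤ B
      · obtain ⟨I, h1, h2, h3⟩ :=
          hGM b Y' hY1 L x hadm'.deg hadm'.size (hadm'.good b hb.1 hb.2)
        exact ⟨I, h1, h2, fun _ _ => h3⟩
      · refine ⟨1, one_ne_zero, ?_, fun h1 h2 => absurd ⟨h1, h2⟩ hb⟩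
        have h1 : (1 : ℝ) ≤ Y' ^ cc b := one_le_pow₀ hY1
        have h2 := hCC b
        push_cast
        nlinarith
    choose I hI0 hI1 hI2 using hI
    obtain ⟨p, hpP, hpI⟩ := hPI ((discr L).natAbs * ∏ b ∈ Finset.Icc 1 B, I b)
      (mul_ne_zero (by simpa using discr_ne_zero L)
        (Finset.prod_ne_zero_iff.2 fun b _ => hI0 b)) (by
        push_cast
        rw [pow_add, ← Finset.prod_pow_eq_pow_sum]
        have h1 : |((discr L : ℤ) : ℝ)| ≤ C₁ * Y' ^ c₁ := hadm'.disc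
        have h2 : ∏ b ∈ Finset.Icc 1 B, (I b : ℝ) ≤
            (∏ b ∈ Finset.Icc 1 B, CC b) * ∏ b ∈ Finset.Icc 1 B, Y' ^ cc b := by
          rw [← Finset.prod_mul_distrib]
          exact Finset.prod_le_prod (fun _ _ => Nat.cast_nonneg _) fun b _ => hI1 b
        calc (((discr L).natAbs : ℕ) : ℝ) * ∏ b ∈ Finset.Icc 1 B, (I b : ℝ)
            ≤ (C₁ * Y' ^ c₁) * ((∏ b ∈ Finset.Icc 1 B, CC b) *
              ∏ b ∈ Finset.Icc 1 B, Y' ^ cc b) := by
              apply mul_le_mul _ h2 (Finset.prod_nonneg fun _ _ => Nat.cast_nonneg _)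
                (by positivity)
              rw [Nat.cast_natAbs, Int.cast_abs]
              exact h1
          _ = _ := by ring)
    obtain ⟨hp, hp1, hp2⟩ := hP p hpP
    have hpd : ¬ (p : ℤ) ∣ discr L := by
      intro h1
      apply hpI
      exact Dvd.dvd.mul_right (Int.natCast_dvd.1 h1) _
    have hpb : ∀ b, 1 ≤ b → b ≤ B → ¬ p ∣ I b := by
      intro b hb1 hb2 h1
      apply hpI
      exact Dvd.dvd.mul_left (h1.trans (Finset.dvd_prod_of_mem I (Finset.mem_Icc.2 ⟨hb1, hb2⟩))) _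
    simp only [Set.mem_iUnion]
    refine ⟨p, hpP, Kr (𝓞 K) (red p x), ?_, L, hL, x, hx, hadm', hpd, fun b hb1 hb2 =>
      hI2 b hb1 hb2 p hp (hpb b hb1 hb2), rfl⟩
    rw [dif_pos hp, Set.Finite.mem_toFinset]
    obtain ⟨hq1, hq2, hq3⟩ := quot_char L p hp
    refine ⟨𝓞 L ⧸ Ideal.span {((p : ℕ) : 𝓞 L)}, inferInstance, inferInstance, red p x,
      reduced_mod L p hp hpd, hq1, hq2, ?_, rfl⟩
    rw [hq3, ← hadm'.deg, finrank_mul_finrank]
  have hcount := CO.ncard_biUnion_le P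
    (fun p => ⋃ J ∈ (if hp : p.Prime then (hCL p hp).1.toFinset else ∅),
      {z | CO.Wit K n κ c₀ B w c₁ C₁ Y' p J z})
    (⌊(Ccl * C' ^ (finrank ℚ K * n * Fintype.card σ)) * Y' ^ e⌋₊ * (M * n)) (by
      intro p hpP
      obtain ⟨hp, hp1, hp2⟩ := hP p hpP
      have h1 := CO.ncard_biUnion_le (if hp : p.Prime then (hCL p hp).1.toFinset else ∅)
        (fun J => {z | CO.Wit K n κ c₀ B w c₁ C₁ Y' p J z}) (M * n)
        (fun J _ => CO.wit_count hB hM hKC hY1 hY2 p hp hp1 J)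
      refine ⟨h1.1, h1.2.trans (Nat.mul_le_mul_right _ ?_)⟩
      rw [dif_pos hp, ← Set.ncard_eq_toFinset_card _ (hCL p hp).1]
      apply Nat.le_floor
      have h2 : ((Set.ncard {J : Ideal (MvPolynomial σ (𝓞 K)) | ∃ (A : Type) (_ : CommRing A)
        (_ : Algebra (𝓞 K) A) (x : σ → A), IsReduced A ∧ Finite A ∧ CharP A p ∧
          Nat.card A = p ^ (finrank ℚ K * n) ∧ J = Kr (𝓞 K) x} : ℕ) : ℝ) ≤
          Ccl * (p : ℝ) ^ (finrank ℚ K * n * Fintype.card σ) := by
        exact_mod_cast (hCL p hp).2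
      refine h2.trans ?_
      have h3 : (p : ℝ) ^ (finrank ℚ K * n * Fintype.card σ) ≤
          (C' * Y' ^ (((κ * m + 1 : ℕ) : ℝ) / m)) ^ (finrank ℚ K * n * Fintype.card σ) :=
        pow_le_pow_left₀ (Nat.cast_nonneg _) hp2 _
      rw [mul_pow, ← Real.rpow_natCast (Y' ^ _), ← Real.rpow_mul (by linarith)] at h3
      have h4 : (((κ * m + 1 : ℕ) : ℝ) / m) * ((finrank ℚ K * n * Fintype.card σ : ℕ) : ℝ) = e := by
        rw [he]
        have : (m : ℝ) ≠ 0 := by positivity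
        push_cast
        field_simp
      rw [h4] at h3
      calc (Ccl : ℝ) * (p : ℝ) ^ (finrank ℚ K * n * Fintype.card σ)
          ≤ Ccl * (C' ^ (finrank ℚ K * n * Fintype.card σ) * Y' ^ e) :=
            mul_le_mul_of_nonneg_left h3 (Nat.cast_nonneg _)
        _ = _ := by ring)
  refine ⟨hcount.1.subset hsub, ?_⟩
  have h1 : T.ncard ≤ P.card * (⌊(Ccl * C' ^ (finrank ℚ K * n * Fintype.card σ)) * Y' ^ e⌋₊ *
      (M * n)) := (Set.ncard_le_ncard hsub hcount.1).trans hcount.2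
  have h2 : (T.ncard : ℝ) ≤ h * ((Ccl * C' ^ (finrank ℚ K * n * Fintype.card σ)) * Y' ^ e *
      (M * n)) := by
    have h3 : (T.ncard : ℝ) ≤ P.card * (⌊(Ccl * C' ^ (finrank ℚ K * n * Fintype.card σ)) *
      Y' ^ e⌋₊ * (M * n)) := by exact_mod_cast h1
    refine h3.trans ?_
    apply mul_le_mul (by exact_mod_cast hPh) _ (by positivity) (by positivity)
    apply mul_le_mul_of_nonneg_right _ (by positivity)
    exact Nat.floor_le (by positivity)
  have h3 : Y' ^ e = (|C₂| + 2) ^ e * Y ^ e := by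
    rw [hY', Real.mul_rpow (by positivity) (by linarith)]
  rw [h3] at h2
  refine h2.trans ?_
  have h4 : 0 ≤ (|C₂| + 2) ^ e * Y ^ e := by positivity
  nlinarith

end Pool.Agent.UpLog
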