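import Mathlib
import Pool.Agent.UpLog.Defs

set_option autoImplicit false

/-!
# Covering the embeddings of a field by independent sets
-/

namespace Pool.Agent.UpLog

open NumberField Module MvPolynomial

namespace CV

section average

variable {E : Type} [Fintype E] [DecidableEq E]

/-- the number of elements of a transitive finite set of permutations closed under products that
send `x` to `y` does not depend on `y` -/
lemma card_fibre (H : Finset (Equiv.Perm E)) (hmul : ∀ a ∈ H, ∀ b ∈ H, a * b ∈ H)
    (htrans : ∀ x y, ∃ h ∈ H, h x = y) (x y : E) :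
    Fintype.card E * (H.filter fun h => h x = y).card = H.card := by
  have hle : ∀ y z : E, (H.filter fun h => h x = y).card ≤ (H.filter fun h => h x = z).card := by
    intro y z
    obtain ⟨g, hg, hgy⟩ := htrans y z
    apply Finset.card_le_card_of_injOn (fun h => g * h)
    · intro h hh
      simp only [Finset.coe_filter, Set.mem_ofPred_eq] at hh ⊢
      exact ⟨hmul g hg h hh.1, by rw [Equiv.Perm.mul_apply, hh.2, hgy]⟩
    · intro a _ b _ hab
      exact mul_left_cancel hab
  have hsum : ∑ z : E, (H.filter fun h => h x = z).card = H.card :=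
    (Finset.card_eq_sum_card_fiberwise (f := fun h : Equiv.Perm E => h x) (s := H)
      (t := Finset.univ) (fun _ _ => Finset.mem_coe.2 (Finset.mem_univ _))).symm
  rw [← hsum, Finset.sum_congr rfl (fun z _ => le_antisymm (hle z y) (hle y z)), Finset.sum_const,
    Finset.card_univ, smul_eq_mul]

lemma average (H : Finset (Equiv.Perm E)) (hne : H.Nonempty)
    (hmul : ∀ a ∈ H, ∀ b ∈ H, a * b ∈ H) (htrans : ∀ x y, ∃ h ∈ H, h x = y) (B U : Finset E) :
    ∃ h ∈ H, B.card * U.card ≤ Fintype.card E * (U.filter fun x => ∃ y ∈ B, h y = x).card := by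
  by_contra hcon
  push Not at hcon
  have h1 : ∑ h ∈ H, Fintype.card E * (U.filter fun x => ∃ y ∈ B, h y = x).card <
      ∑ _h ∈ H, B.card * U.card := Finset.sum_lt_sum_of_nonempty hne hcon
  have h2 : ∀ h : Equiv.Perm E, (U.filter fun x => ∃ y ∈ B, h y = x).card =
      ∑ y ∈ B, ∑ x ∈ U, if h y = x then 1 else 0 := by
    intro h
    rw [Finset.card_filter, Finset.sum_comm]
    apply Finset.sum_congr rfl
    intro x _
    by_cases hx : ∃ y ∈ B, h y = x
    · rw [if_pos hx]
      obtain ⟨y, hy, hyx⟩ := hx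
      rw [Finset.sum_eq_single y]
      · rw [if_pos hyx]
      · intro z _ hz
        rw [if_neg]
        intro hzx
        exact hz (h.injective (hzx.trans hyx.symm))
      · intro hy'
        exact absurd hy hy'
    · rw [if_neg hx]
      symm
      apply Finset.sum_eq_zero
      intro y hy
      rw [if_neg]
      intro hyx
      exact hx ⟨y, hy, hyx⟩
  have h3 : ∑ h ∈ H, Fintype.card E * (U.filter fun x => ∃ y ∈ B, h y = x).card =
      ∑ _h ∈ H, B.card * U.card := by
    rw [← Finset.mul_sum]
    simp_rw [h2]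
    rw [Finset.sum_comm]
    have h4 : ∀ y ∈ B, ∑ h ∈ H, ∑ x ∈ U, (if h y = x then 1 else 0) =
        ∑ x ∈ U, (H.filter fun h => h y = x).card := by
      intro y _
      rw [Finset.sum_comm]
      apply Finset.sum_congr rfl
      intro x _
      rw [Finset.card_filter]
    rw [Finset.sum_congr rfl h4, Finset.mul_sum]
    simp_rw [Finset.mul_sum, card_fibre H hmul htrans]
    simp only [Finset.sum_const, smul_eq_mul]
    ring
  rw [h3] at h1
  exact lt_irrefl _ h1

lemma cover (H : Finset (Equiv.Perm E)) (hne : H.Nonempty)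
    (hmul : ∀ a ∈ H, ∀ b ∈ H, a * b ∈ H) (htrans : ∀ x y, ∃ h ∈ H, h x = y) (B : Finset E)
    (hB : B.card ≤ Fintype.card E) (hE : 0 < Fintype.card E) (q : ℕ) :
    ∃ g : Fin q → Equiv.Perm E, (∀ a, g a ∈ H) ∧
      ((Finset.univ.filter fun x : E => ∀ a, ¬ ∃ y ∈ B, g a y = x).card : ℝ) ≤
        Fintype.card E * (1 - B.card / Fintype.card E) ^ q := by
  induction q with
  | zero =>
    refine ⟨Fin.elim0, fun a => a.elim0, ?_⟩
    rw [pow_zero, mul_one]
    exact_mod_cast Finset.card_le_univ _
  | succ q ih =>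
    obtain ⟨g, hgH, hg⟩ := ih
    set U := Finset.univ.filter fun x : E => ∀ a, ¬ ∃ y ∈ B, g a y = x with hU
    obtain ⟨h, hh, hhc⟩ := average H hne hmul htrans B U
    refine ⟨Fin.cons h g, ?_, ?_⟩
    · intro a
      refine Fin.cases ?_ ?_ a
      · simpa using hh
      · intro i
        simpa using hgH i
    · have h1 : (Finset.univ.filter fun x : E => ∀ a,
          ¬ ∃ y ∈ B, (Fin.cons h g : Fin (q + 1) → Equiv.Perm E) a y = x) =
          U.filter fun x => ¬ ∃ y ∈ B, h y = x := by
        ext x
        simp only [Finset.mem_filter, Finset.mem_univ, true_and, hU, Fin.forall_fin_succ,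
          Fin.cons_zero, Fin.cons_succ]
        tauto
      have h2 : (U.filter fun x => ∃ y ∈ B, h y = x).card +
          (U.filter fun x => ¬ ∃ y ∈ B, h y = x).card = U.card :=
        Finset.card_filter_add_card_filter_not _
      rw [h1]
      have hE' : (0 : ℝ) < Fintype.card E := by exact_mod_cast hE
      have h3 : ((U.filter fun x => ¬ ∃ y ∈ B, h y = x).card : ℝ) ≤
          U.card * (1 - B.card / Fintype.card E) := by
        have h4 : (B.card : ℝ) * U.card ≤
            Fintype.card E * (U.filter fun x => ∃ y ∈ B, h y = x).card := by exact_mod_cast hhc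
        have h5 : ((U.filter fun x => ∃ y ∈ B, h y = x).card : ℝ) +
          (U.filter fun x => ¬ ∃ y ∈ B, h y = x).card = U.card := by exact_mod_cast h2
        have h6 : (U.card : ℝ) * (B.card / Fintype.card E) ≤
            (U.filter fun x => ∃ y ∈ B, h y = x).card := by
          rw [mul_div_assoc', div_le_iff₀ hE']
          nlinarith
        nlinarith
      refine h3.trans ?_
      have h7 : (0 : ℝ) ≤ 1 - B.card / Fintype.card E := by
        rw [sub_nonneg, div_le_one hE']
        exact_mod_cast hB
      rw [pow_succ, ← mul_assoc]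
      exact mul_le_mul_of_nonneg_right hg h7

end average

section field

variable {K L : Type} [Field K] [CharZero K] [Field L] [Algebra K L] [FiniteDimensional K L]

/-- the values of `c ↦ (∑ c_i φ(v_i))_φ` on `S` are arbitrary -/
def Sj {s : ℕ} (v : Fin s → L) (S : Set (L →ₐ[K] AlgebraicClosure K)) : Prop :=
  ∀ u : (L →ₐ[K] AlgebraicClosure K) → AlgebraicClosure K,
    ∃ c : Fin s → AlgebraicClosure K, ∀ φ ∈ S, ∑ i, c i * φ (v i) = u φ

lemma Sj.mono {s : ℕ} {v : Fin s → L} {S T : Set (L →ₐ[K] AlgebraicClosure K)} (h : Sj v T)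
    (hST : S ⊆ T) : Sj v S := by
  intro u
  obtain ⟨c, hc⟩ := h u
  exact ⟨c, fun φ hφ => hc φ (hST hφ)⟩

lemma span_emb : Submodule.span (AlgebraicClosure K)
    (Set.range (AlgHom.toLinearMap : (L →ₐ[K] AlgebraicClosure K) →
      (L →ₗ[K] AlgebraicClosure K))) = ⊤ := by
  have h1 := linearIndependent_algHom_toLinearMap K L (AlgebraicClosure K)
  apply h1.span_eq_top_of_card_eq_finrank'
  rw [AlgHom.card, Module.finrank_linearMap K (AlgebraicClosure K) L (AlgebraicClosure K),
    Module.finrank_self, mul_one]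

lemma col_indep {s : ℕ} (v : Fin s → L) (hv : LinearIndependent K v)
    (c : Fin s → AlgebraicClosure K)
    (h : ∀ φ : L →ₐ[K] AlgebraicClosure K, ∑ i, c i * φ (v i) = 0) : c = 0 := by
  classical
  funext i₀
  let g : Submodule.span K (Set.range v) →ₗ[K] AlgebraicClosure K :=
    (Basis.span hv).constr K (fun i => if i = i₀ then (1 : AlgebraicClosure K) else 0)
  obtain ⟨lam, hlam⟩ := LinearMap.exists_extend g
  have hlam' : ∀ i, lam (v i) = if i = i₀ then 1 else 0 := by
    intro i
    have h1 : ((Basis.span hv i : Submodule.span K (Set.range v)) : L) = v i := by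
      rw [Basis.span_apply]
    rw [← h1]
    have h2 := LinearMap.congr_fun hlam (Basis.span hv i)
    simp only [LinearMap.comp_apply, Submodule.subtype_apply] at h2
    rw [h2]
    exact Basis.constr_basis _ _ _ _
  let Ψ : (L →ₗ[K] AlgebraicClosure K) →ₗ[AlgebraicClosure K] AlgebraicClosure K :=
    { toFun := fun f => ∑ i, c i * f (v i)
      map_add' := by
        intro f g
        simp only [LinearMap.add_apply, mul_add, Finset.sum_add_distrib]
      map_smul' := by
        intro a f
        simp only [LinearMap.smul_apply, smul_eq_mul, RingHom.id_apply, Finset.mul_sum]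
        apply Finset.sum_congr rfl
        intro i _
        ring }
  have h3 : Submodule.span (AlgebraicClosure K)
      (Set.range (AlgHom.toLinearMap : (L →ₐ[K] AlgebraicClosure K) →
        (L →ₗ[K] AlgebraicClosure K))) ≤ LinearMap.ker Ψ := by
    rw [Submodule.span_le]
    rintro _ ⟨φ, rfl⟩
    exact h φ
  rw [span_emb] at h3
  have h4 : Ψ lam = 0 := h3 Submodule.mem_top
  have h5 : Ψ lam = c i₀ := by
    show ∑ i, c i * lam (v i) = c i₀
    simp [hlam']
  rw [← h5, h4]
  rfl

lemma exists_base {s : ℕ} (v : Fin s → L) (hv : LinearIndependent K v) :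
    ∃ B : Finset (L →ₐ[K] AlgebraicClosure K), B.card = s ∧
      Sj v (B : Set (L →ₐ[K] AlgebraicClosure K)) := by
  classical
  let r : (L →ₐ[K] AlgebraicClosure K) → (Fin s → AlgebraicClosure K) := fun φ i => φ (v i)
  have hdot : ∀ (f : (Fin s → AlgebraicClosure K) →ₗ[AlgebraicClosure K] AlgebraicClosure K)
      (x : Fin s → AlgebraicClosure K), f x = ∑ i, f (Pi.single i 1) * x i := by
    intro f x
    conv_lhs => rw [← Finset.univ_sum_single x]
    rw [map_sum]
    apply Finset.sum_congr rfl
    intro i _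
    have : (Pi.single i (x i) : Fin s → AlgebraicClosure K) = x i • Pi.single i 1 := by
      rw [← Pi.single_smul', smul_eq_mul, mul_one]
    rw [this, map_smul, smul_eq_mul, mul_comm]
  have htop : Submodule.span (AlgebraicClosure K) (Set.range r) = ⊤ := by
    by_contra hne
    obtain ⟨f, hf0, hf⟩ := Submodule.exists_le_ker_of_lt_top _ (lt_top_iff_ne_top.2 hne)
    apply hf0
    have hc := col_indep v hv (fun i => f (Pi.single i 1)) (by
      intro φ
      have h1 : f (r φ) = 0 := hf (Submodule.subset_span ⟨φ, rfl⟩)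
      rw [hdot f (r φ)] at h1
      exact h1)
    apply LinearMap.ext
    intro x
    rw [hdot f x]
    simp only [LinearMap.zero_apply]
    apply Finset.sum_eq_zero
    intro i _
    have := congrFun hc i
    simp only [Pi.zero_apply] at this
    rw [this, zero_mul]
  obtain ⟨κ, a, ha, hspan, hli⟩ := exists_linearIndependent' (AlgebraicClosure K) r
  have hκ : Finite κ := Finite.of_injective a ha
  have : Fintype κ := Fintype.ofFinite κ
  rw [htop] at hspan
  let b : Basis κ (AlgebraicClosure K) (Fin s → AlgebraicClosure K) := Basis.mk hli hspan.ge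
  have hcard : Fintype.card κ = s := by
    have h1 := Module.finrank_eq_card_basis b
    rw [Module.finrank_fin_fun] at h1
    exact h1.symm
  refine ⟨Finset.univ.map ⟨a, ha⟩, ?_, ?_⟩
  · rw [Finset.card_map, Finset.card_univ, hcard]
  · intro u
    let f : (Fin s → AlgebraicClosure K) →ₗ[AlgebraicClosure K] AlgebraicClosure K :=
      b.constr (AlgebraicClosure K) (fun k => u (a k))
    refine ⟨fun i => f (Pi.single i 1), ?_⟩
    intro φ hφ
    simp only [Finset.coe_map, Function.Embedding.coeFn_mk, Finset.coe_univ, Set.image_univ,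
      Set.mem_range] at hφ
    obtain ⟨k, rfl⟩ := hφ
    have h1 := hdot f (r (a k))
    have h2 : f (r (a k)) = u (a k) := by
      have h3 : r (a k) = b k := by
        rw [Basis.mk_apply]; rfl
      rw [h3]
      exact Basis.constr_basis _ _ _ _
    rw [← h2, h1]

lemma Sj.translate {s : ℕ} {v : Fin s → L} {S : Set (L →ₐ[K] AlgebraicClosure K)} (h : Sj v S)
    (g : AlgebraicClosure K ≃ₐ[K] AlgebraicClosure K) :
    Sj v {ψ | ∃ φ ∈ S, (g : AlgebraicClosure K →ₐ[K] AlgebraicClosure K).comp φ = ψ} := by
  intro u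
  obtain ⟨c, hc⟩ := h (fun φ => g.symm (u ((g : AlgebraicClosure K →ₐ[K]
    AlgebraicClosure K).comp φ)))
  refine ⟨fun i => g (c i), ?_⟩
  rintro _ ⟨φ, hφ, rfl⟩
  have h1 := congrArg g (hc φ hφ)
  rw [map_sum, AlgEquiv.apply_symm_apply] at h1
  rw [← h1]
  apply Finset.sum_congr rfl
  intro i _
  rw [map_mul]
  rfl

lemma transitive (φ ψ : L →ₐ[K] AlgebraicClosure K) :
    ∃ g : AlgebraicClosure K ≃ₐ[K] AlgebraicClosure K,
      (g : AlgebraicClosure K →ₐ[K] AlgebraicClosure K).comp φ = ψ := by
  let _ : Algebra L (AlgebraicClosure K) := φ.toRingHom.toAlgebra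
  have _ : IsScalarTower K L (AlgebraicClosure K) := IsScalarTower.of_algebraMap_eq (fun x => by
    show _ = φ (algebraMap K L x)
    rw [AlgHom.commutes])
  have _ : Normal K (AlgebraicClosure K) := inferInstance
  let f : AlgebraicClosure K →ₐ[K] AlgebraicClosure K := ψ.liftNormal (AlgebraicClosure K)
  refine ⟨AlgEquiv.ofBijective f (Algebra.IsAlgebraic.algHom_bijective f), ?_⟩
  ext x
  have := AlgHom.liftNormal_commutes ψ (AlgebraicClosure K) x
  exact this

end field

end CV

theorem covering {K L : Type} [Field K] [CharZero K] [Field L] [Algebra K L]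
    [FiniteDimensional K L] (s q : ℕ) (v : Fin s → L) (hv : LinearIndependent K v)
    (hq : (finrank K L : ℝ) * (1 - s / finrank K L) ^ q < 1) :
    ∃ l : (L →ₐ[K] AlgebraicClosure K) → Fin q, ∀ (a : Fin q)
      (u : (L →ₐ[K] AlgebraicClosure K) → AlgebraicClosure K),
      ∃ c : Fin s → AlgebraicClosure K, ∀ φ, l φ = a → ∑ i, c i * φ (v i) = u φ := by
  classical
  obtain ⟨B, hBs, hBS⟩ := CV.exists_base v hv
  have hcardE : Fintype.card (L →ₐ[K] AlgebraicClosure K) = finrank K L := AlgHom.card K L _
  have hpos : 0 < finrank K L := Module.finrank_pos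
  let H : Finset (Equiv.Perm (L →ₐ[K] AlgebraicClosure K)) :=
    Finset.univ.filter fun h => ∃ g : AlgebraicClosure K ≃ₐ[K] AlgebraicClosure K,
      ∀ φ, h φ = (g : AlgebraicClosure K →ₐ[K] AlgebraicClosure K).comp φ
  have hne : H.Nonempty := by
    refine ⟨1, ?_⟩
    simp only [H, Finset.mem_filter, Finset.mem_univ, true_and]
    refine ⟨AlgEquiv.refl, ?_⟩
    intro φ
    ext x
    rfl
  have hmul : ∀ a ∈ H, ∀ b ∈ H, a * b ∈ H := by
    intro a ha b hb
    simp only [H, Finset.mem_filter, Finset.mem_univ, true_and] at ha hb ⊢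
    obtain ⟨ga, hga⟩ := ha
    obtain ⟨gb, hgb⟩ := hb
    refine ⟨gb.trans ga, ?_⟩
    intro φ
    rw [Equiv.Perm.mul_apply, hgb, hga]
    ext x
    rfl
  have htrans : ∀ x y : L →ₐ[K] AlgebraicClosure K, ∃ h ∈ H, h x = y := by
    intro x y
    obtain ⟨g, hg⟩ := CV.transitive x y
    let h : Equiv.Perm (L →ₐ[K] AlgebraicClosure K) :=
      { toFun := fun φ => (g : AlgebraicClosure K →ₐ[K] AlgebraicClosure K).comp φ
        invFun := fun φ => (g.symm : AlgebraicClosure K →ₐ[K] AlgebraicClosure K).comp φ
        left_inv := by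
          intro φ
          ext x
          simp
        right_inv := by
          intro φ
          ext x
          simp }
    refine ⟨h, ?_, hg⟩
    simp only [H, Finset.mem_filter, Finset.mem_univ, true_and]
    exact ⟨g, fun φ => rfl⟩
  have hB : B.card ≤ Fintype.card (L →ₐ[K] AlgebraicClosure K) := Finset.card_le_univ _
  obtain ⟨g, hgH, hg⟩ := CV.cover H hne hmul htrans B hB (by rw [hcardE]; exact hpos) q
  rw [hcardE, hBs] at hg
  have hempty : (Finset.univ.filter fun x : L →ₐ[K] AlgebraicClosure K =>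
      ∀ a, ¬ ∃ y ∈ B, g a y = x).card = 0 := by
    have h1 := lt_of_le_of_lt hg hq
    exact Nat.lt_one_iff.1 (by exact_mod_cast h1)
  rw [Finset.card_eq_zero, Finset.filter_eq_empty_iff] at hempty
  have hex : ∀ x : L →ₐ[K] AlgebraicClosure K, ∃ a, ∃ y ∈ B, g a y = x := by
    intro x
    have := hempty (Finset.mem_univ x)
    push Not at this
    exact this
  choose l hl using hex
  refine ⟨l, ?_⟩
  intro a
  have hga := hgH a
  simp only [H, Finset.mem_filter, Finset.mem_univ, true_and] at hga
  obtain ⟨g', hg'⟩ := hga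
  have h2 := hBS.translate g'
  intro u
  obtain ⟨c, hc⟩ := h2 u
  refine ⟨c, ?_⟩
  intro φ hφ
  apply hc φ
  obtain ⟨y, hy, hyx⟩ := hl φ
  refine ⟨y, hy, ?_⟩
  rw [← hg' y, ← hφ]
  exact hyx

end Pool.Agent.UpLog
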