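import Mathlib
import Pool.Agent.UpLog.Defs

set_option autoImplicit false
set_option linter.unusedSectionVars false

/-!
# UpLog, module UN: configurations built from labels
-/

namespace Pool.Agent.UpLog

open Module MvPolynomial

namespace UN

section basics

variable {σ : Type} [Fintype σ] {k : Type*} [CommRing k]

theorem wdeg_add (w : σ → ℕ) (a b : σ →₀ ℕ) : wdeg w (a + b) = wdeg w a + wdeg w b := by
  simp [wdeg, mul_add, Finset.sum_add_distrib]

theorem WLe_zero (w : σ → ℕ) (d : ℕ) : WLe w d (0 : MvPolynomial σ k) := by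
  intro α hα
  simp at hα

theorem WLe_add {w : σ → ℕ} {d : ℕ} {f g : MvPolynomial σ k} (hf : WLe w d f) (hg : WLe w d g) :
    WLe w d (f + g) := by
  classical
  intro α hα
  rcases Finset.mem_union.1 (MvPolynomial.support_add hα) with h | h
  · exact hf α h
  · exact hg α h

theorem WLe_sum {w : σ → ℕ} {d : ℕ} {ι : Type*} (s : Finset ι) (f : ι → MvPolynomial σ k)
    (hf : ∀ i ∈ s, WLe w d (f i)) : WLe w d (∑ i ∈ s, f i) := by
  classical
  induction s using Finset.induction_on with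
  | empty => simpa using WLe_zero w d
  | insert a s ha ih =>
    rw [Finset.sum_insert ha]
    exact WLe_add (hf a (Finset.mem_insert_self a s))
      (ih fun i hi => hf i (Finset.mem_insert_of_mem hi))

theorem WLe_mono {w : σ → ℕ} {d e : ℕ} (h : d ≤ e) {f : MvPolynomial σ k} (hf : WLe w d f) :
    WLe w e f := fun α hα => (hf α hα).trans h

theorem WLe_mul {w : σ → ℕ} {d e : ℕ} {f g : MvPolynomial σ k} (hf : WLe w d f)
    (hg : WLe w e g) : WLe w (d + e) (f * g) := by
  classical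
  intro α hα
  obtain ⟨a, ha, b, hb, rfl⟩ := Finset.mem_add.1 (MvPolynomial.support_mul f g hα)
  rw [wdeg_add]
  exact add_le_add (hf a ha) (hg b hb)

theorem WLe_one (w : σ → ℕ) : WLe w 0 (1 : MvPolynomial σ k) := by
  classical
  intro α hα
  have : α = 0 := by
    by_contra h
    have := MvPolynomial.mem_support_iff.1 hα
    apply this
    rw [MvPolynomial.coeff_one, if_neg (Ne.symm h)]
  subst this
  simp [wdeg]

theorem WLe_prod {w : σ → ℕ} {ι : Type*} (s : Finset ι) (d : ι → ℕ) (f : ι → MvPolynomial σ k)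
    (hf : ∀ i ∈ s, WLe w (d i) (f i)) : WLe w (∑ i ∈ s, d i) (∏ i ∈ s, f i) := by
  classical
  induction s using Finset.induction_on with
  | empty => simpa using WLe_one w
  | insert a s ha ih =>
    rw [Finset.prod_insert ha, Finset.sum_insert ha]
    exact WLe_mul (hf a (Finset.mem_insert_self a s))
      (ih fun i hi => hf i (Finset.mem_insert_of_mem hi))

theorem WLe_pow {w : σ → ℕ} {d : ℕ} {f : MvPolynomial σ k} (hf : WLe w d f) (n : ℕ) :
    WLe w (n * d) (f ^ n) := by
  induction n with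
  | zero => simpa using WLe_one w
  | succ n ih =>
    rw [pow_succ, Nat.succ_mul]
    exact WLe_mul ih hf

/-- a linear factor -/
theorem WLe_lin (w : σ → ℕ) (j : σ) (a : k) : WLe w (w j) (X j - C a : MvPolynomial σ k) := by
  classical
  intro α hα
  have h1 := MvPolynomial.mem_support_iff.1 hα
  rw [MvPolynomial.coeff_sub, MvPolynomial.coeff_X, MvPolynomial.coeff_C] at h1
  by_cases h2 : Finsupp.single j 1 = α
  · subst h2
    simp [wdeg, Finsupp.single_apply]
  · by_cases h3 : 0 = α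
    · subst h3
      simp [wdeg]
    · simp [h2, h3] at h1

end basics

section sumtypes

variable {σ τ : Type} [Fintype σ] [Fintype τ] {k : Type*} [CommRing k]

/-- the first component of an exponent vector -/
noncomputable def fstF (β : (τ ⊕ σ) →₀ ℕ) : τ →₀ ℕ :=
  Finsupp.equivFunOnFinite.symm (fun j => β (Sum.inl j))

/-- the second component of an exponent vector -/
noncomputable def sndF (β : (τ ⊕ σ) →₀ ℕ) : σ →₀ ℕ :=
  Finsupp.equivFunOnFinite.symm (fun j => β (Sum.inr j))

/-- the exponent vector with given components -/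
noncomputable def mkF (μ : τ →₀ ℕ) (ν : σ →₀ ℕ) : (τ ⊕ σ) →₀ ℕ :=
  Finsupp.equivFunOnFinite.symm (Sum.elim μ ν)

@[simp] theorem fstF_apply (β : (τ ⊕ σ) →₀ ℕ) (j : τ) : fstF β j = β (Sum.inl j) := rfl

@[simp] theorem sndF_apply (β : (τ ⊕ σ) →₀ ℕ) (j : σ) : sndF β j = β (Sum.inr j) := rfl

@[simp] theorem mkF_inl (μ : τ →₀ ℕ) (ν : σ →₀ ℕ) (j : τ) : mkF μ ν (Sum.inl j) = μ j := rfl

@[simp] theorem mkF_inr (μ : τ →₀ ℕ) (ν : σ →₀ ℕ) (j : σ) : mkF μ ν (Sum.inr j) = ν j := rfl

theorem mkF_fst_snd (β : (τ ⊕ σ) →₀ ℕ) : mkF (fstF β) (sndF β) = β := by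
  ext j
  rcases j with j | j <;> simp

theorem mapDomain_add_mapDomain (μ : τ →₀ ℕ) (ν : σ →₀ ℕ) :
    μ.mapDomain (Sum.inl : τ → τ ⊕ σ) + ν.mapDomain (Sum.inr : σ → τ ⊕ σ) = mkF μ ν := by
  ext j
  rcases j with j | j
  · rw [Finsupp.add_apply, Finsupp.mapDomain_apply Sum.inl_injective,
      Finsupp.mapDomain_of_notMem_range _ _ (by simp), add_zero, mkF_inl]
  · rw [Finsupp.add_apply, Finsupp.mapDomain_apply Sum.inr_injective,
      Finsupp.mapDomain_of_notMem_range _ _ (by simp), zero_add, mkF_inr]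

theorem mkF_eq_iff (μ : τ →₀ ℕ) (ν : σ →₀ ℕ) (β : (τ ⊕ σ) →₀ ℕ) :
    mkF μ ν = β ↔ μ = fstF β ∧ ν = sndF β := by
  constructor
  · rintro rfl
    exact ⟨by ext j; simp, by ext j; simp⟩
  · rintro ⟨rfl, rfl⟩
    exact mkF_fst_snd β

theorem degree_eq (β : (τ ⊕ σ) →₀ ℕ) : β.degree = (fstF β).degree + (sndF β).degree := by
  rw [Finsupp.degree_eq_sum, Finsupp.degree_eq_sum, Finsupp.degree_eq_sum, Fintype.sum_sum_type]
  rfl

theorem coeff_rename_mul (A : MvPolynomial τ k) (B : MvPolynomial σ k) (β : (τ ⊕ σ) →₀ ℕ) :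
    coeff β (rename Sum.inl A * rename Sum.inr B) = coeff (fstF β) A * coeff (sndF β) B := by
  classical
  induction A using MvPolynomial.induction_on' with
  | monomial μ a =>
    induction B using MvPolynomial.induction_on' with
    | monomial ν c =>
      rw [rename_monomial, rename_monomial, monomial_mul, mapDomain_add_mapDomain,
        coeff_monomial, coeff_monomial, coeff_monomial]
      simp only [mkF_eq_iff]
      by_cases h1 : μ = fstF β <;> by_cases h2 : ν = sndF β <;> simp [h1, h2]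
    | add p q hp hq =>
      rw [map_add, mul_add, coeff_add, hp, hq, coeff_add, mul_add]
  | add p q hp hq =>
    rw [map_add, add_mul, coeff_add, hp, hq, coeff_add, add_mul]

theorem wdeg_mapDomain {σ' : Type} [Fintype σ'] (e : σ → σ') (w : σ → ℕ) (w' : σ' → ℕ)
    (hw : ∀ j, w' (e j) = w j) (μ : σ →₀ ℕ) : wdeg w' (μ.mapDomain e) = wdeg w μ := by
  classical
  induction μ using Finsupp.induction_linear with
  | zero => simp [wdeg]
  | add f g hf hg => rw [Finsupp.mapDomain_add, wdeg_add, wdeg_add, hf, hg]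
  | single j m =>
    rw [Finsupp.mapDomain_single]
    simp [wdeg, Finsupp.single_apply, hw]

theorem WLe_rename {σ' : Type} [Fintype σ'] (e : σ → σ') (w : σ → ℕ) (w' : σ' → ℕ)
    (hw : ∀ j, w' (e j) = w j) {d : ℕ} {f : MvPolynomial σ k} (hf : WLe w d f) :
    WLe w' d (rename e f) := by
  intro α hα
  obtain ⟨μ, rfl, hμ⟩ := coeff_rename_ne_zero e f α (MvPolynomial.mem_support_iff.1 hα)
  rw [wdeg_mapDomain e w w' hw]
  exact hf μ (MvPolynomial.mem_support_iff.2 hμ)

theorem tay_rename_mul {Ω : Type*} [CommRing Ω] (y : τ → Ω) (z : σ → Ω) (A : MvPolynomial τ Ω)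
    (B : MvPolynomial σ Ω) :
    tay (k := Ω) (Sum.elim y z) (rename Sum.inl A * rename Sum.inr B) =
      rename Sum.inl (tay (k := Ω) y A) * rename Sum.inr (tay (k := Ω) z B) := by
  rw [map_mul]
  congr 1
  · have h : (tay (k := Ω) (Sum.elim y z)).comp (rename (Sum.inl : τ → τ ⊕ σ)) =
        (rename (Sum.inl : τ → τ ⊕ σ)).comp (tay (k := Ω) y) := by
      apply MvPolynomial.algHom_ext
      intro j
      simp [tay]
    exact DFunLike.congr_fun h A
  · have h : (tay (k := Ω) (Sum.elim y z)).comp (rename (Sum.inr : σ → τ ⊕ σ)) =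
        (rename (Sum.inr : σ → τ ⊕ σ)).comp (tay (k := Ω) z) := by
      apply MvPolynomial.algHom_ext
      intro j
      simp [tay]
    exact DFunLike.congr_fun h B

end sumtypes

section labels

variable {τ : Type} [Fintype τ] {Ω : Type*} [Field Ω]

/-- the label polynomial `φ ^ μ * ℓ_v` -/
noncomputable def lab (k : τ → ℕ) (μ : τ →₀ ℕ) (v : τ → ℕ) : MvPolynomial τ Ω :=
  ∏ j, ((∏ a ∈ Finset.range (k j), (X j - C (a : Ω))) ^ (μ j) *
    ∏ a ∈ (Finset.range (k j)).erase (v j), (X j - C (a : Ω)))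

/-- the cofactor of the Taylor expansion of the label polynomial -/
noncomputable def cof (k : τ → ℕ) (l : τ → ℕ) (μ : τ →₀ ℕ) (v : τ → ℕ) : MvPolynomial τ Ω :=
  ∏ j, ((∏ a ∈ (Finset.range (k j)).erase (l j), (C (l j : Ω) + X j - C (a : Ω))) ^ (μ j) *
    ∏ a ∈ (Finset.range (k j)).erase (v j), (C (l j : Ω) + X j - C (a : Ω)))

/-- the leading coefficient -/
noncomputable def cst (Ω : Type*) [Field Ω] (k : τ → ℕ) (l : τ → ℕ) (μ : τ →₀ ℕ) (v : τ → ℕ) : Ω :=
  ∏ j, ((∏ a ∈ (Finset.range (k j)).erase (l j), ((l j : Ω) - (a : Ω))) ^ (μ j) *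
    ∏ a ∈ (Finset.range (k j)).erase (v j), ((l j : Ω) - (a : Ω)))

theorem tay_lab (k : τ → ℕ) (l : τ → ℕ) (hl : ∀ j, l j < k j) (μ : τ →₀ ℕ) (v : τ → ℕ) :
    tay (k := Ω) (fun j => (l j : Ω)) (lab k μ v) = monomial μ 1 * cof k l μ v := by
  classical
  have h1 : (monomial μ (1 : Ω)) = ∏ j, (X j : MvPolynomial τ Ω) ^ μ j := by
    rw [monomial_eq, C_1, one_mul]
    exact Finsupp.prod_fintype _ _ (by simp)
  rw [h1, cof, ← Finset.prod_mul_distrib, lab, map_prod]
  apply Finset.prod_congr rfl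
  intro j _
  have h2 : ∀ a : ℕ, tay (k := Ω) (fun j => (l j : Ω)) (X j - C (a : Ω)) =
      C (l j : Ω) + X j - C (a : Ω) := by
    intro a
    simp [tay]
  rw [map_mul, map_pow, map_prod, map_prod]
  simp only [h2]
  rw [← Finset.mul_prod_erase (Finset.range (k j)) _ (Finset.mem_range.2 (hl j)), mul_pow]
  have h3 : (C (l j : Ω) + X j - C (l j : Ω) : MvPolynomial τ Ω) = X j := by ring
  rw [h3, mul_assoc]

theorem coeff_zero_cof (k : τ → ℕ) (l : τ → ℕ) (μ : τ →₀ ℕ) (v : τ → ℕ) :
    coeff 0 (cof k l μ v : MvPolynomial τ Ω) = cst Ω k l μ v := by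
  rw [← constantCoeff_eq, cof, cst, map_prod]
  apply Finset.prod_congr rfl
  intro j _
  rw [map_mul, map_pow, map_prod, map_prod]
  simp

theorem cst_eq_zero (k : τ → ℕ) (l : τ → ℕ) (hl : ∀ j, l j < k j) (μ : τ →₀ ℕ) (v : τ → ℕ)
    (h : l ≠ v) : cst Ω k l μ v = 0 := by
  classical
  obtain ⟨j, hj⟩ := Function.ne_iff.1 h
  rw [cst]
  apply Finset.prod_eq_zero (Finset.mem_univ j)
  have : ∏ a ∈ (Finset.range (k j)).erase (v j), ((l j : Ω) - (a : Ω)) = 0 :=
    Finset.prod_eq_zero (Finset.mem_erase.2 ⟨hj, Finset.mem_range.2 (hl j)⟩) (by simp)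
  rw [this, mul_zero]

theorem cst_ne_zero [CharZero Ω] (k : τ → ℕ) (l : τ → ℕ) (μ : τ →₀ ℕ) :
    cst Ω k l μ l ≠ 0 := by
  classical
  rw [cst]
  apply Finset.prod_ne_zero_iff.2
  intro j _
  have : ∏ a ∈ (Finset.range (k j)).erase (l j), ((l j : Ω) - (a : Ω)) ≠ 0 := by
    apply Finset.prod_ne_zero_iff.2
    intro a ha
    have h1 := (Finset.mem_erase.1 ha).1
    exact sub_ne_zero.2 (fun h => h1 (Nat.cast_injective h).symm)
  exact mul_ne_zero (pow_ne_zero _ this) this

theorem coeff_tay_lab (k : τ → ℕ) (l : τ → ℕ) (hl : ∀ j, l j < k j) (μ : τ →₀ ℕ) (v : τ → ℕ)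
    (μ' : τ →₀ ℕ) (h : μ'.degree ≤ μ.degree) :
    coeff μ' (tay (k := Ω) (fun j => (l j : Ω)) (lab k μ v)) =
      if μ' = μ then cst Ω k l μ v else 0 := by
  classical
  rw [tay_lab k l hl, coeff_monomial_mul']
  by_cases h1 : μ' = μ
  · subst h1
    simp [coeff_zero_cof]
  · rw [if_neg h1, if_neg]
    intro h2
    apply h1
    have h3 : μ' = μ + (μ' - μ) := by
      ext j
      have := h2 j
      simp only [Finsupp.add_apply, Finsupp.tsub_apply]
      omega
    have h4 : (μ' - μ).degree = 0 := by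
      have h5 : μ'.degree = μ.degree + (μ' - μ).degree := by
        conv_lhs => rw [h3]
        rw [map_add]
      omega
    rw [h3, (Finsupp.degree_eq_zero_iff _).1 h4, add_zero]

theorem WLe_lab (k wt : τ → ℕ) (κ : ℕ) (hκ : ∀ j, wt j * k j ≤ κ) (μ : τ →₀ ℕ) (v : τ → ℕ)
    (hv : ∀ j, v j < k j) :
    WLe wt (κ * μ.degree + ∑ j, wt j * (k j - 1)) (lab k μ v : MvPolynomial τ Ω) := by
  classical
  have h1 : WLe wt (∑ j, (μ j * (∑ a ∈ Finset.range (k j), wt j) +
      ∑ a ∈ (Finset.range (k j)).erase (v j), wt j)) (lab k μ v : MvPolynomial τ Ω) := by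
    apply WLe_prod
    intro j _
    apply WLe_mul
    · apply WLe_pow
      apply WLe_prod
      intro a _
      exact WLe_lin wt j _
    · apply WLe_prod
      intro a _
      exact WLe_lin wt j _
  apply WLe_mono _ h1
  rw [Finset.sum_add_distrib]
  apply add_le_add
  · rw [Finsupp.degree_eq_sum, Finset.mul_sum]
    apply Finset.sum_le_sum
    intro j _
    rw [Finset.sum_const, Finset.card_range, smul_eq_mul]
    calc μ j * (k j * wt j) = (wt j * k j) * μ j := by ring
      _ ≤ κ * μ j := Nat.mul_le_mul_right _ (hκ j)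
  · apply Finset.sum_le_sum
    intro j _
    rw [Finset.sum_const, Finset.card_erase_of_mem (Finset.mem_range.2 (hv j)), Finset.card_range,
      smul_eq_mul, mul_comm]

end labels

section main

variable {Ω : Type} [Field Ω] [CharZero Ω] {ι τ σ : Type} [Finite ι] [Fintype τ] [Fintype σ]

theorem step (k wt : τ → ℕ) (w : σ → ℕ) (κ c' : ℕ) (hκ : ∀ j, wt j * k j ≤ κ)
    (l : ι → τ → ℕ) (hl : ∀ i j, l i j < k j) (x : ι → σ → Ω) (b : ℕ)
    (h : ∀ (v : τ → ℕ) (b' : ℕ), 1 ≤ b' → b' ≤ b →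
      GoodC w (κ * (b' - 1) + c') b' (fun i : {i // l i = v} => x i)) (s : ℕ) (hs : s ≤ b)
    (u : ι → ((τ ⊕ σ) →₀ ℕ) → Ω) (hu : ∀ i β, (fstF β).degree < b - s → u i β = 0) :
    ∃ f : MvPolynomial (τ ⊕ σ) Ω,
      WLe (Sum.elim wt w) (κ * (b - 1) + (c' + ∑ j, wt j * (k j - 1))) f ∧
      ∀ i, ∀ β : (τ ⊕ σ) →₀ ℕ, β.degree < b →
        coeff β (tay (k := Ω) (Sum.elim (fun j => (l i j : Ω)) (x i)) f) = u i β := by
  classical
  induction s generalizing u with
  | zero =>
    refine ⟨0, WLe_zero _ _, ?_⟩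
    intro i β hβ
    rw [map_zero, coeff_zero, hu i β]
    have := degree_eq β
    omega
  | succ s ih =>
    have : Fintype ι := Fintype.ofFinite ι
    set t := b - (s + 1) with ht
    have hb' : 1 ≤ s + 1 := by omega
    choose! g hg1 hg2 using fun (μ : τ →₀ ℕ) (v : τ → ℕ) =>
      h v (s + 1) hb' hs (fun i ν => u i.1 (mkF μ ν) / cst Ω k v μ v)
    set F : MvPolynomial (τ ⊕ σ) Ω :=
      ∑ μ ∈ (Finset.univ : Finset τ).finsuppAntidiag t, ∑ v ∈ Finset.univ.image l,
        rename Sum.inl (lab k μ v) * rename Sum.inr (g μ v) with hF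
    have hdeg : ∀ μ : τ →₀ ℕ, μ ∈ (Finset.univ : Finset τ).finsuppAntidiag t ↔ μ.degree = t := by
      intro μ
      rw [Finset.mem_finsuppAntidiag, Finsupp.degree_eq_sum]
      simp
    have hFW : WLe (Sum.elim wt w) (κ * (b - 1) + (c' + ∑ j, wt j * (k j - 1))) F := by
      apply WLe_sum
      intro μ hμ
      apply WLe_sum
      intro v hv
      obtain ⟨i, -, rfl⟩ := Finset.mem_image.1 hv
      have h1 := WLe_mul
        (WLe_rename (Sum.inl : τ → τ ⊕ σ) wt (Sum.elim wt w) (fun _ => rfl)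
          (WLe_lab (Ω := Ω) k wt κ hκ μ (l i) (hl i)))
        (WLe_rename (Sum.inr : σ → τ ⊕ σ) w (Sum.elim wt w) (fun _ => rfl) (hg1 μ (l i)))
      apply WLe_mono _ h1
      rw [(hdeg μ).1 hμ]
      have h2 : κ * t + κ * (s + 1 - 1) = κ * (b - 1) := by
        rw [← mul_add]
        congr 1
        omega
      omega
    have hFc : ∀ i, ∀ β : (τ ⊕ σ) →₀ ℕ, β.degree < b → (fstF β).degree ≤ t →
        coeff β (tay (k := Ω) (Sum.elim (fun j => (l i j : Ω)) (x i)) F) =
          if (fstF β).degree = t then u i β else 0 := by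
      intro i β hβ hβt
      rw [hF, map_sum, coeff_sum]
      simp only [map_sum, coeff_sum, tay_rename_mul, coeff_rename_mul]
      have h1 : ∀ μ ∈ (Finset.univ : Finset τ).finsuppAntidiag t,
          ∑ v ∈ Finset.univ.image l,
            coeff (fstF β) (tay (k := Ω) (fun j => (l i j : Ω)) (lab k μ v)) *
              coeff (sndF β) (tay (k := Ω) (x i) (g μ v)) =
          if fstF β = μ then u i β else 0 := by
        intro μ hμ
        have hμ' := (hdeg μ).1 hμ
        by_cases h2 : fstF β = μ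
        · rw [if_pos h2]
          rw [Finset.sum_eq_single (l i)]
          · rw [coeff_tay_lab k (l i) (hl i) μ (l i) _ (by omega), if_pos h2]
            have h3 := hg2 μ (l i) ⟨i, rfl⟩ (sndF β) (by
              have := degree_eq β
              rw [h2, hμ'] at this
              omega)
            simp only at h3
            rw [h3, ← h2, mkF_fst_snd]
            exact mul_div_cancel₀ _ (cst_ne_zero k (l i) (fstF β))
          · intro v _ hv
            rw [coeff_tay_lab k (l i) (hl i) μ v _ (by omega), if_pos h2,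
              cst_eq_zero k (l i) (hl i) μ v (Ne.symm hv), zero_mul]
          · intro hi
            exact absurd (Finset.mem_image_of_mem l (Finset.mem_univ i)) hi
        · rw [if_neg h2]
          apply Finset.sum_eq_zero
          intro v _
          rw [coeff_tay_lab k (l i) (hl i) μ v _ (by omega), if_neg h2, zero_mul]
      rw [Finset.sum_congr rfl h1, Finset.sum_ite_eq]
      simp only [hdeg]
    obtain ⟨f, hf1, hf2⟩ := ih (by omega)
      (fun i β => if β.degree < b ∧ t < b - s then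
        (if (fstF β).degree < b - s then 0 else
          u i β - coeff β (tay (k := Ω) (Sum.elim (fun j => (l i j : Ω)) (x i)) F)) else 0)
      (by
        intro i β hβ
        split_ifs <;> simp_all)
    refine ⟨f + F, WLe_add hf1 hFW, ?_⟩
    intro i β hβ
    rw [map_add, coeff_add, hf2 i β hβ]
    have hts : t < b - s := by omega
    simp only [hβ, hts, and_self, if_true]
    by_cases h1 : (fstF β).degree < b - s
    · rw [if_pos h1, hFc i β hβ (by omega), zero_add]
      by_cases h2 : (fstF β).degree = t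
      · rw [if_pos h2]
      · rw [if_neg h2, hu i β (by omega)]
    · rw [if_neg h1]
      ring

end main

end UN

theorem union_good {Ω : Type} [Field Ω] [CharZero Ω] {ι τ σ : Type} [Finite ι] [Fintype τ]
    [Fintype σ] (k wt : τ → ℕ) (w : σ → ℕ) (κ c' : ℕ) (hκ : ∀ j, wt j * k j ≤ κ)
    (l : ι → τ → ℕ) (hl : ∀ i j, l i j < k j) (x : ι → σ → Ω) (b : ℕ)
    (h : ∀ (v : τ → ℕ) (b' : ℕ), 1 ≤ b' → b' ≤ b →
      GoodC w (κ * (b' - 1) + c') b' (fun i : {i // l i = v} => x i)) :
    GoodC (Sum.elim wt w) (κ * (b - 1) + (c' + ∑ j, wt j * (k j - 1))) b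
      (fun i => Sum.elim (fun j => (l i j : Ω)) (x i)) := by
  intro u
  exact UN.step k wt w κ c' hκ l hl x b h b le_rfl u (by
    intro i β hβ
    omega)

end Pool.Agent.UpLog
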