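import Mathlib
import Pool.Agent.UpLog.Defs
import Pool.Agent.UpLog.UN

set_option autoImplicit false

/-!
# UpLog, module GD: the grid
-/

namespace Pool.Agent.UpLog

open Module MvPolynomial

namespace GD

/-- the bijection from `τ ⊕ Empty` to `τ` -/
def fold (τ : Type) : τ ⊕ Empty → τ := Sum.elim id Empty.elim

theorem fold_injective (τ : Type) : Function.Injective (fold τ) := by
  intro a b h
  rcases a with a | a
  · rcases b with b | b
    · exact congrArg Sum.inl h
    · exact b.elim
  · exact a.elim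

theorem class_good {Ω : Type} [Field Ω] {ι τ : Type} [Fintype τ] (l : ι → τ → ℕ)
    (hinj : Function.Injective l) (v : τ → ℕ) (b' d : ℕ) :
    GoodC (Empty.elim : Empty → ℕ) d b'
      (fun (_ : {i // l i = v}) => (Empty.elim : Empty → Ω)) := by
  classical
  intro u
  by_cases hne : Nonempty {i // l i = v}
  · obtain ⟨i₀⟩ := hne
    refine ⟨C (u i₀ 0), ?_, ?_⟩
    · intro α _
      simp [wdeg]
    · intro i β _
      have h1 : i = i₀ := Subtype.ext (hinj (i.2.trans i₀.2.symm))
      have h2 : β = 0 := Subsingleton.elim _ _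
      rw [h1, h2]
      simp [tay]
  · refine ⟨0, UN.WLe_zero _ _, ?_⟩
    intro i
    exact absurd ⟨i⟩ hne

end GD

theorem grid_good {Ω : Type} [Field Ω] [CharZero Ω] {ι τ : Type} [Finite ι] [Fintype τ]
    (k wt : τ → ℕ) (κ : ℕ) (hκ : ∀ j, wt j * k j ≤ κ) (l : ι → τ → ℕ)
    (hinj : Function.Injective l) (hl : ∀ i j, l i j < k j) (b : ℕ) :
    GoodC wt (κ * (b - 1) + ∑ j, wt j * (k j - 1)) b (fun i j => (l i j : Ω)) := by
  classical
  have h := union_good (Ω := Ω) k wt (Empty.elim : Empty → ℕ) κ 0 hκ l hl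
    (fun _ => (Empty.elim : Empty → Ω)) b
    (fun v b' _ _ => GD.class_good l hinj v b' _)
  intro u
  obtain ⟨f, hf1, hf2⟩ := h (fun i β => u i (UN.fstF β))
  refine ⟨rename (GD.fold τ) f, ?_, ?_⟩
  · rw [zero_add] at hf1
    exact UN.WLe_rename (GD.fold τ) (Sum.elim wt (Empty.elim : Empty → ℕ)) wt
      (by rintro (j | j) <;> [rfl; exact j.elim]) hf1
  · intro i β hβ
    have h1 : (tay (k := Ω) (fun j => (l i j : Ω))).comp (rename (GD.fold τ)) =
        (rename (GD.fold τ)).comp
          (tay (k := Ω) (Sum.elim (fun j => (l i j : Ω)) (Empty.elim : Empty → Ω))) := by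
      apply MvPolynomial.algHom_ext
      rintro (j | j)
      · simp [tay, GD.fold]
      · exact j.elim
    have h2 := DFunLike.congr_fun h1 f
    simp only [AlgHom.comp_apply] at h2
    have h3 : β = (UN.mkF β (0 : Empty →₀ ℕ)).mapDomain (GD.fold τ) := by
      ext j
      have := Finsupp.mapDomain_apply (GD.fold_injective τ) (UN.mkF β (0 : Empty →₀ ℕ))
        (Sum.inl j)
      exact this.symm
    rw [h2]
    conv_lhs => rw [h3]
    have h4 : UN.fstF (UN.mkF β (0 : Empty →₀ ℕ)) = β := by
      ext j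
      rfl
    rw [coeff_rename_mapDomain _ (GD.fold_injective τ), hf2 i]
    · rw [h4]
    · rw [UN.degree_eq]
      have h5 : (UN.sndF (UN.mkF β (0 : Empty →₀ ℕ))).degree = 0 := by
        rw [Finsupp.degree_eq_sum]
        simp
      rw [h4, h5, add_zero]
      exact hβ

end Pool.Agent.UpLog
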