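import Mathlib
import Pool.Agent.UpLog.Defs
import Pool.Agent.UpLog.Basic
import Pool.Agent.Helper58.NF.Gen

set_option autoImplicit false

/-!
# Openness of general position
-/

namespace Pool.Agent.UpLog

open NumberField Module MvPolynomial

namespace OP

/-- the jets of a polynomial at a point with linear coordinates have bounded degree -/
lemma totalDegree_coeff_tay_le {σ P Ω : Type} [Fintype σ] [Field Ω] (w : σ → ℕ)
    (hw : ∀ j, 1 ≤ w j) (d : ℕ) (q : σ → MvPolynomial P Ω) (hq : ∀ j, (q j).totalDegree ≤ 1)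
    (f : MvPolynomial σ Ω) (hf : WLe w d f) (β : σ →₀ ℕ) :
    (coeff β (tay (k := Ω) q f)).totalDegree ≤ d := by
  rw [coeff_tay_eq_sum]
  refine (totalDegree_finsetSum _ _).trans ?_
  apply Finset.sup_le
  intro α hα
  refine (totalDegree_mul _ _).trans ?_
  have h1 : (algebraMap Ω (MvPolynomial P Ω) (coeff α f)).totalDegree = 0 := by
    rw [MvPolynomial.algebraMap_eq]; exact totalDegree_C _
  rw [h1, zero_add]
  refine (totalDegree_finsetProd _ _).trans ?_
  refine le_trans ?_ ((degree_le_wdeg w hw α).trans (hf α hα))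
  rw [degree_eq_sum]
  apply Finset.sum_le_sum
  intro j _
  refine (totalDegree_mul _ _).trans ?_
  have h2 : ((((α j).choose (β j) : ℕ) : MvPolynomial P Ω)).totalDegree = 0 := by
    rw [← map_natCast (C : Ω →+* MvPolynomial P Ω)]; exact totalDegree_C _
  rw [h2, zero_add]
  refine (totalDegree_pow _ _).trans ?_
  calc (α j - β j) * (q j).totalDegree ≤ (α j - β j) * 1 := Nat.mul_le_mul_left _ (hq j)
    _ ≤ α j := by omega

end OP

theorem open_good {σ ι P : Type} [Fintype σ] [Finite ι] [Finite P] (w : σ → ℕ)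
    (hw : ∀ j, 1 ≤ w j) (d b : ℕ) :
    ∃ D : ℕ, ∀ (Ω : Type) [Field Ω] [CharZero Ω] (q : ι → σ → MvPolynomial P Ω),
      (∀ i j, (q i j).totalDegree ≤ 1) → ∀ c₀ : P → Ω,
      GoodC w d b (fun i j => eval c₀ (q i j)) →
      ∃ F : MvPolynomial P Ω, F.totalDegree ≤ D ∧ eval c₀ F ≠ 0 ∧
        ∀ c : P → Ω, eval c F ≠ 0 → GoodC w d b (fun i j => eval c (q i j)) := by
  classical
  have hfin : Finite {β : σ →₀ ℕ // β.degree < b} := (finite_degree_lt (σ := σ) b).to_subtype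
  have : Fintype (ι × {β : σ →₀ ℕ // β.degree < b}) := Fintype.ofFinite _
  refine ⟨d * Fintype.card (ι × {β : σ →₀ ℕ // β.degree < b}), ?_⟩
  intro Ω _ _ q hq c₀ hgood
  choose f hfW hfc using fun ρ : ι × {β : σ →₀ ℕ // β.degree < b} =>
    hgood (fun i β => if i = ρ.1 ∧ β = ρ.2.1 then 1 else 0)
  let M : Matrix (ι × {β : σ →₀ ℕ // β.degree < b}) (ι × {β : σ →₀ ℕ // β.degree < b})
      (MvPolynomial P Ω) :=
    Matrix.of fun τ ρ => coeff τ.2.1 (tay (k := Ω) (q τ.1) (f ρ))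
  have hMe : ∀ (c : P → Ω) (τ ρ : ι × {β : σ →₀ ℕ // β.degree < b}),
      eval c (M τ ρ) = coeff τ.2.1 (tay (k := Ω) (fun j => eval c (q τ.1 j)) (f ρ)) := by
    intro c τ ρ
    have h := coeff_tay_map (k := Ω) (aeval c : MvPolynomial P Ω →ₐ[Ω] Ω) (q τ.1) (f ρ) τ.2.1
    simp only [MvPolynomial.aeval_eq_eval] at h
    exact h.symm
  have hdet : ∀ c : P → Ω, eval c M.det =
      (Matrix.of fun τ ρ => coeff τ.2.1 (tay (k := Ω) (fun j => eval c (q τ.1 j)) (f ρ)) :
        Matrix (ι × {β : σ →₀ ℕ // β.degree < b}) (ι × {β : σ →₀ ℕ // β.degree < b}) Ω).det := by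
    intro c
    rw [RingHom.map_det]
    congr 1
    ext τ ρ
    simp only [RingHom.mapMatrix_apply, Matrix.map_apply, Matrix.of_apply]
    exact hMe c τ ρ
  refine ⟨M.det, ?_, ?_, ?_⟩
  · refine Pool.Agent.Helper58.NF.totalDegree_det_le d M ?_
    intro τ ρ
    exact OP.totalDegree_coeff_tay_le w hw d (q τ.1) (hq τ.1) (f ρ) (hfW ρ) τ.2.1
  · rw [hdet c₀]
    have h1 : (Matrix.of fun τ ρ => coeff τ.2.1 (tay (k := Ω) (fun j => eval c₀ (q τ.1 j)) (f ρ)) :
        Matrix (ι × {β : σ →₀ ℕ // β.degree < b}) (ι × {β : σ →₀ ℕ // β.degree < b}) Ω) = 1 := by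
      ext τ ρ
      rw [Matrix.of_apply, hfc ρ τ.1 τ.2.1 τ.2.2, Matrix.one_apply]
      congr 1
      apply propext
      constructor
      · rintro ⟨h1, h2⟩
        exact Prod.ext h1 (Subtype.ext h2)
      · rintro rfl
        exact ⟨rfl, rfl⟩
    rw [h1, Matrix.det_one]
    exact one_ne_zero
  · intro c hc u
    rw [hdet c] at hc
    set N : Matrix (ι × {β : σ →₀ ℕ // β.degree < b}) (ι × {β : σ →₀ ℕ // β.degree < b}) Ω :=
      Matrix.of fun τ ρ => coeff τ.2.1 (tay (k := Ω) (fun j => eval c (q τ.1 j)) (f ρ)) with hN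
    have hunit : IsUnit N.det := isUnit_iff_ne_zero.2 hc
    let a : (ι × {β : σ →₀ ℕ // β.degree < b}) → Ω :=
      N⁻¹.mulVec (fun τ => u τ.1 τ.2.1)
    have ha : N.mulVec a = fun τ => u τ.1 τ.2.1 := by
      rw [Matrix.mulVec_mulVec, Matrix.mul_nonsing_inv _ hunit, Matrix.one_mulVec]
    refine ⟨∑ ρ, a ρ • f ρ, ?_, ?_⟩
    · exact WLe.sum _ _ fun ρ _ => (hfW ρ).smul _
    · intro i β hβ
      rw [map_sum, MvPolynomial.coeff_sum]
      have h2 := congrFun ha (i, ⟨β, hβ⟩)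
      simp only [Matrix.mulVec, dotProduct] at h2
      rw [← h2]
      apply Finset.sum_congr rfl
      intro ρ _
      rw [map_smul, MvPolynomial.coeff_smul, hN, Matrix.of_apply, smul_eq_mul, mul_comm]

end Pool.Agent.UpLog
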