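import Mathlib
import Pool.Agent.UpLog.Defs
import Pool.Agent.UpLog.Basic

set_option autoImplicit false

/-!
# From embeddings to the field
-/

namespace Pool.Agent.UpLog

open NumberField Module MvPolynomial

theorem good_of_embeddings {K L Ω : Type} [Field K] [CharZero K] [Field L] [Algebra K L]
    [FiniteDimensional K L] [Field Ω] [Algebra K Ω] [IsAlgClosed Ω] {σ : Type} [Fintype σ]
    (w : σ → ℕ) (d b : ℕ) (x : σ → L)
    (h : GoodC w d b (fun (φ : L →ₐ[K] Ω) j => φ (x j))) : Good K w d b x := by
  classical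
  set S : Finset (σ →₀ ℕ) := (finite_degree_lt (σ := σ) b).toFinset with hSdef
  have hS : ∀ β, β ∈ S ↔ β.degree < b := by
    intro β
    rw [hSdef, Set.Finite.mem_toFinset]
    rfl
  let T : WSub K w d →ₗ[K] (S → L) :=
    { toFun := fun f β => coeff β.1 (tay (k := K) x f.1)
      map_add' := by
        intro f g
        funext β
        simp
      map_smul' := by
        intro c f
        funext β
        simp }
  have hT : Function.Surjective T := by
    rw [← LinearMap.range_eq_top]
    by_contra hne
    obtain ⟨l, hl0, hl⟩ := Submodule.exists_le_ker_of_lt_top _ (lt_top_iff_ne_top.2 hne)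
    have ha : ∀ β : S, ∃ a : L, ∀ c : L, l (Pi.single β c) = Algebra.trace K L (a * c) := by
      intro β
      let e := LinearMap.BilinForm.toDual (Algebra.traceForm K L) (traceForm_nondegenerate K L)
      refine ⟨e.symm (l.comp (LinearMap.single K (fun _ : S => L) β)), fun c => ?_⟩
      rw [← Algebra.traceForm_apply, ← LinearMap.BilinForm.toDual_def (traceForm_nondegenerate K L)]
      change _ = e (e.symm _) c
      rw [LinearEquiv.apply_symm_apply]
      rfl
    choose a ha using ha
    have hlv : ∀ v : S → L, l v = ∑ β, Algebra.trace K L (a β * v β) := by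
      intro v
      conv_lhs => rw [← Finset.univ_sum_single v]
      rw [map_sum]
      exact Finset.sum_congr rfl fun β _ => ha β _
    -- vanishing on monomials
    have hmono : ∀ α : σ →₀ ℕ, wdeg w α ≤ d → ∑ φ : L →ₐ[K] Ω, ∑ β : S,
        φ (a β) * coeff β.1 (tay (k := Ω) (fun j => φ (x j)) (monomial α 1)) = 0 := by
      intro α hα
      have h1 : l (T ⟨monomial α 1, WLe.monomial hα 1⟩) = 0 := hl ⟨_, rfl⟩
      rw [hlv] at h1
      have h2 := congrArg (algebraMap K Ω) h1
      rw [map_zero, map_sum] at h2
      rw [Finset.sum_comm]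
      rw [← h2]
      refine Finset.sum_congr rfl fun β _ => ?_
      rw [trace_eq_sum_embeddings Ω]
      refine Finset.sum_congr rfl fun φ _ => ?_
      rw [map_mul]
      congr 1
      change _ = φ (coeff β.1 (tay (k := K) x (monomial α 1)))
      rw [← coeff_tay_map φ x, ← tay_map_algebraMap (k := K) (A := Ω) (fun j => φ (x j)),
        map_monomial, map_one (algebraMap K Ω)]
    have hall : ∀ f : MvPolynomial σ Ω, WLe w d f → ∑ φ : L →ₐ[K] Ω, ∑ β : S,
        φ (a β) * coeff β.1 (tay (k := Ω) (fun j => φ (x j)) f) = 0 := by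
      intro f hf
      have h1 : f = ∑ α ∈ f.support, coeff α f • monomial α (1 : Ω) := by
        conv_lhs => rw [f.as_sum]
        refine Finset.sum_congr rfl fun α _ => ?_
        rw [smul_monomial, smul_eq_mul, mul_one]
      have h2 : ∀ (φ : L →ₐ[K] Ω) (β : S),
          coeff β.1 (tay (k := Ω) (fun j => φ (x j)) f) = ∑ α ∈ f.support, coeff α f *
            coeff β.1 (tay (k := Ω) (fun j => φ (x j)) (monomial α 1)) := by
        intro φ β
        conv_lhs => rw [h1]
        rw [map_sum, coeff_sum]
        refine Finset.sum_congr rfl fun α _ => ?_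
        rw [map_smul, coeff_smul, smul_eq_mul]
      have h3 : ∑ φ : L →ₐ[K] Ω, ∑ β : S,
          φ (a β) * coeff β.1 (tay (k := Ω) (fun j => φ (x j)) f) =
          ∑ α ∈ f.support, coeff α f * ∑ φ : L →ₐ[K] Ω, ∑ β : S,
            φ (a β) * coeff β.1 (tay (k := Ω) (fun j => φ (x j)) (monomial α 1)) := by
        simp_rw [h2, Finset.mul_sum]
        rw [Finset.sum_comm]
        conv_rhs => rw [Finset.sum_comm]
        rw [Finset.sum_comm]
        refine Finset.sum_congr rfl fun φ _ => ?_
        rw [Finset.sum_comm]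
        refine Finset.sum_congr rfl fun α _ => ?_
        refine Finset.sum_congr rfl fun β _ => ?_
        ring
      rw [h3]
      refine Finset.sum_eq_zero fun α hα => ?_
      rw [hmono α (hf α hα), mul_zero]
    have ha0 : ∀ β : S, a β = 0 := by
      intro β₀
      let φ₀ : L →ₐ[K] Ω := IsAlgClosed.lift
      obtain ⟨f, hf, hf2⟩ := h (fun φ β => if φ = φ₀ ∧ β = β₀ then 1 else 0)
      have h1 := hall f hf
      have h2 : ∀ φ : L →ₐ[K] Ω, ∀ β : S,
          φ (a β) * coeff β.1 (tay (k := Ω) (fun j => φ (x j)) f) =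
          if φ = φ₀ then (if β = β₀ then φ (a β) else 0) else 0 := by
        intro φ β
        rw [hf2 φ β.1 ((hS _).1 β.2)]
        by_cases h3 : φ = φ₀ <;> by_cases h4 : β = β₀ <;> simp [h3, h4, Subtype.ext_iff.not.1]
      simp_rw [h2] at h1
      simp at h1
      exact h1
    apply hl0
    refine LinearMap.ext fun v => ?_
    rw [hlv]
    simp [ha0]
  intro u
  obtain ⟨f, hf⟩ := hT (fun β => u β.1)
  refine ⟨f.1, f.2, fun β hβ => ?_⟩
  exact congrFun hf ⟨β, (hS β).2 hβ⟩

end Pool.Agent.UpLog
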