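import Mathlib
import Pool.Agent.UpLog.Defs
import Pool.Agent.UpLog.Basic
import Pool.Agent.UpLog.OP
import Pool.Agent.UpLog.CV
import Pool.Agent.UpLog.UN
import Pool.Agent.UpLog.GD
import Pool.Agent.UpLog.TR
import Pool.Agent.Helper58.NF.Gen

set_option autoImplicit false

/-!
# General position tuples with labels
-/

namespace Pool.Agent.UpLog.GB

open Module MvPolynomial

lemma goodC_comp {σ : Type} [Fintype σ] {ι ι' Ω : Type*} [CommRing Ω] {w : σ → ℕ} {d b : ℕ}
    {z : ι → σ → Ω} (g : ι' → ι) (hg : Function.Injective g) (h : GoodC w d b z) :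
    GoodC w d b (fun i => z (g i)) := by
  intro u
  obtain ⟨f, hf, hfu⟩ := h (Function.extend g u 0)
  refine ⟨f, hf, fun i β hβ => ?_⟩
  rw [hfu (g i) β hβ, hg.extend_apply]

lemma goodC_empty {σ : Type} [Fintype σ] {ι Ω : Type*} [CommRing Ω] [IsEmpty ι] {w : σ → ℕ}
    {d b : ℕ} (z : ι → σ → Ω) : GoodC w d b z :=
  fun _ => ⟨0, WLe.zero, fun i => isEmptyElim i⟩

/-- the binary expansion of the labels -/
lemma exists_enc (k q a : ℕ) (h : q ≤ k ^ a) : ∃ enc : Fin q → Fin a → ℕ,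
    Function.Injective enc ∧ ∀ i j, enc i j < k := by
  obtain ⟨g⟩ : Nonempty (Fin q ↪ (Fin a → Fin k)) := by
    apply Function.Embedding.nonempty_of_card_le
    simpa using h
  refine ⟨fun i j => (g i j : ℕ), ?_, fun i j => (g i j).2⟩
  intro i i' hii
  apply g.injective
  funext j
  exact Fin.ext (congrFun hii j)

lemma linForm_eval {Ω P J : Type*} [CommRing Ω] [Fintype J] (f : J → Ω) (g : J → P) (c : P → Ω) :
    eval c (∑ j, C (f j) * X (g j) : MvPolynomial P Ω) = ∑ j, f j * c (g j) := by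
  simp

lemma linForm_deg {Ω P J : Type*} [CommRing Ω] [Fintype J] (f : J → Ω) (g : J → P) :
    (∑ j, C (f j) * X (g j) : MvPolynomial P Ω).totalDegree ≤ 1 := by
  refine (totalDegree_finsetSum _ _).trans ?_
  apply Finset.sup_le
  intro j _
  refine (totalDegree_mul _ _).trans ?_
  rw [totalDegree_C, zero_add]
  rw [MvPolynomial.X]
  refine (totalDegree_monomial_le _ _).trans ?_
  simp

/-- finitely many open nonempty conditions are simultaneously solvable -/
lemma exists_common {Ω P T : Type} [Field Ω] [CharZero Ω] [Finite P] [Fintype T]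
    (F : T → MvPolynomial P Ω) (hF : ∀ t, F t ≠ 0) : ∃ c : P → ℕ,
      (∀ l, c l ≤ ∑ t, (F t).totalDegree) ∧ ∀ t, eval (fun l => (c l : Ω)) (F t) ≠ 0 := by
  classical
  have hprod : (∏ t, F t) ≠ 0 := Finset.prod_ne_zero_iff.2 fun t _ => hF t
  obtain ⟨c, hc1, hc2⟩ := Pool.Agent.Helper58.NF.exists_nat_eval_ne_zero _ hprod
  refine ⟨c, fun l => (hc1 l).trans (totalDegree_finsetProd _ _), fun t ht => hc2 ?_⟩
  rw [map_prod]
  exact Finset.prod_eq_zero (Finset.mem_univ t) ht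

/-- the configuration of the variables inside the parts of the covering -/
lemma exists_inner (n s q r B : ℕ) (hr : n ≤ 4 ^ r) {Ω : Type} [Field Ω] [CharZero Ω]
    (lq : Fin n → Fin q) (vv : Fin n → Fin s → Ω)
    (hcv : ∀ (a : Fin q) (u : Fin n → Ω), ∃ c : Fin s → Ω, ∀ i, lq i = a → ∑ j, c j * vv i j = u i) :
    ∃ c : Fin r → Fin s → Ω, ∀ (a : Fin q) (b : ℕ), 1 ≤ b → b ≤ B →
      GoodC (fun _ : Fin r => 1) (4 * (b - 1) + 3 * r) b
        (fun (i : {i // lq i = a}) t => ∑ j, c t j * vv i j) := by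
  classical
  obtain ⟨g, hginj, hg4⟩ := exists_enc 4 n r hr
  have hpt : ∀ a : Fin q, ∃ c0 : Fin r → Fin s → Ω, ∀ i, lq i = a → ∀ t,
      ∑ j, c0 t j * vv i j = (g i t : Ω) := by
    intro a
    have h1 : ∀ t : Fin r, ∃ c : Fin s → Ω, ∀ i, lq i = a → ∑ j, c j * vv i j = (g i t : Ω) :=
      fun t => hcv a (fun i => (g i t : Ω))
    choose c0 hc0 using h1
    exact ⟨c0, fun i hi t => hc0 t i hi⟩
  choose c0 hc0 using hpt
  have hF : ∀ (a : Fin q) (b : ℕ), ∃ F : MvPolynomial (Fin r × Fin s) Ω, F ≠ 0 ∧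
      ∀ c : Fin r × Fin s → Ω, eval c F ≠ 0 →
        GoodC (fun _ : Fin r => 1) (4 * (b - 1) + 3 * r) b
          (fun (i : {i // lq i = a}) t => ∑ j, c (t, j) * vv i j) := by
    intro a b
    have hgrid : GoodC (fun _ : Fin r => 1) (4 * (b - 1) + 3 * r) b
        (fun (i : {i // lq i = a}) t => (g i t : Ω)) := by
      have h2 := grid_good (Ω := Ω) (ι := {i // lq i = a}) (τ := Fin r) (fun _ => 4) (fun _ => 1) 4
        (fun _ => by norm_num) (fun i => g i) (fun i i' hii => Subtype.ext (hginj hii))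
        (fun i j => hg4 i j) b
      have h3 : ∑ _j : Fin r, 1 * (4 - 1) = 3 * r := by simp [mul_comm]
      rw [h3] at h2
      exact h2
    obtain ⟨D, hD⟩ := open_good (ι := {i // lq i = a}) (P := Fin r × Fin s) (fun _ : Fin r => 1)
      (fun _ => le_rfl) (4 * (b - 1) + 3 * r) b
    have hev : ∀ (c : Fin r × Fin s → Ω) (i : {i // lq i = a}) (t : Fin r),
        eval c (∑ j, C (vv i j) * X (t, j) : MvPolynomial (Fin r × Fin s) Ω) =
          ∑ j, c (t, j) * vv i j := by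
      intro c i t
      rw [linForm_eval (fun j => vv i j) (fun j => (t, j)) c]
      exact Finset.sum_congr rfl fun j _ => mul_comm _ _
    obtain ⟨F, -, hF0, hFc⟩ := hD Ω (fun i t => ∑ j, C (vv i j) * X (t, j))
      (fun i t => linForm_deg (fun j => vv i j) (fun j => (t, j))) (fun p => c0 a p.1 p.2)
      (by
        have h4 : (fun (i : {i // lq i = a}) t => eval (fun p : Fin r × Fin s => c0 a p.1 p.2)
            (∑ j, C (vv i j) * X (t, j) : MvPolynomial (Fin r × Fin s) Ω)) =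
            fun (i : {i // lq i = a}) t => (g i.1 t : Ω) := by
          funext i t
          rw [hev]
          exact hc0 a i i.2 t
        rw [h4]
        exact hgrid)
    refine ⟨F, fun h => hF0 (by rw [h, map_zero]), fun c hc => ?_⟩
    have h5 := hFc c hc
    simp only [hev] at h5
    exact h5
  choose F hF0 hFc using hF
  obtain ⟨c, -, hc⟩ := exists_common (fun t : Fin q × Fin (B + 1) => F t.1 t.2) (fun t => hF0 _ _)
  refine ⟨fun t j => (c (t, j) : Ω), fun a b _ hb => ?_⟩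
  have hb' : b < B + 1 := Nat.lt_succ_of_le hb
  have h6 : eval (fun l => (c l : Ω)) (F a b) ≠ 0 := hc (a, ⟨b, hb'⟩)
  have h7 := hFc a b (fun l => (c l : Ω)) h6
  exact h7

/-- the whole configuration -/
lemma exists_outer (n s q a r B : ℕ) (hr : n ≤ 4 ^ r) (ha : q ≤ 2 ^ a) {Ω : Type} [Field Ω]
    [CharZero Ω] (lq : Fin n → Fin q) (vv : Fin n → Fin s → Ω) (uu : Fin n → Fin n → Ω)
    (hcv : ∀ (a : Fin q) (u : Fin n → Ω), ∃ c : Fin s → Ω, ∀ i, lq i = a → ∑ j, c j * vv i j = u i)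
    (hcu : ∀ (u : Fin n → Ω), ∃ c : Fin n → Ω, ∀ i, ∑ j, c j * uu i j = u i) :
    ∃ (e : Fin a → Fin n → Ω) (c : Fin r → Fin s → Ω), ∀ (b : ℕ), 1 ≤ b → b ≤ B →
      GoodC (Sum.elim (fun _ : Fin a => 2) (fun _ : Fin r => 1)) (4 * (b - 1) + (3 * r + 2 * a)) b
        (fun (i : Fin n) => Sum.elim (fun t => ∑ j, e t j * uu i j) (fun t => ∑ j, c t j * vv i j)) := by
  classical
  obtain ⟨c, hc⟩ := exists_inner n s q r B hr lq vv hcv
  obtain ⟨enc, henc, henc2⟩ := exists_enc 2 q a ha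
  have hlab : ∀ t : Fin a, ∃ c : Fin n → Ω, ∀ i, ∑ j, c j * uu i j = (enc (lq i) t : Ω) :=
    fun t => hcu (fun i => (enc (lq i) t : Ω))
  choose e he using hlab
  refine ⟨e, c, fun b hb1 hb => ?_⟩
  have h1 := union_good (Ω := Ω) (ι := Fin n) (τ := Fin a) (σ := Fin r) (fun _ => 2) (fun _ => 2)
    (fun _ => 1) 4 (3 * r) (fun _ => by norm_num) (fun i => enc (lq i)) (fun i j => henc2 _ _)
    (fun i t => ∑ j, c t j * vv i j) b (by
      intro v b' hb1' hb'
      by_cases hv : ∃ a0 : Fin q, enc a0 = v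
      · obtain ⟨a0, rfl⟩ := hv
        have h2 := hc a0 b' hb1' (hb'.trans hb)
        let g : {i // enc (lq i) = enc a0} → {i // lq i = a0} :=
          fun i => ⟨i.1, henc i.2⟩
        have hg : Function.Injective g := by
          intro i i' hii
          have := congrArg Subtype.val hii
          exact Subtype.ext this
        have h8 := goodC_comp g hg h2
        exact h8
      · have : IsEmpty {i // enc (lq i) = v} := ⟨fun i => hv ⟨lq i.1, i.2⟩⟩
        exact goodC_empty _)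
  have h3 : 3 * r + ∑ _j : Fin a, 2 * (2 - 1) = 3 * r + 2 * a := by simp [mul_comm]
  rw [h3] at h1
  simp only [he]
  exact h1

end Pool.Agent.UpLog.GB

namespace Pool.Agent.UpLog

open Module MvPolynomial GB

theorem exists_tuple (n s q a r B : ℕ) (hn : 1 ≤ n) (hs : 1 ≤ s) (hr : n ≤ 4 ^ r) (ha : q ≤ 2 ^ a)
    (hq : (n : ℝ) * (1 - s / n) ^ q < 1) :
    ∃ D : ℕ, ∀ (K L : Type) [Field K] [CharZero K] [Field L] [Algebra K L]
      [FiniteDimensional K L], finrank K L = n →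
      ∀ (u : Fin n → L) (v : Fin s → L), LinearIndependent K u → LinearIndependent K v →
      ∃ (e : Fin a → Fin n → ℕ) (c : Fin r → Fin s → ℕ), (∀ i j, e i j ≤ D) ∧ (∀ i j, c i j ≤ D) ∧
        ∀ b, 1 ≤ b → b ≤ B →
          Good K (Sum.elim (fun _ : Fin a => 2) (fun _ : Fin r => 1)) (4 * (b - 1) + (3 * r + 2 * a)) b
            (Sum.elim (fun i => ∑ j, (e i j : L) * u j) (fun i => ∑ j, (c i j : L) * v j)) := by
  classical
  have hw : ∀ j : Fin a ⊕ Fin r, 1 ≤ (Sum.elim (fun _ : Fin a => 2) (fun _ : Fin r => 1)) j := by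
    rintro (j | j) <;> simp
  choose D hD using fun b : ℕ => open_good (ι := Fin n) (P := (Fin a × Fin n) ⊕ (Fin r × Fin s))
    (Sum.elim (fun _ : Fin a => 2) (fun _ : Fin r => 1)) hw (4 * (b - 1) + (3 * r + 2 * a)) b
  refine ⟨∑ b : Fin (B + 1), D b, ?_⟩
  intro K L _ _ _ _ _ hKL u v hu hv
  set Ω := AlgebraicClosure K with hΩ
  have hcard : Fintype.card (L →ₐ[K] Ω) = n := by
    rw [AlgHom.card, hKL]
  let E : Fin n ≃ (L →ₐ[K] Ω) := (Fintype.equivFinOfCardEq hcard).symm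
  obtain ⟨l, hl⟩ := covering (K := K) (L := L) s q v hv (by rw [hKL]; exact hq)
  obtain ⟨l1, hl1⟩ := covering (K := K) (L := L) n 1 u hu (by
    rw [hKL]
    have : (n : ℝ) ≠ 0 := by positivity
    rw [div_self this]
    norm_num)
  obtain ⟨e0, c0, hec⟩ := exists_outer n s q a r B hr ha (fun i => l (E i))
    (fun i j => E i (v j)) (fun i j => E i (u j))
    (by
      intro a0 t
      obtain ⟨c, hc⟩ := hl a0 (fun φ => t (E.symm φ))
      refine ⟨c, fun i hi => ?_⟩
      rw [hc (E i) hi, Equiv.symm_apply_apply])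
    (by
      intro t
      obtain ⟨c, hc⟩ := hl1 0 (fun φ => t (E.symm φ))
      refine ⟨c, fun i => ?_⟩
      rw [hc (E i) (Subsingleton.elim _ _), Equiv.symm_apply_apply])
  -- the polynomials
  let Q : Fin n → Fin a ⊕ Fin r → MvPolynomial ((Fin a × Fin n) ⊕ (Fin r × Fin s)) Ω :=
    fun i => Sum.elim (fun t => ∑ j, C (E i (u j)) * X (Sum.inl (t, j)))
      (fun t => ∑ j, C (E i (v j)) * X (Sum.inr (t, j)))
  have hQdeg : ∀ i j, (Q i j).totalDegree ≤ 1 := by
    rintro i (t | t)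
    · exact linForm_deg (fun j => E i (u j)) (fun j => Sum.inl (t, j))
    · exact linForm_deg (fun j => E i (v j)) (fun j => Sum.inr (t, j))
  have hQev : ∀ (p : (Fin a × Fin n) ⊕ (Fin r × Fin s) → Ω) (i : Fin n),
      (fun j => eval p (Q i j)) = Sum.elim (fun t => ∑ j, p (Sum.inl (t, j)) * E i (u j))
        (fun t => ∑ j, p (Sum.inr (t, j)) * E i (v j)) := by
    intro p i
    funext t
    rcases t with t | t
    · simp only [Q, Sum.elim_inl]
      rw [linForm_eval (fun j => E i (u j)) (fun j => Sum.inl (t, j)) p]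
      exact Finset.sum_congr rfl fun j _ => mul_comm _ _
    · simp only [Q, Sum.elim_inr]
      rw [linForm_eval (fun j => E i (v j)) (fun j => Sum.inr (t, j)) p]
      exact Finset.sum_congr rfl fun j _ => mul_comm _ _
  let p0 : (Fin a × Fin n) ⊕ (Fin r × Fin s) → Ω :=
    Sum.elim (fun x => e0 x.1 x.2) (fun x => c0 x.1 x.2)
  have hF : ∀ b : ℕ, 1 ≤ b → b ≤ B →
      ∃ F : MvPolynomial ((Fin a × Fin n) ⊕ (Fin r × Fin s)) Ω, F.totalDegree ≤ D b ∧ F ≠ 0 ∧
        ∀ p, eval p F ≠ 0 → GoodC (Sum.elim (fun _ : Fin a => 2) (fun _ : Fin r => 1))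
          (4 * (b - 1) + (3 * r + 2 * a)) b (fun i => Sum.elim
            (fun t => ∑ j, p (Sum.inl (t, j)) * E i (u j))
            (fun t => ∑ j, p (Sum.inr (t, j)) * E i (v j))) := by
    intro b hb1 hb
    obtain ⟨F, hF1, hF2, hF3⟩ := hD b Ω Q hQdeg p0 (by
      have h1 := hec b hb1 hb
      have h2 : (fun (i : Fin n) j => eval p0 (Q i j)) =
          fun (i : Fin n) => Sum.elim (fun t => ∑ j, e0 t j * E i (u j))
            (fun t => ∑ j, c0 t j * E i (v j)) := by
        funext i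
        rw [hQev]
        rfl
      rw [h2]
      exact h1)
    refine ⟨F, hF1, fun h => hF2 (by rw [h, map_zero]), fun p hp => ?_⟩
    have h3 := hF3 p hp
    have h4 : (fun (i : Fin n) j => eval p (Q i j)) =
        fun (i : Fin n) => Sum.elim (fun t => ∑ j, p (Sum.inl (t, j)) * E i (u j))
            (fun t => ∑ j, p (Sum.inr (t, j)) * E i (v j)) := by
      funext i
      rw [hQev]
    rw [h4] at h3
    exact h3
  have hF' : ∀ b : ℕ, ∃ F : MvPolynomial ((Fin a × Fin n) ⊕ (Fin r × Fin s)) Ω,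
      F.totalDegree ≤ D b ∧ F ≠ 0 ∧ (1 ≤ b → b ≤ B → 
        ∀ p, eval p F ≠ 0 → GoodC (Sum.elim (fun _ : Fin a => 2) (fun _ : Fin r => 1))
          (4 * (b - 1) + (3 * r + 2 * a)) b (fun i => Sum.elim
            (fun t => ∑ j, p (Sum.inl (t, j)) * E i (u j))
            (fun t => ∑ j, p (Sum.inr (t, j)) * E i (v j)))) := by
    intro b
    by_cases hb : 1 ≤ b ∧ b ≤ B
    · obtain ⟨F, h1, h2, h3⟩ := hF b hb.1 hb.2
      exact ⟨F, h1, h2, fun _ _ => h3⟩
    · refine ⟨1, by simp, one_ne_zero, fun h1 h2 => absurd ⟨h1, h2⟩ hb⟩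
  choose F hF1 hF2 hF3 using hF'
  obtain ⟨c, hc1, hc2⟩ := exists_common (fun b : Fin (B + 1) => F b) (fun b => hF2 b)
  have hcD : ∀ x, c x ≤ ∑ b : Fin (B + 1), D b := fun x =>
    (hc1 x).trans (Finset.sum_le_sum fun b _ => hF1 b)
  refine ⟨fun i j => c (Sum.inl (i, j)), fun i j => c (Sum.inr (i, j)), fun i j => hcD _,
    fun i j => hcD _, fun b hb1 hb => ?_⟩
  apply good_of_embeddings (Ω := Ω)
  have h5 := hF3 b hb1 hb _ (hc2 ⟨b, by omega⟩)
  have h6 := goodC_comp E.symm E.symm.injective h5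
  have h7 : (fun (φ : L →ₐ[K] Ω) (j : Fin a ⊕ Fin r) => φ ((Sum.elim
      (fun i => ∑ j, (c (Sum.inl (i, j)) : L) * u j)
      (fun i => ∑ j, (c (Sum.inr (i, j)) : L) * v j)) j)) =
      fun (φ : L →ₐ[K] Ω) => Sum.elim
        (fun t => ∑ j, (c (Sum.inl (t, j)) : Ω) * E (E.symm φ) (u j))
        (fun t => ∑ j, (c (Sum.inr (t, j)) : Ω) * E (E.symm φ) (v j)) := by
    funext φ j
    rcases j with t | t
    · simp only [Sum.elim_inl, map_sum, map_mul, map_natCast, Equiv.apply_symm_apply]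
    · simp only [Sum.elim_inr, map_sum, map_mul, map_natCast, Equiv.apply_symm_apply]
  rw [h7]
  exact h6

end Pool.Agent.UpLog
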