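import Mathlib
import Pool.Agent.UpLog.Defs
import Pool.Agent.UpLog.Basic
import Pool.Agent.helper22.Final
import Pool.Agent.Helper58.NF.Prod
import Pool.Agent.UpLog.CO
import Pool.Agent.UpLog.GB
import Pool.Agent.UpLog.BS

set_option autoImplicit false

/-!
# FB : the final theorem B
-/

namespace Pool.Agent.UpLog

open NumberField Module MvPolynomial

namespace FB

/-! ### the numerical part -/

/-- `log_2 q` is negligible -/
lemma eventually_small (Q : ℕ) (τ : ℝ) (hτ : 0 < τ) : ∀ᶠ n : ℕ in Filter.atTop,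
    2 + 2 * (Real.logb 2 ((Q : ℝ) * Real.log n + 1) + 1) ≤ τ * Real.logb 2 n := by
  have hlog2 : 0 < Real.log 2 := Real.log_pos (by norm_num)
  have h1 : (fun x : ℝ => Real.log x) =o[Filter.atTop] (fun x : ℝ => x) :=
    Real.isLittleO_log_id_atTop
  have hlog : Filter.Tendsto (fun n : ℕ => Real.log n) Filter.atTop Filter.atTop :=
    Real.tendsto_log_atTop.comp tendsto_natCast_atTop_atTop
  have hlin : Filter.Tendsto (fun n : ℕ => (Q : ℝ) * Real.log n + Real.log n)
      Filter.atTop Filter.atTop := by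
    apply Filter.tendsto_atTop_mono' _ _ hlog
    filter_upwards [hlog.eventually_ge_atTop 0] with n hn
    have : 0 ≤ (Q : ℝ) * Real.log n := by positivity
    linarith
  set ε : ℝ := τ / (4 * ((Q : ℝ) + 1)) with hε
  have hε0 : 0 < ε := by positivity
  have h2 := hlin.eventually (h1.def hε0)
  filter_upwards [h2, hlog.eventually_ge_atTop 1, hlog.eventually_ge_atTop (8 * Real.log 2 / τ)]
    with n hn hn1 hn2
  have hQ : (0 : ℝ) ≤ Q := Nat.cast_nonneg Q
  have hA : 1 ≤ (Q : ℝ) * Real.log n + 1 := by nlinarith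
  have h3 : Real.log ((Q : ℝ) * Real.log n + 1) ≤ Real.log ((Q : ℝ) * Real.log n + Real.log n) :=
    Real.log_le_log (by linarith) (by linarith)
  have h4 : Real.log ((Q : ℝ) * Real.log n + Real.log n) ≤
      ε * ((Q : ℝ) * Real.log n + Real.log n) := by
    have := hn
    rw [Real.norm_eq_abs, Real.norm_eq_abs] at this
    have h5 : 0 ≤ (Q : ℝ) * Real.log n + Real.log n := by nlinarith
    rw [abs_of_nonneg h5] at this
    exact (le_abs_self _).trans this
  have h5 : ε * ((Q : ℝ) * Real.log n + Real.log n) = τ / 4 * Real.log n := by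
    rw [hε]; field_simp
  rw [Real.logb, Real.logb]
  have h6 : Real.log ((Q : ℝ) * Real.log n + 1) ≤ τ / 4 * Real.log n := by
    rw [← h5]; exact h3.trans h4
  have h7 : 8 * Real.log 2 ≤ τ * Real.log n := by
    rw [div_le_iff₀ hτ] at hn2; linarith
  have h8 : 2 + 2 * (Real.log ((Q : ℝ) * Real.log n + 1) / Real.log 2 + 1) =
      (4 * Real.log 2 + 2 * Real.log ((Q : ℝ) * Real.log n + 1)) / Real.log 2 := by
    field_simp; ring
  rw [h8, ← mul_div_assoc, div_le_div_iff_of_pos_right hlog2]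
  nlinarith

lemma clog_le (b : ℕ) (hb : 1 < b) (x : ℕ) (hx : 1 ≤ x) : (Nat.clog b x : ℝ) ≤ Real.logb b x + 1 := by
  have hb' : (1 : ℝ) < b := by exact_mod_cast hb
  have hx' : (1 : ℝ) ≤ x := by exact_mod_cast hx
  rcases Nat.eq_zero_or_pos (Nat.clog b x) with h | h
  · rw [h]
    have := Real.logb_nonneg hb' hx'
    push_cast
    linarith
  · have hx2 : 1 < x := by
      by_contra hcon
      have h1 : x = 1 := by omega
      rw [h1, Nat.clog_one_right] at h
      exact lt_irrefl _ h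
    have h1 := Nat.pow_pred_clog_lt_self hb hx2
    have h2 : ((b : ℝ) ^ (Nat.clog b x).pred) < x := by exact_mod_cast h1
    have h3 : ((Nat.clog b x).pred : ℝ) ≤ Real.logb b x := by
      rw [Real.le_logb_iff_rpow_le hb' (by linarith), Real.rpow_natCast]
      exact h2.le
    have h4 : ((Nat.clog b x).pred : ℝ) = (Nat.clog b x : ℝ) - 1 := by
      rw [Nat.pred_eq_sub_one, Nat.cast_sub h]
      simp
    rw [h4] at h3
    linarith

lemma params (η : ℝ) (hη : 0 < η) : ∃ Q m : ℕ, 2 ≤ Q ∧ 1 ≤ m ∧ ∃ n0 : ℕ, ∀ n : ℕ, n0 ≤ n →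
    1 ≤ n ∧ n / Q < n ∧
    (n : ℝ) * (1 - ((n / Q + 1 : ℕ) : ℝ) / n) ^ (⌊(Q : ℝ) * Real.log n⌋₊ + 1) < 1 ∧
    ((n : ℝ) - (n / Q : ℕ)) ≤ (2 * Q : ℕ) * ((n / Q : ℕ) : ℝ) ∧
    (4 + 1 / (m : ℝ)) * (n * ((Nat.clog 2 (⌊(Q : ℝ) * Real.log n⌋₊ + 1) : ℝ) + Nat.clog 4 n)) /
      (2 * ((n : ℝ) - (n / Q : ℕ))) ≤ (1 + η) * Real.logb 2 n := by
  set x : ℝ := min η 1 / 8 with hx
  have hx0 : 0 < x := by
    have : 0 < min η 1 := lt_min hη one_pos
    positivity
  have hx1 : x ≤ 1 / 8 := by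
    rw [hx]
    have := min_le_right η 1
    linarith
  have hxη : 8 * x ≤ η := by
    rw [hx]
    have := min_le_left η 1
    linarith
  obtain ⟨m, hm⟩ := exists_nat_gt (1 / (4 * x))
  have hm0 : (0 : ℝ) < m := lt_trans (by positivity) hm
  have hm1 : 1 / (4 * (m : ℝ)) ≤ x := by
    rw [div_lt_iff₀ (by positivity)] at hm
    rw [div_le_iff₀ (by positivity)]
    linarith
  obtain ⟨Q', hQ'⟩ := exists_nat_gt (1 / x)
  set Q := Q' + 2 with hQ
  have hQr : (Q : ℝ) = Q' + 2 := by rw [hQ]; push_cast; ring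
  have hQ1 : (Q : ℝ) ≤ (1 + x) * ((Q : ℝ) - 1) := by
    rw [hQr]
    rw [div_lt_iff₀ hx0] at hQ'
    nlinarith
  refine ⟨Q, m, by omega, by exact_mod_cast (Nat.cast_pos.1 hm0), ?_⟩
  have hev := (eventually_small Q x hx0).and (Filter.eventually_ge_atTop (2 * Q))
  obtain ⟨n0, hn0⟩ := Filter.eventually_atTop.1 hev
  refine ⟨n0, fun n hn => ?_⟩
  obtain ⟨h1, h2⟩ := hn0 n hn
  have hn1 : 1 ≤ n := by omega
  have hnr : (0 : ℝ) < n := by exact_mod_cast hn1
  have hn1r : (1 : ℝ) ≤ n := by exact_mod_cast hn1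
  have hQ0 : (0 : ℝ) < Q := by rw [hQr]; positivity
  have hk1 : ((n / Q : ℕ) : ℝ) ≤ n / Q := Nat.cast_div_le
  have hk2 : (n : ℝ) / Q < ((n / Q + 1 : ℕ) : ℝ) := by
    rw [div_lt_iff₀ hQ0]
    have := Nat.lt_mul_div_succ n (show 0 < Q by omega)
    have h3 : (n : ℝ) < (Q : ℝ) * ((n / Q + 1 : ℕ) : ℝ) := by exact_mod_cast this
    linarith
  have hk3 : n / Q < n := Nat.div_lt_self hn1 (by omega)
  have hk4 : 2 ≤ n / Q := by
    rw [Nat.le_div_iff_mul_le (by omega)]
    exact h2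
  have hk4r : (2 : ℝ) ≤ ((n / Q : ℕ) : ℝ) := by exact_mod_cast hk4
  refine ⟨hn1, hk3, ?_, ?_, ?_⟩
  · -- covering condition
    set q := ⌊(Q : ℝ) * Real.log n⌋₊ + 1 with hq
    have hql : (Q : ℝ) * Real.log n < q := by
      rw [hq]; push_cast
      exact Nat.lt_floor_add_one _
    set y : ℝ := ((n / Q + 1 : ℕ) : ℝ) / n with hy
    have hy1 : 1 / (Q : ℝ) < y := by
      rw [hy, lt_div_iff₀ hnr]
      calc 1 / (Q : ℝ) * n = n / Q := by ring
        _ < _ := hk2
    have hy2 : y ≤ 1 := by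
      rw [hy, div_le_one hnr]
      exact_mod_cast hk3
    have h3 : 1 - y ≤ Real.exp (-y) := by
      have := Real.add_one_le_exp (-y)
      linarith
    have h4 : (1 - y) ^ q ≤ Real.exp (-y) ^ q := pow_le_pow_left₀ (by linarith) h3 q
    have h5 : Real.exp (-y) ^ q = Real.exp (-(y * q)) := by
      rw [← Real.exp_nat_mul]; congr 1; ring
    have h6 : Real.log n < y * q := by
      have hlog : 0 ≤ Real.log n := Real.log_nonneg hn1r
      have hq0 : (0 : ℝ) < q := by rw [hq]; positivity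
      calc Real.log n = 1 / (Q : ℝ) * ((Q : ℝ) * Real.log n) := by field_simp
        _ < 1 / (Q : ℝ) * q := by
            apply mul_lt_mul_of_pos_left hql (by positivity)
        _ ≤ y * q := by
            apply mul_le_mul_of_nonneg_right hy1.le hq0.le
    calc (n : ℝ) * (1 - y) ^ q ≤ n * Real.exp (-(y * q)) := by
          rw [← h5]; exact mul_le_mul_of_nonneg_left h4 hnr.le
      _ < n * Real.exp (-(Real.log n)) := by
          apply mul_lt_mul_of_pos_left _ hnr
          exact Real.exp_lt_exp.2 (by linarith)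
      _ = 1 := by rw [Real.exp_neg, Real.exp_log hnr]; field_simp
  · push_cast
    push_cast at hk2
    rw [div_lt_iff₀ hQ0] at hk2
    nlinarith
  · set a := Nat.clog 2 (⌊(Q : ℝ) * Real.log n⌋₊ + 1) with ha
    set r := Nat.clog 4 n with hr
    have hl2 : 0 < Real.log 2 := Real.log_pos (by norm_num)
    have hL : 0 ≤ Real.logb 2 n := Real.logb_nonneg (by norm_num) hn1r
    have hr1 : (r : ℝ) ≤ Real.logb 2 n / 2 + 1 := by
      have h3 := clog_le 4 (by norm_num) n hn1
      have h4 : Real.logb ((4 : ℕ) : ℝ) n = Real.logb 2 n / 2 := by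
        rw [Real.logb, Real.logb]
        have : Real.log ((4 : ℕ) : ℝ) = 2 * Real.log 2 := by
          rw [show ((4 : ℕ) : ℝ) = 2 ^ 2 by norm_num, Real.log_pow]
          norm_num
        rw [this]
        field_simp
      rw [h4] at h3
      exact h3
    have ha1 : (a : ℝ) ≤ Real.logb 2 ((Q : ℝ) * Real.log n + 1) + 1 := by
      have h3 := clog_le 2 (by norm_num) (⌊(Q : ℝ) * Real.log n⌋₊ + 1) (by omega)
      refine h3.trans ?_
      have hlog : 0 ≤ (Q : ℝ) * Real.log n := by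
        have := Real.log_nonneg hn1r
        positivity
      have h5 : Real.logb ((2 : ℕ) : ℝ) ((⌊(Q : ℝ) * Real.log n⌋₊ + 1 : ℕ) : ℝ) ≤
          Real.logb 2 ((Q : ℝ) * Real.log n + 1) := by
        rw [Nat.cast_ofNat]
        apply Real.logb_le_logb_of_le (by norm_num)
        · positivity
        · push_cast
          have := Nat.floor_le hlog
          linarith
      linarith
    have hd : 0 < (n : ℝ) - ((n / Q : ℕ) : ℝ) := by
      have : ((n / Q : ℕ) : ℝ) < n := by exact_mod_cast hk3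
      linarith
    have hra : 2 * ((a : ℝ) + r) ≤ (1 + x) * Real.logb 2 n := by
      nlinarith
    have hnd : (n : ℝ) ≤ (1 + x) * ((n : ℝ) - ((n / Q : ℕ) : ℝ)) := by
      have h3 : (n : ℝ) - n / Q ≤ (n : ℝ) - ((n / Q : ℕ) : ℝ) := by linarith
      have h4 : (n : ℝ) ≤ (1 + x) * ((n : ℝ) - n / Q) := by
        have h5 : (n : ℝ) - n / Q = n * ((Q - 1) / Q) := by field_simp
        rw [h5]
        have h6 : 1 ≤ (1 + x) * (((Q : ℝ) - 1) / Q) := by
          rw [← mul_div_assoc, le_div_iff₀ hQ0]; linarith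
        nlinarith
      nlinarith
    have hm2 : 4 + 1 / (m : ℝ) ≤ 4 * (1 + x) := by
      have : 1 / (m : ℝ) = 4 * (1 / (4 * (m : ℝ))) := by field_simp
      rw [this]; linarith
    rw [div_le_iff₀ (by linarith)]
    have har : 0 ≤ (a : ℝ) + r := by positivity
    have hmp : 0 ≤ 4 + 1 / (m : ℝ) := by positivity
    calc (4 + 1 / (m : ℝ)) * (n * ((a : ℝ) + r))
        ≤ (4 * (1 + x)) * (((1 + x) * ((n : ℝ) - ((n / Q : ℕ) : ℝ))) * ((a : ℝ) + r)) := by
          gcongr
      _ = (2 * (1 + x) ^ 2 * ((n : ℝ) - ((n / Q : ℕ) : ℝ))) * (2 * ((a : ℝ) + r)) := by ring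
      _ ≤ (2 * (1 + x) ^ 2 * ((n : ℝ) - ((n / Q : ℕ) : ℝ))) * ((1 + x) * Real.logb 2 n) := by
          apply mul_le_mul_of_nonneg_left hra
          positivity
      _ = (1 + x) ^ 3 * (Real.logb 2 n * (2 * ((n : ℝ) - ((n / Q : ℕ) : ℝ)))) := by ring
      _ ≤ (1 + η) * (Real.logb 2 n * (2 * ((n : ℝ) - ((n / Q : ℕ) : ℝ)))) := by
          apply mul_le_mul_of_nonneg_right _ (by positivity)
          nlinarith [sq_nonneg x, mul_pos hx0 hx0]
      _ = _ := by ring

/-! ### the points -/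

/-- a point which is good for `b = 1` generates the field -/
lemma adjoin_range_eq {K : Type} [Field K] {σ : Type} [Fintype σ]
    (L : IntermediateField K (AlgebraicClosure K)) (w : σ → ℕ) (d : ℕ) (x : σ → L)
    (h : Good K w d 1 x) :
    IntermediateField.adjoin K (Set.range fun j => ((x j : L) : AlgebraicClosure K)) = L := by
  apply le_antisymm
  · rw [IntermediateField.adjoin_le_iff]
    rintro _ ⟨j, rfl⟩
    exact (x j).2
  · intro y hy
    obtain ⟨f, -, hf⟩ := h (fun _ => ⟨y, hy⟩)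
    have h1 := hf 0 (by simp)
    rw [coeff_zero_tay] at h1
    have h2 : (aeval (fun j => ((x j : L) : AlgebraicClosure K)) f : AlgebraicClosure K) = y := by
      have h3 := congrArg (L.val) h1
      have h4 : L.val (aeval x f) = aeval (fun j => L.val (x j)) f :=
        MvPolynomial.comp_aeval_apply x L.val f
      rw [h4] at h3
      exact h3
    rw [← h2]
    have h5 : (aeval (fun j => ((x j : L) : AlgebraicClosure K)) f : AlgebraicClosure K) ∈
        Algebra.adjoin K (Set.range fun j => ((x j : L) : AlgebraicClosure K)) := by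
      rw [Algebra.adjoin_range_eq_range_aeval]
      exact ⟨f, rfl⟩
    exact IntermediateField.algebra_adjoin_le_adjoin K _ h5

lemma house_comb {L : Type} [Field L] [NumberField L] {m : ℕ} (c : Fin m → ℕ) (v : Fin m → L)
    (D : ℕ) (R : ℝ) (hc : ∀ l, c l ≤ D) (hv : ∀ l, house (v l) ≤ R) :
    house (∑ l, (c l : L) * v l) ≤ m * (D * R) := by
  refine (house_sum_le_sum_house _ _).trans ?_
  calc ∑ l, house ((c l : L) * v l) ≤ ∑ _l : Fin m, (D * R) := by
        apply Finset.sum_le_sum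
        intro l _
        rw [house_nat_mul]
        have h1 : (c l : ℝ) ≤ D := by exact_mod_cast hc l
        have h2 := house_nonneg (v l)
        exact mul_le_mul h1 (hv l) h2 (by positivity)
    _ = m * (D * R) := by simp

theorem count (K : Type) [Field K] [NumberField K] (n k q a r m m' : ℕ) (hn : 1 ≤ n) (hk : k < n)
    (hm : 1 ≤ m) (hm' : 1 ≤ m') (hr : n ≤ 4 ^ r) (ha : q ≤ 2 ^ a)
    (hq : (n : ℝ) * (1 - ((k + 1 : ℕ) : ℝ) / n) ^ q < 1) (hbs : (n : ℝ) - k ≤ m' * (k : ℝ)) :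
    ∃ C : ℝ, 0 < C ∧ ∀ X : ℝ, 1 ≤ X →
      ((Set.ncard {L : IntermediateField K (AlgebraicClosure K) | finrank K L = n ∧
        ∃ h : NumberField L, ((|@NumberField.discr L _ h| : ℤ) : ℝ) ≤ X} : ℕ) : ℝ) ≤
        C * X ^ ((4 + 1 / (m : ℝ)) * (n * ((a : ℝ) + r)) / (2 * ((n : ℝ) - k))) := by
  classical
  set δ := finrank ℚ K with hδ
  have hδ0 : 0 < δ := Module.finrank_pos
  have hδr : (0 : ℝ) < δ := by exact_mod_cast hδ0
  have hkr : (k : ℝ) < n := by exact_mod_cast hk
  have hnk : (0 : ℝ) < (n : ℝ) - k := by linarith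
  have hnr : (0 : ℝ) < n := by exact_mod_cast hn
  set w : Fin a ⊕ Fin r → ℕ := Sum.elim (fun _ => 2) (fun _ => 1) with hw
  have hw1 : ∀ j, 1 ≤ w j := by
    rintro (j | j) <;> simp [hw]
  obtain ⟨B, hB1, hcore⟩ := core K n 4 (3 * r + 2 * a) m w hn (by norm_num) hm hw1
  obtain ⟨D, hD⟩ := exists_tuple n (k + 1) q a r B hn (by omega) hr ha hq
  obtain ⟨Cb, hCb, hbasis⟩ := small_basis' δ n m' hm'
  set CV := Pool.Agent.Helper58.NF.CM (δ * n) with hCV
  have hCV1 : 1 ≤ CV := Pool.Agent.Helper58.NF.CM_one_le _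
  set C₁ : ℝ := 1 + n * (D * Cb) + ((k + 1 : ℕ) : ℝ) * (D * CV) with hC₁
  have hC₁1 : 1 ≤ C₁ := by
    have : 0 ≤ (n : ℝ) * (D * Cb) := by positivity
    have : 0 ≤ ((k + 1 : ℕ) : ℝ) * (D * CV) := by positivity
    rw [hC₁]; linarith
  obtain ⟨C, hC, hT⟩ := hcore (2 * δ * (n - k)) C₁ hC₁1
  refine ⟨C, hC, fun X hX => ?_⟩
  have hX0 : 0 < X := by linarith
  set S := {L : IntermediateField K (AlgebraicClosure K) | finrank K L = n ∧
        ∃ h : NumberField L, ((|@NumberField.discr L _ h| : ℤ) : ℝ) ≤ X} with hS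
  set ex : ℝ := 1 / (2 * (δ : ℝ) * ((n : ℝ) - k)) with hex
  have hex0 : 0 < ex := by rw [hex]; positivity
  set Y : ℝ := X ^ ex with hY
  have hY1 : 1 ≤ Y := Real.one_le_rpow hX hex0.le
  -- the choice of a point
  have key : ∀ L ∈ S, ∃ z : Fin a ⊕ Fin r → AlgebraicClosure K,
      IntermediateField.adjoin K (Set.range z) = L ∧
      ∃ (L : IntermediateField K (AlgebraicClosure K)) (_ : NumberField L)
          (x : Fin a ⊕ Fin r → 𝓞 L), (∀ j, z j = (((x j : 𝓞 L) : L) : AlgebraicClosure K)) ∧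
            Adm K n 4 (3 * r + 2 * a) B w (2 * δ * (n - k)) C₁ Y L x := by
    rintro L ⟨hLn, hnf, hdisc⟩
    have hfd : FiniteDimensional K L := Module.finite_of_finrank_pos (by omega)
    have hLQ : finrank ℚ L = δ * n := by
      rw [← Module.finrank_mul_finrank ℚ K L, hLn]
    have hdisc' : (|discr L| : ℝ) ≤ X := by
      have := hdisc
      push_cast at this
      exact this
    obtain ⟨u, hu, hu'⟩ := hbasis K L rfl hLn X hX hdisc'
    have h1 := Pool.Agent.Helper58.NF.small_span K L k (by omega) hX hdisc'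
    obtain ⟨v, hvS, hv⟩ := Pool.Agent.Helper58.NF.exists_indep _ (k + 1) h1
    obtain ⟨e, c, he, hc, hgood⟩ := hD K L hLn u v hu hv
    have hvh : ∀ j, house (v j) ≤ CV * Y := by
      intro j
      have h2 := (hvS j).2
      rw [hLQ, hLn] at h2
      exact h2
    have huh : ∀ j, house (u j) ≤ Cb * Y ^ 2 := by
      intro j
      refine (hu' j).2.trans ?_
      apply mul_le_mul_of_nonneg_left _ (by linarith)
      rw [hY, ← Real.rpow_natCast, ← Real.rpow_mul hX0.le]
      apply Real.rpow_le_rpow_of_exponent_le hX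
      rw [hex]
      have hm'r : (0 : ℝ) < m' := by exact_mod_cast hm'
      have h3 : 1 / (2 * (δ : ℝ) * ((n : ℝ) - k)) * ((2 : ℕ) : ℝ) = 1 / ((δ : ℝ) * ((n : ℝ) - k)) := by
        push_cast; field_simp
      rw [h3, div_le_div_iff₀ (by positivity) (by positivity)]
      have h4 : (1 + 1 / (m' : ℝ)) * ((n : ℝ) - k) ≤ n := by
        have h5 : 1 / (m' : ℝ) * ((n : ℝ) - k) ≤ k := by
          rw [one_div, inv_mul_eq_div, div_le_iff₀ hm'r]
          linarith
        linarith
      nlinarith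
    have hY2 : Y ≤ Y ^ 2 := by nlinarith
    set xL : Fin a ⊕ Fin r → L :=
      Sum.elim (fun i => ∑ j, (e i j : L) * u j) (fun i => ∑ j, (c i j : L) * v j) with hxL
    have hnat : ∀ t : ℕ, IsIntegral ℤ ((t : ℕ) : L) := by
      intro t
      have := isIntegral_algebraMap (R := ℤ) (A := L) (x := (t : ℤ))
      simpa using this
    have hint : ∀ j, IsIntegral ℤ (xL j) := by
      rintro (i | i)
      · simp only [hxL, Sum.elim_inl]
        exact IsIntegral.sum _ fun j _ => (hnat (e i j)).mul (hu' j).1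
      · simp only [hxL, Sum.elim_inr]
        exact IsIntegral.sum _ fun j _ => (hnat (c i j)).mul (hvS j).1
    have hgood' : ∀ b, 1 ≤ b → b ≤ B → Good K w (4 * (b - 1) + (3 * r + 2 * a)) b xL :=
      fun b hb hb' => hgood b hb hb'
    refine ⟨fun j => ((xL j : L) : AlgebraicClosure K), ?_, L, hnf, fun j => ⟨xL j, hint j⟩,
      fun j => rfl, ?_⟩
    · exact adjoin_range_eq L w _ xL (hgood' 1 le_rfl hB1)
    · refine ⟨hLn, ?_, ?_, ?_⟩
      · rintro (i | i)
        · have h6 : house (xL (Sum.inl i)) ≤ n * (D * (Cb * Y ^ 2)) :=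
            house_comb (fun j => e i j) u D _ (fun j => he i j) huh
          refine h6.trans ?_
          have h7 : w (Sum.inl i) = 2 := rfl
          rw [h7]
          have h8 : (n : ℝ) * (D * (Cb * Y ^ 2)) = (n * (D * Cb)) * Y ^ 2 := by ring
          rw [h8]
          apply mul_le_mul_of_nonneg_right _ (by positivity)
          have : 0 ≤ ((k + 1 : ℕ) : ℝ) * (D * CV) := by positivity
          rw [hC₁]; linarith
        · have h6 : house (xL (Sum.inr i)) ≤ ((k + 1 : ℕ) : ℝ) * (D * (CV * Y)) :=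
            house_comb (fun j => c i j) v D _ (fun j => hc i j) hvh
          refine h6.trans ?_
          have h7 : w (Sum.inr i) = 1 := rfl
          rw [h7, pow_one]
          have h8 : ((k + 1 : ℕ) : ℝ) * (D * (CV * Y)) = (((k + 1 : ℕ) : ℝ) * (D * CV)) * Y := by ring
          rw [h8]
          apply mul_le_mul_of_nonneg_right _ (by positivity)
          have : 0 ≤ (n : ℝ) * (D * Cb) := by positivity
          rw [hC₁]; linarith
      · have h6 : Y ^ (2 * δ * (n - k)) = X := by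
          rw [hY, ← Real.rpow_natCast, ← Real.rpow_mul hX0.le]
          have h7 : ex * ((2 * δ * (n - k) : ℕ) : ℝ) = 1 := by
            rw [hex]
            push_cast [Nat.cast_sub hk.le]
            field_simp
          rw [h7, Real.rpow_one]
        rw [h6]
        refine hdisc'.trans ?_
        nlinarith
      · intro b hb hb'
        exact hgood' b hb hb'
  choose! Z hZ1 hZ2 using key
  have hinj : Set.InjOn Z S := by
    intro L hL L' hL' h
    rw [← hZ1 L hL, ← hZ1 L' hL', h]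
  have h1 := hT Y hY1 (Z '' S) (by
    rintro _ ⟨L, hL, rfl⟩
    exact hZ2 L hL)
  rw [← hinj.ncard_image]
  refine h1.2.trans ?_
  apply mul_le_mul_of_nonneg_left _ hC.le
  rw [hY, ← Real.rpow_mul hX0.le]
  apply Real.rpow_le_rpow_of_exponent_le hX
  apply le_of_eq
  rw [hex]
  simp only [Fintype.card_sum, Fintype.card_fin]
  push_cast
  rw [← hδ]
  field_simp

end FB

theorem final_B (η : ℝ) (hη : 0 < η) : ∃ n0 : ℕ, ∀ n : ℕ, n0 ≤ n →
    ∀ (K : Type) [Field K] [NumberField K], ∃ C : ℝ, 0 < C ∧ ∀ X : ℝ, 1 ≤ X →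
      {L : IntermediateField K (AlgebraicClosure K) | finrank K L = n ∧
        ∃ h : NumberField L, ((|@NumberField.discr L _ h| : ℤ) : ℝ) ≤ X}.Finite ∧
      ((Set.ncard {L : IntermediateField K (AlgebraicClosure K) | finrank K L = n ∧
        ∃ h : NumberField L, ((|@NumberField.discr L _ h| : ℤ) : ℝ) ≤ X} : ℕ) : ℝ) ≤
        C * X ^ ((1 + η) * Real.logb 2 n) := by
  obtain ⟨Q, m, hQ, hm, n0, hn0⟩ := FB.params η hη
  refine ⟨n0, fun n hn K _ _ => ?_⟩
  obtain ⟨h1, h2, h3, h4, h5⟩ := hn0 n hn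
  obtain ⟨C, hC, hb⟩ := FB.count K n (n / Q) (⌊(Q : ℝ) * Real.log n⌋₊ + 1)
    (Nat.clog 2 (⌊(Q : ℝ) * Real.log n⌋₊ + 1)) (Nat.clog 4 n) m (2 * Q) h1 h2 hm (by omega)
    (Nat.le_pow_clog (by norm_num) n) (Nat.le_pow_clog (by norm_num) _) h3 h4
  refine ⟨C, hC, fun X hX => ⟨Pool.Agent.helper22.finite_problem_set K n X, ?_⟩⟩
  refine (hb X hX).trans ?_
  apply mul_le_mul_of_nonneg_left _ hC.le
  exact Real.rpow_le_rpow_of_exponent_le hX h5

end Pool.Agent.UpLog
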