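import Mathlib
import Pool.Agent.UpLog.Defs
import Pool.Agent.UpLog.OP
import Pool.Agent.UpLog.GD
import Pool.Agent.UpLog.TR

set_option autoImplicit false

namespace Pool.Agent.UpLog.GA

open NumberField Module MvPolynomial

theorem goodC_reindex {σ : Type} [Fintype σ] {ι κ Ω : Type} [CommRing Ω] (e : κ ≃ ι)
    (w : σ → ℕ) (d b : ℕ) (z : ι → σ → Ω) (h : GoodC w d b z) :
    GoodC w d b (fun i : κ => z (e i)) := by
  intro u
  obtain ⟨f, hf, hf2⟩ := h fun i => u (e.symm i)
  refine ⟨f, hf, ?_⟩
  intro i β hβ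
  have := hf2 (e i) β hβ
  simpa using this

/-- solving for a linear combination with prescribed images under all embeddings -/
theorem exists_solve {K L Ω : Type} [Field K] [Field L] [Algebra K L] [Field Ω] [Algebra K Ω]
    {n : ℕ} (hn : finrank K L = n) [FiniteDimensional K L] (φ : Fin n → (L →ₐ[K] Ω))
    (hφ : Function.Injective φ) (u : Fin n → L) (hu : LinearIndependent K u) (t : Fin n → Ω) :
    ∃ c : Fin n → Ω, ∀ i, ∑ l, φ i (u l) * c l = t i := by
  let M : Matrix (Fin n) (Fin n) Ω := Matrix.of fun i l => φ i (u l)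
  have hinj : Function.Injective M.vecMul := by
    rw [← Matrix.coe_vecMulLinear]
    rw [← LinearMap.ker_eq_bot, LinearMap.ker_eq_bot']
    intro a ha
    have h1 : ∀ l, ∑ i, a i * φ i (u l) = 0 := by
      intro l
      have := congrFun ha l
      simpa [Matrix.vecMul, dotProduct, M] using this
    have h2 : ∀ y : L, ∑ i, a i * φ i y = 0 := by
      intro y
      have hspan : y ∈ Submodule.span K (Set.range u) := by
        rw [hu.span_eq_top_of_card_eq_finrank' (by simp [hn])]
        exact Submodule.mem_top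
      induction hspan using Submodule.span_induction with
      | mem x hx =>
        obtain ⟨l, rfl⟩ := hx
        exact h1 l
      | zero => simp
      | add x y _ _ hx hy =>
        simp only [map_add, mul_add, Finset.sum_add_distrib, hx, hy, add_zero]
      | smul c x _ hx =>
        have : ∀ i, a i * φ i (c • x) = c • (a i * φ i x) := by
          intro i
          rw [map_smul, mul_smul_comm]
        simp only [this]
        rw [← Finset.smul_sum, hx, smul_zero]
    have h3 := linearIndependent_toLinearMap K L Ω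
    have h4 := h3.comp φ hφ
    rw [Fintype.linearIndependent_iff] at h4
    funext i
    refine h4 a ?_ i
    ext y
    simpa using h2 y
  have hunit : IsUnit M := Matrix.vecMul_injective_iff_isUnit.mp hinj
  have hsurj := Matrix.mulVec_surjective_iff_isUnit.mpr hunit
  obtain ⟨c, hc⟩ := hsurj t
  refine ⟨c, fun i => ?_⟩
  have := congrFun hc i
  simpa [Matrix.mulVec, dotProduct, M] using this

theorem totalDegree_q {Ω : Type} [Field Ω] {n r : ℕ} (a : Ω) (v : Fin n → Ω) (j : Fin r) :
    (C a + ∑ l : Fin n, C (v l) * X (finProdFinEquiv (j, l)) :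
      MvPolynomial (Fin (r * n)) Ω).totalDegree ≤ 1 := by
  refine (totalDegree_add _ _).trans (max_le ?_ ?_)
  · rw [totalDegree_C]
    exact Nat.zero_le _
  · refine totalDegree_finsetSum_le ?_
    intro l _
    refine (totalDegree_mul _ _).trans ?_
    rw [totalDegree_C, totalDegree_X]

theorem eval_q {Ω : Type} [Field Ω] {n r : ℕ} (a : Ω) (v : Fin n → Ω) (j : Fin r)
    (c : Fin (r * n) → Ω) :
    eval c (C a + ∑ l : Fin n, C (v l) * X (finProdFinEquiv (j, l)) :
      MvPolynomial (Fin (r * n)) Ω) = a + ∑ l, v l * c (finProdFinEquiv (j, l)) := by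
  simp

/-- Schwartz-Zippel for boxes of natural numbers: at least half of the points are non-zeros -/
theorem half_nonzero {Ω : Type} [Field Ω] [CharZero Ω] {n r : ℕ} (D0 D : ℕ) (hD : 2 * D0 ≤ D)
    (F : MvPolynomial (Fin (r * n)) Ω) (hF : F ≠ 0) (hdeg : F.totalDegree ≤ D0) :
    ∃ N : Finset (Fin r → Fin n → ℕ), (∀ c ∈ N, (∀ i j, c i j ≤ D) ∧
      eval (fun p => ((c (finProdFinEquiv.symm p).1 (finProdFinEquiv.symm p).2 : ℕ) : Ω)) F ≠ 0) ∧
      (D + 1) ^ (r * n) ≤ 2 * N.card := by
  classical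
  let Θ : (Fin r → Fin n → ℕ) → (Fin (r * n) → Ω) := fun c p =>
    ((c (finProdFinEquiv.symm p).1 (finProdFinEquiv.symm p).2 : ℕ) : Ω)
  have hΘ : Function.Injective Θ := by
    intro c c' h
    funext i j
    have := congrFun h (finProdFinEquiv (i, j))
    simp only [Θ, Equiv.symm_apply_apply] at this
    exact_mod_cast this
  let Box : Finset (Fin r → Fin n → ℕ) := Fintype.piFinset fun _ => Fintype.piFinset fun _ =>
    Finset.range (D + 1)
  have hBox : Box.card = (D + 1) ^ (r * n) := by
    simp only [Box, Fintype.card_piFinset, Finset.card_range, Finset.prod_const, Finset.card_univ,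
      Fintype.card_fin]
    rw [← pow_mul, mul_comm]
  let S : Finset Ω := (Finset.range (D + 1)).image fun m : ℕ => (m : Ω)
  have hS : S.card = D + 1 := by
    rw [Finset.card_image_of_injective _ Nat.cast_injective, Finset.card_range]
  have hz : (Box.filter fun c => eval (Θ c) F = 0).card ≤
      ((Fintype.piFinset fun _ : Fin (r * n) => S).filter fun f => eval f F = 0).card := by
    refine Finset.card_le_card_of_injOn Θ ?_ (hΘ.injOn)
    intro c hc
    rw [Finset.mem_coe, Finset.mem_filter] at hc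
    rw [Finset.mem_coe, Finset.mem_filter]
    refine ⟨?_, hc.2⟩
    rw [Fintype.mem_piFinset]
    intro p
    refine Finset.mem_image.mpr ⟨_, ?_, rfl⟩
    have h1 := (Fintype.mem_piFinset.mp hc.1) (finProdFinEquiv.symm p).1
    exact (Fintype.mem_piFinset.mp h1) (finProdFinEquiv.symm p).2
  have hsz := schwartz_zippel_totalDegree hF S
  rw [hS] at hsz
  have hpos : (0 : ℚ≥0) < ((D + 1 : ℕ) : ℚ≥0) ^ (r * n) := by positivity
  have hpos2 : (0 : ℚ≥0) < ((D + 1 : ℕ) : ℚ≥0) := by positivity
  rw [div_le_div_iff₀ hpos hpos2] at hsz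
  have hsz' : ((Fintype.piFinset fun _ : Fin (r * n) => S).filter fun f => eval f F = 0).card *
      (D + 1) ≤ F.totalDegree * (D + 1) ^ (r * n) := by exact_mod_cast hsz
  have hzero : 2 * (Box.filter fun c => eval (Θ c) F = 0).card ≤ (D + 1) ^ (r * n) := by
    have h1 : 2 * (Box.filter fun c => eval (Θ c) F = 0).card * (D + 1) ≤
        (D + 1) ^ (r * n) * (D + 1) := by
      calc 2 * (Box.filter fun c => eval (Θ c) F = 0).card * (D + 1)
          ≤ 2 * (F.totalDegree * (D + 1) ^ (r * n)) := by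
            rw [mul_assoc]
            exact Nat.mul_le_mul_left 2 ((Nat.mul_le_mul_right _ hz).trans hsz')
        _ ≤ 2 * (D0 * (D + 1) ^ (r * n)) :=
            Nat.mul_le_mul_left 2 (Nat.mul_le_mul_right _ hdeg)
        _ = (2 * D0) * (D + 1) ^ (r * n) := by ring
        _ ≤ (D + 1) * (D + 1) ^ (r * n) := Nat.mul_le_mul_right _ (by omega)
        _ = (D + 1) ^ (r * n) * (D + 1) := by ring
    exact Nat.le_of_mul_le_mul_right h1 (by omega)
  refine ⟨Box.filter fun c => ¬ eval (Θ c) F = 0, ?_, ?_⟩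
  · intro c hc
    rw [Finset.mem_filter] at hc
    refine ⟨?_, hc.2⟩
    intro i j
    have h1 := (Fintype.mem_piFinset.mp hc.1) i
    have h2 := (Fintype.mem_piFinset.mp h1) j
    rw [Finset.mem_range] at h2
    omega
  · have hsum := Finset.card_filter_add_card_filter_not (s := Box) fun c => eval (Θ c) F = 0
    rw [hBox] at hsum
    omega

end Pool.Agent.UpLog.GA

namespace Pool.Agent.UpLog

open NumberField Module MvPolynomial

theorem many_tuples (n k r B : ℕ) (hn : 1 ≤ n) (hk : 1 ≤ k) (hr : n ≤ k ^ r) :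
    ∃ D : ℕ, ∀ (K L : Type) [Field K] [CharZero K] [Field L] [Algebra K L]
      [FiniteDimensional K L], finrank K L = n →
      ∀ (u : Fin n → L), LinearIndependent K u → ∀ x : Fin r → L,
      (D + 1) ^ (r * n) ≤ 2 * {c : Fin r → Fin n → ℕ | (∀ i j, c i j ≤ D) ∧ ∀ b, 1 ≤ b → b ≤ B →
        Good K (fun _ : Fin r => 1) (k * (b - 1) + r * (k - 1)) b
          (fun i => x i + ∑ j, (c i j : L) * u j)}.ncard := by
  classical
  have hop := fun b : ℕ => open_good (σ := Fin r) (ι := Fin n) (P := Fin (r * n)) (fun _ => 1)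
    (fun _ => le_rfl) (k * (b - 1) + r * (k - 1)) b
  choose Db hDb using hop
  refine ⟨2 * ∑ b ∈ Finset.Icc 1 B, Db b, ?_⟩
  intro K L _ _ _ _ _ hnL u hu x
  let Ω := AlgebraicClosure K
  have hcard : Fintype.card (L →ₐ[K] Ω) = n := by
    rw [AlgHom.card, hnL]
  let e : (L →ₐ[K] Ω) ≃ Fin n := Fintype.equivFinOfCardEq hcard
  let φ : Fin n → (L →ₐ[K] Ω) := e.symm
  have hφ : Function.Injective φ := e.symm.injective
  -- an injection of the embeddings in the grid
  have hl : ∃ l : Fin n → Fin r → ℕ, Function.Injective l ∧ ∀ i j, l i j < k := by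
    have hc : Fintype.card (Fin n) ≤ Fintype.card (Fin r → Fin k) := by
      simpa using hr
    obtain ⟨f⟩ := Function.Embedding.nonempty_of_card_le hc
    refine ⟨fun i j => (f i j : ℕ), ?_, fun i j => (f i j).2⟩
    intro a b hab
    apply f.injective
    funext j
    exact Fin.ext (congrFun hab j)
  obtain ⟨l, hlinj, hlk⟩ := hl
  -- the parameters giving the grid
  have hsol : ∀ j : Fin r, ∃ c : Fin n → Ω, ∀ i, ∑ m, φ i (u m) * c m = (l i j : Ω) - φ i (x j) :=
    fun j => GA.exists_solve hnL φ hφ u hu _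
  choose c0 hc0 using hsol
  let q : Fin n → Fin r → MvPolynomial (Fin (r * n)) Ω := fun i j =>
    C (φ i (x j)) + ∑ m : Fin n, C (φ i (u m)) * X (finProdFinEquiv (j, m))
  have hq1 : ∀ i j, (q i j).totalDegree ≤ 1 := fun i j => GA.totalDegree_q _ _ _
  let c1 : Fin (r * n) → Ω := fun p => c0 (finProdFinEquiv.symm p).1 (finProdFinEquiv.symm p).2
  have hq2 : ∀ i j, eval c1 (q i j) = (l i j : Ω) := by
    intro i j
    rw [GA.eval_q]
    simp only [c1, Equiv.symm_apply_apply]
    rw [hc0 j i]
    ring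
  have hgood : ∀ b, GoodC (fun _ : Fin r => 1) (k * (b - 1) + r * (k - 1)) b
      (fun i j => eval c1 (q i j)) := by
    intro b
    have h := grid_good (Ω := Ω) (ι := Fin n) (τ := Fin r) (fun _ => k) (fun _ => 1) k
      (fun _ => by simp) l hlinj hlk b
    have e1 : ∑ _j : Fin r, 1 * (k - 1) = r * (k - 1) := by simp
    rw [e1] at h
    have e2 : (fun i j => eval c1 (q i j)) = fun i j => (l i j : Ω) := by
      funext i j
      exact hq2 i j
    rw [e2]
    exact h
  have hF := fun b : ℕ => hDb b Ω q hq1 c1 (hgood b)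
  choose F hF1 hF2 hF3 using hF
  let P : MvPolynomial (Fin (r * n)) Ω := ∏ b ∈ Finset.Icc 1 B, F b
  have hP0 : P ≠ 0 := by
    intro h
    have h1 : eval c1 P = 0 := by rw [h, map_zero]
    rw [map_prod] at h1
    obtain ⟨b, _, hb⟩ := Finset.prod_eq_zero_iff.mp h1
    exact hF2 b hb
  have hPdeg : P.totalDegree ≤ ∑ b ∈ Finset.Icc 1 B, Db b :=
    (totalDegree_finsetProd _ _).trans (Finset.sum_le_sum fun b _ => hF1 b)
  obtain ⟨N, hN1, hN2⟩ := GA.half_nonzero _ _ le_rfl P hP0 hPdeg
  refine hN2.trans (Nat.mul_le_mul_left 2 ?_)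
  rw [← Set.ncard_coe_finset]
  refine Set.ncard_le_ncard ?_ ?_
  · intro c hc
    obtain ⟨hcD, hcP⟩ := hN1 c hc
    refine ⟨hcD, ?_⟩
    intro b hb1 hbB
    rw [map_prod] at hcP
    have hcb := (Finset.prod_ne_zero_iff.mp hcP) b (Finset.mem_Icc.mpr ⟨hb1, hbB⟩)
    have h1 := hF3 b _ hcb
    have h2 := GA.goodC_reindex e _ _ _ _ h1
    refine good_of_embeddings (Ω := Ω) _ _ _ _ ?_
    have h3 : (fun (ψ : L →ₐ[K] Ω) (j : Fin r) => ψ (x j + ∑ m, (c j m : L) * u m)) =
        fun ψ j => eval (fun p => ((c (finProdFinEquiv.symm p).1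
          (finProdFinEquiv.symm p).2 : ℕ) : Ω)) (q (e ψ) j) := by
      funext ψ j
      rw [GA.eval_q]
      simp only [φ, Equiv.symm_apply_apply]
      rw [map_add, map_sum]
      congr 1
      refine Finset.sum_congr rfl fun m _ => ?_
      rw [map_mul, map_natCast, mul_comm]
    rw [h3]
    exact h2
  · refine Set.Finite.subset (Finset.finite_toSet (Fintype.piFinset fun _ : Fin r =>
      Fintype.piFinset fun _ : Fin n => Finset.range (2 * ∑ b ∈ Finset.Icc 1 B, Db b + 1))) ?_
    intro c hc
    rw [Finset.mem_coe, Fintype.mem_piFinset]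
    intro i
    rw [Fintype.mem_piFinset]
    intro j
    rw [Finset.mem_range]
    have := hc.1 i j
    omega

end Pool.Agent.UpLog
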