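import Mathlib
import Pool.Agent.UpLog.Defs
import Pool.Agent.UpLog.BS
import Pool.Agent.UpLog.GA
import Pool.Agent.Helper58.NF.Mink

set_option autoImplicit false

/-!
# Each number field contains many tuples in general position
-/

namespace Pool.Agent.UpLog

open NumberField Module MvPolynomial

namespace TC

/-- double counting: translates -/
theorem double_count {α : Type*} [AddCommGroup α] {γ : Type*} (P : Finset γ) (t : γ → α)
    (T G : Set α) (hT : T.Finite) (hG : G.Finite) (hM : 0 < P.card)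
    (h : ∀ x ∈ T, P.card ≤ 2 * {c : γ | c ∈ P ∧ x + t c ∈ G}.ncard) :
    T.ncard ≤ 2 * G.ncard := by
  classical
  have hTf := hT
  set T' := hT.toFinset with hT'
  set G' := hG.toFinset with hG'
  have e1 : T.ncard = T'.card := Set.ncard_eq_toFinset_card T hT
  have e2 : G.ncard = G'.card := Set.ncard_eq_toFinset_card G hG
  have e3 : ∀ x, {c : γ | c ∈ P ∧ x + t c ∈ G}.ncard = (P.filter fun c => x + t c ∈ G').card := by
    intro x
    rw [← Set.ncard_coe_finset]
    congr 1
    ext c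
    simp [hG']
  have h1 : P.card * T'.card ≤ 2 * (P.card * G'.card) := by
    calc P.card * T'.card = ∑ x ∈ T', P.card := by
          rw [Finset.sum_const, smul_eq_mul, mul_comm]
      _ ≤ ∑ x ∈ T', 2 * (P.filter fun c => x + t c ∈ G').card := by
          refine Finset.sum_le_sum fun x hx => ?_
          rw [← e3]
          exact h x (hT.mem_toFinset.1 hx)
      _ = 2 * ∑ x ∈ T', (P.filter fun c => x + t c ∈ G').card := by rw [Finset.mul_sum]
      _ = 2 * ∑ c ∈ P, (T'.filter fun x => x + t c ∈ G').card := by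
          congr 1
          exact Finset.sum_card_bipartiteAbove_eq_sum_card_bipartiteBelow _
      _ ≤ 2 * ∑ c ∈ P, G'.card := by
          refine Nat.mul_le_mul_left _ (Finset.sum_le_sum fun c _ => ?_)
          refine Finset.card_le_card_of_injOn (fun x => x + t c) ?_ ?_
          · intro x hx
            simp only [Finset.coe_filter, Set.mem_ofPred_eq] at hx
            exact hx.2
          · intro x _ y _ hxy
            exact add_right_cancel hxy
      _ = 2 * (P.card * G'.card) := by rw [Finset.sum_const, smul_eq_mul]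
  rw [e1, e2]
  have h2 : P.card * T'.card ≤ P.card * (2 * G'.card) := by
    calc _ ≤ _ := h1
      _ = _ := by ring
  exact Nat.le_of_mul_le_mul_left h2 hM

/-- tuples from a finite set -/
theorem ncard_pi {β : Type*} (S : Set β) (hS : S.Finite) (r : ℕ) :
    {x : Fin r → β | ∀ j, x j ∈ S}.Finite ∧ {x : Fin r → β | ∀ j, x j ∈ S}.ncard = S.ncard ^ r := by
  classical
  have h1 : {x : Fin r → β | ∀ j, x j ∈ S} =
      ((Fintype.piFinset fun _ : Fin r => hS.toFinset : Finset (Fin r → β)) : Set (Fin r → β)) := by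
    ext x
    simp
  rw [h1]
  refine ⟨Finset.finite_toSet _, ?_⟩
  rw [Set.ncard_coe_finset, Fintype.card_piFinset]
  simp [Set.ncard_eq_toFinset_card S hS]

end TC

theorem tuple_count (K : Type) [Field K] [NumberField K] (n k r B m : ℕ) (hn : 1 ≤ n) (hk : 1 ≤ k)
    (hr : n ≤ k ^ r) (hm : 1 ≤ m) :
    ∃ C c : ℝ, 1 ≤ C ∧ 0 < c ∧ ∀ (L : Type) [Field L] [NumberField L] [Algebra K L],
      finrank K L = n → ∀ X : ℝ, 1 ≤ X → (|discr L| : ℝ) ≤ X →
      c * X ^ ((r : ℝ) / 2) ≤ {x : Fin r → 𝓞 L |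
        (∀ j, house ((x j : 𝓞 L) : L) ≤ C * X ^ ((1 + 1 / (m : ℝ)) / (finrank ℚ K * n))) ∧
        ∀ b, 1 ≤ b → b ≤ B → Good K (fun _ : Fin r => 1) (k * (b - 1) + r * (k - 1)) b
          (fun j => ((x j : 𝓞 L) : L))}.ncard := by
  classical
  obtain ⟨Cb, hCb, hbasis⟩ := small_basis' (finrank ℚ K) n m hm
  obtain ⟨D, hD⟩ := many_tuples n k r B hn hk hr
  have hδ : 0 < finrank ℚ K := finrank_pos
  have hvol : 0 < Helper58.NF.vol (finrank ℚ K * n) := Helper58.NF.vol_pos _
  refine ⟨Cb * (1 + n * D), (Helper58.NF.vol (finrank ℚ K * n) / 3 ^ (finrank ℚ K * n)) ^ r / 2,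
    ?_, by positivity, ?_⟩
  · have : (1 : ℝ) ≤ 1 + n * D := by
      have : (0 : ℝ) ≤ (n : ℝ) * D := by positivity
      linarith
    nlinarith
  intro L _ _ _ hL X hX hdisc
  obtain ⟨u, hu, huB⟩ := hbasis K L rfl hL X hX hdisc
  have hX0 : (0 : ℝ) < X := by linarith
  have hm0 : (0 : ℝ) < m := by exact_mod_cast hm
  have hn0 : (0 : ℝ) < n := by exact_mod_cast hn
  have hδ0 : (0 : ℝ) < (finrank ℚ K : ℝ) := by exact_mod_cast hδ
  set e : ℝ := (1 + 1 / (m : ℝ)) / ((finrank ℚ K : ℝ) * n) with he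
  have he0 : 0 ≤ e := by positivity
  set R : ℝ := Cb * X ^ e with hRdef
  have hXe : 1 ≤ X ^ e := Real.one_le_rpow hX he0
  have hR0 : 0 < R := by positivity
  have hXR : X ^ e ≤ R := by rw [hRdef]; nlinarith
  -- the set of integers of house at most `R`
  have hfinL : finrank ℚ L = finrank ℚ K * n := by
    rw [← hL]; exact (Module.finrank_mul_finrank ℚ K L).symm
  set S : Set (𝓞 L) := {x | house ((x : 𝓞 L) : L) ≤ R} with hS
  have hSfin : S.Finite := helper22.finite_house_le L R
  have hcnt : Helper58.NF.vol (finrank ℚ K * n) / 3 ^ (finrank ℚ K * n) * X ^ (1 / 2 : ℝ) ≤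
      (S.ncard : ℝ) := by
    have h1 := Helper58.NF.cnt_lower_uniform L hR0
    rw [hfinL] at h1
    have h2 : (S.ncard : ℝ) = (helper22.cnt L R : ℝ) := rfl
    rw [h2]
    refine le_trans ?_ h1
    have h3 : X ≤ R ^ (finrank ℚ K * n) := by
      have h4 : X ≤ (X ^ e) ^ (finrank ℚ K * n) := by
        rw [← Real.rpow_natCast, ← Real.rpow_mul hX0.le]
        have h5 : e * ((finrank ℚ K * n : ℕ) : ℝ) = 1 + 1 / (m : ℝ) := by
          rw [he]; push_cast; field_simp
        rw [h5]
        calc X = X ^ (1 : ℝ) := (Real.rpow_one X).symm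
          _ ≤ X ^ (1 + 1 / (m : ℝ)) := by
            apply Real.rpow_le_rpow_of_exponent_le hX
            have : 0 ≤ 1 / (m : ℝ) := by positivity
            linarith
      exact h4.trans (pow_le_pow_left₀ (by positivity) hXR _)
    have hd0 : 0 < √|(discr L : ℝ)| := by
      apply Real.sqrt_pos.2
      rw [abs_pos]
      exact_mod_cast NumberField.discr_ne_zero L
    have hd1 : √|(discr L : ℝ)| ≤ X ^ (1 / 2 : ℝ) := by
      rw [← Real.sqrt_eq_rpow]
      exact Real.sqrt_le_sqrt hdisc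
    rw [le_div_iff₀ hd0, div_pow]
    have h6 : X ^ (1 / 2 : ℝ) * √|(discr L : ℝ)| ≤ X := by
      calc X ^ (1 / 2 : ℝ) * √|(discr L : ℝ)| ≤ X ^ (1 / 2 : ℝ) * X ^ (1 / 2 : ℝ) :=
            mul_le_mul_of_nonneg_left hd1 (by positivity)
        _ = X := by rw [← Real.rpow_add hX0]; norm_num
    calc Helper58.NF.vol (finrank ℚ K * n) / 3 ^ (finrank ℚ K * n) * X ^ (1 / 2 : ℝ) *
          √|(discr L : ℝ)|
        = Helper58.NF.vol (finrank ℚ K * n) / 3 ^ (finrank ℚ K * n) *
          (X ^ (1 / 2 : ℝ) * √|(discr L : ℝ)|) := by ring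
      _ ≤ Helper58.NF.vol (finrank ℚ K * n) / 3 ^ (finrank ℚ K * n) *
          R ^ (finrank ℚ K * n) := mul_le_mul_of_nonneg_left (h6.trans h3) (by positivity)
      _ = _ := by ring
  set T : Set (Fin r → 𝓞 L) := {x | ∀ j, x j ∈ S} with hTdef
  obtain ⟨hTfin, hTcard⟩ := TC.ncard_pi S hSfin r
  set G : Set (Fin r → 𝓞 L) := {x : Fin r → 𝓞 L |
        (∀ j, house ((x j : 𝓞 L) : L) ≤ Cb * (1 + n * D) * X ^ e) ∧
        ∀ b, 1 ≤ b → b ≤ B → Good K (fun _ : Fin r => 1) (k * (b - 1) + r * (k - 1)) b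
          (fun j => ((x j : 𝓞 L) : L))} with hGdef
  have hGfin : G.Finite := by
    refine (TC.ncard_pi {x : 𝓞 L | house ((x : 𝓞 L) : L) ≤ Cb * (1 + n * D) * X ^ e}
      (helper22.finite_house_le L _) r).1.subset ?_
    intro x hx j
    exact hx.1 j
  set U : Fin n → 𝓞 L := fun j => ⟨u j, (huB j).1⟩ with hU
  set P : Finset (Fin r → Fin n → ℕ) :=
    Fintype.piFinset fun _ => Fintype.piFinset fun _ => Finset.range (D + 1) with hP
  have hPmem : ∀ c, c ∈ P ↔ ∀ i j, c i j ≤ D := by
    intro c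
    simp only [hP, Fintype.mem_piFinset, Finset.mem_range]
    exact forall₂_congr fun i j => Nat.lt_succ_iff
  have hPcard : P.card = (D + 1) ^ (r * n) := by
    simp only [hP, Fintype.card_piFinset, Finset.card_range, Finset.prod_const, Finset.card_univ,
      Fintype.card_fin]
    rw [← pow_mul, mul_comm]
  have hmain : T.ncard ≤ 2 * G.ncard := by
    refine TC.double_count P (fun c i => ∑ j, (c i j) • U j) T G hTfin hGfin
      (by rw [hPcard]; positivity) ?_
    intro x hx
    rw [hPcard]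
    refine (hD K L hL u hu (fun i => ((x i : 𝓞 L) : L))).trans ?_
    refine Nat.mul_le_mul_left _ (Set.ncard_le_ncard ?_ ?_)
    · intro c hc
      refine ⟨(hPmem c).2 hc.1, ?_, ?_⟩
      · intro i
        rw [helper22.house_le_iff]
        intro φ
        have h1 : (((x + fun i => ∑ j, (c i j) • U j) i : 𝓞 L) : L) =
            ((x i : 𝓞 L) : L) + ∑ j, (c i j : L) * u j := by
          simp only [Pi.add_apply, map_add, map_sum, nsmul_eq_mul]
          rfl
        rw [h1, map_add, map_sum]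
        have h2 : ‖φ ((x i : 𝓞 L) : L)‖ ≤ R := (helper22.house_le_iff _ _).1 (hx i) φ
        have h3 : ∀ j, ‖φ (u j)‖ ≤ R := fun j => (helper22.house_le_iff _ _).1 (huB j).2 φ
        calc ‖φ ((x i : 𝓞 L) : L) + ∑ j, φ ((c i j : L) * u j)‖
            ≤ ‖φ ((x i : 𝓞 L) : L)‖ + ∑ j, ‖φ ((c i j : L) * u j)‖ :=
              (norm_add_le _ _).trans (by gcongr; exact norm_sum_le _ _)
          _ ≤ R + ∑ j : Fin n, (D : ℝ) * R := by
              refine add_le_add h2 (Finset.sum_le_sum fun j _ => ?_)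
              rw [map_mul, norm_mul, map_natCast, Complex.norm_natCast]
              have : (c i j : ℝ) ≤ D := by exact_mod_cast hc.1 i j
              exact mul_le_mul this (h3 j) (norm_nonneg _) (by positivity)
          _ = Cb * (1 + n * D) * X ^ e := by
              rw [Finset.sum_const, Finset.card_univ, Fintype.card_fin, nsmul_eq_mul, hRdef]
              ring
      · intro b hb1 hb2
        have h1 : (fun i => (((x + fun i => ∑ j, (c i j) • U j) i : 𝓞 L) : L)) =
            fun i => ((x i : 𝓞 L) : L) + ∑ j, (c i j : L) * u j := by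
          funext i
          simp only [Pi.add_apply, map_add, map_sum, nsmul_eq_mul]
          rfl
        rw [h1]
        exact hc.2 b hb1 hb2
    · exact P.finite_toSet.subset fun c hc => hc.1
  have hTreal : (T.ncard : ℝ) = (S.ncard : ℝ) ^ r := by
    rw [hTcard]; push_cast; rfl
  have hXr : X ^ ((r : ℝ) / 2) = (X ^ (1 / 2 : ℝ)) ^ r := by
    rw [← Real.rpow_natCast, ← Real.rpow_mul hX0.le]
    congr 1
    ring
  have h7 : (T.ncard : ℝ) ≤ 2 * (G.ncard : ℝ) := by exact_mod_cast hmain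
  have h8 : (Helper58.NF.vol (finrank ℚ K * n) / 3 ^ (finrank ℚ K * n) * X ^ (1 / 2 : ℝ)) ^ r ≤
      (S.ncard : ℝ) ^ r := pow_le_pow_left₀ (by positivity) hcnt r
  rw [hXr]
  rw [mul_pow] at h8
  linarith

end Pool.Agent.UpLog
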