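import Mathlib
import Pool.Agent.UpLog.Defs
import Pool.Agent.UpLog.Basic
import Pool.Agent.UpLog.TC
import Pool.Agent.UpLog.CO

set_option autoImplicit false

/-!
# The final theorem, version A
-/

namespace Pool.Agent.UpLog

open NumberField Module MvPolynomial

namespace FA

variable (K : Type) [Field K]

/-- the point of the algebraic closure given by a tuple of integers -/
noncomputable def pts (L : IntermediateField K (AlgebraicClosure K)) {r : ℕ} (x : Fin r → 𝓞 L) :
    Fin r → AlgebraicClosure K := fun j => (((x j : 𝓞 L) : L) : AlgebraicClosure K)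

theorem pts_injective (L : IntermediateField K (AlgebraicClosure K)) {r : ℕ} :
    Function.Injective (pts K L (r := r)) := by
  intro x y h
  funext j
  have := congrFun h j
  simp only [pts] at this
  exact RingOfIntegers.ext (Subtype.ext this)

/-- a tuple with surjective evaluation generates the field -/
theorem adjoin_eq (L : IntermediateField K (AlgebraicClosure K)) {r : ℕ} (w : Fin r → ℕ) (d : ℕ)
    (x : Fin r → 𝓞 L) (h : Good K w d 1 (fun j => ((x j : 𝓞 L) : L))) :
    IntermediateField.adjoin K (Set.range (pts K L x)) = L := by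
  apply le_antisymm
  · rw [IntermediateField.adjoin_le_iff]
    rintro _ ⟨j, rfl⟩
    exact ((x j : 𝓞 L) : L).2
  · intro y hy
    obtain ⟨f, _, hf⟩ := h (fun _ => ⟨y, hy⟩)
    have h1 := hf 0 (by simp)
    rw [coeff_zero_tay] at h1
    have h2 : aeval (pts K L x) f = y := by
      have h3 := congrArg (algebraMap L (AlgebraicClosure K)) h1
      rw [← MvPolynomial.aeval_algebraMap_apply] at h3
      exact h3
    have h4 : aeval (pts K L x) f ∈ Algebra.adjoin K (Set.range (pts K L x)) := by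
      rw [Algebra.adjoin_range_eq_range_aeval]
      exact ⟨f, rfl⟩
    rw [← h2]
    exact IntermediateField.algebra_adjoin_le_adjoin K _ h4

end FA

theorem final_A (K : Type) [Field K] [NumberField K] (n k r : ℕ) (hn : 1 ≤ n) (hk : 1 ≤ k)
    (hr : n ≤ k ^ r) (ε : ℝ) (hε : 0 < ε) :
    ∃ C : ℝ, 0 < C ∧ ∀ X : ℝ, 1 ≤ X →
      {L : IntermediateField K (AlgebraicClosure K) | finrank K L = n ∧
        ∃ h : NumberField L, ((|@NumberField.discr L _ h| : ℤ) : ℝ) ≤ X}.Finite ∧
      ((Set.ncard {L : IntermediateField K (AlgebraicClosure K) | finrank K L = n ∧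
        ∃ h : NumberField L, ((|@NumberField.discr L _ h| : ℤ) : ℝ) ≤ X} : ℕ) : ℝ) ≤
        C * X ^ (((k : ℝ) - 1 / 2) * r + ε) := by
  classical
  obtain ⟨m₀, hm₀⟩ := exists_nat_gt ((r : ℝ) * (k + 2) / ε)
  set m : ℕ := m₀ + 1 with hmdef
  have hm1 : 1 ≤ m := by omega
  have hm0 : (0 : ℝ) < m := by exact_mod_cast hm1
  have hmε : (r : ℝ) * (k + 2) / m ≤ ε := by
    have h1 : (r : ℝ) * (k + 2) / ε < m := by
      refine hm₀.trans ?_
      rw [hmdef]; push_cast; linarith
    rw [div_lt_iff₀ hε] at h1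
    rw [div_le_iff₀ hm0]
    linarith
  obtain ⟨B, hB1, hcore⟩ := core K (σ := Fin r) n k (r * (k - 1)) m (fun _ => 1) hn hk hm1
    (fun _ => le_rfl)
  obtain ⟨Ct, ct, hCt, hct, hTC⟩ := tuple_count K n k r B m hn hk hr hm1
  obtain ⟨C, hC0, hC⟩ := hcore (finrank ℚ K * n) Ct hCt
  refine ⟨C / ct, by positivity, fun X hX => ?_⟩
  have hX0 : (0 : ℝ) < X := by linarith
  have hn0 : (0 : ℝ) < n := by exact_mod_cast hn
  have hδ : 0 < finrank ℚ K := finrank_pos
  have hδ0 : (0 : ℝ) < (finrank ℚ K : ℝ) := by exact_mod_cast hδ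
  set e : ℝ := (1 + 1 / (m : ℝ)) / ((finrank ℚ K : ℝ) * n) with he
  have he0 : 0 ≤ e := by positivity
  set Y : ℝ := X ^ e with hYdef
  have hY1 : 1 ≤ Y := Real.one_le_rpow hX he0
  have heN : e * ((finrank ℚ K : ℝ) * n) = 1 + 1 / (m : ℝ) := by
    rw [he]; field_simp
  set Ls : Set (IntermediateField K (AlgebraicClosure K)) :=
    {L : IntermediateField K (AlgebraicClosure K) | finrank K L = n ∧
        ∃ h : NumberField L, ((|@NumberField.discr L _ h| : ℤ) : ℝ) ≤ X} with hLs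
  set T : Set (Fin r → AlgebraicClosure K) :=
    {z | ∃ (L : IntermediateField K (AlgebraicClosure K)) (_ : NumberField L)
      (x : Fin r → 𝓞 L), finrank K L = n ∧ ((|discr L| : ℤ) : ℝ) ≤ X ∧ FA.pts K L x = z ∧
      (∀ j, house ((x j : 𝓞 L) : L) ≤ Ct * Y) ∧
      ∀ b, 1 ≤ b → b ≤ B → Good K (fun _ : Fin r => 1) (k * (b - 1) + r * (k - 1)) b
          (fun j => ((x j : 𝓞 L) : L))} with hTdef
  obtain ⟨hTfin, hTle⟩ := hC Y hY1 T (by
    rintro z ⟨L, h, x, hL, hd, rfl, hs, hg⟩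
    refine ⟨L, h, x, fun j => rfl, ⟨hL, ?_, ?_, hg⟩⟩
    · intro j
      rw [pow_one]
      exact hs j
    · have h1 : Y ^ (finrank ℚ K * n) = X ^ (1 + 1 / (m : ℝ)) := by
        rw [hYdef, ← Real.rpow_natCast, ← Real.rpow_mul hX0.le]
        congr 1
        push_cast
        exact heN
      rw [h1]
      have h2 : X ≤ X ^ (1 + 1 / (m : ℝ)) := by
        calc X = X ^ (1 : ℝ) := (Real.rpow_one X).symm
          _ ≤ X ^ (1 + 1 / (m : ℝ)) := by
            apply Real.rpow_le_rpow_of_exponent_le hX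
            have : 0 ≤ 1 / (m : ℝ) := by positivity
            linarith
      have h3 : |(discr L : ℝ)| ≤ X := by
        rw [← Int.cast_abs]; exact hd
      have h4 : 0 ≤ X ^ (1 + 1 / (m : ℝ)) := by positivity
      nlinarith)
  set g : (Fin r → AlgebraicClosure K) → IntermediateField K (AlgebraicClosure K) :=
    fun z => IntermediateField.adjoin K (Set.range z) with hg
  set T' : Finset (Fin r → AlgebraicClosure K) := hTfin.toFinset with hT'
  have hX2 : (0 : ℝ) < X ^ ((r : ℝ) / 2) := by positivity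
  -- every field has many points
  have hcount : ∀ L ∈ Ls, ct * X ^ ((r : ℝ) / 2) ≤ ((T'.filter fun z => g z = L).card : ℝ) := by
    intro L hL
    obtain ⟨hLn, h, hd⟩ := hL
    have hd' : (|(discr L : ℤ)| : ℝ) ≤ X := by
      rw [← Int.cast_abs]; exact hd
    refine (hTC L hLn X hX hd').trans ?_
    rw [← Set.ncard_coe_finset]
    have h1 := Set.ncard_image_of_injective {x : Fin r → 𝓞 L |
        (∀ j, house ((x j : 𝓞 L) : L) ≤ Ct * X ^ ((1 + 1 / (m : ℝ)) / (finrank ℚ K * n))) ∧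
        ∀ b, 1 ≤ b → b ≤ B → Good K (fun _ : Fin r => 1) (k * (b - 1) + r * (k - 1)) b
          (fun j => ((x j : 𝓞 L) : L))} (FA.pts_injective K L (r := r))
    rw [← h1]
    refine Nat.cast_le.2 (Set.ncard_le_ncard ?_ (Finset.finite_toSet _))
    rintro _ ⟨x, hx, rfl⟩
    rw [Finset.coe_filter]
    refine ⟨?_, ?_⟩
    · rw [hT', Set.Finite.mem_toFinset]
      exact ⟨L, h, x, hLn, hd, rfl, hx.1, hx.2⟩
    · exact FA.adjoin_eq K L _ _ x (hx.2 1 le_rfl hB1)
  have hLfin : Ls.Finite := by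
    refine (hTfin.image g).subset ?_
    intro L hL
    have h1 := hcount L hL
    have h2 : 0 < (T'.filter fun z => g z = L).card := by
      have : (0 : ℝ) < ((T'.filter fun z => g z = L).card : ℝ) := lt_of_lt_of_le (by positivity) h1
      exact_mod_cast this
    obtain ⟨z, hz⟩ := Finset.card_pos.1 h2
    rw [Finset.mem_filter] at hz
    exact ⟨z, hTfin.mem_toFinset.1 hz.1, hz.2⟩
  refine ⟨hLfin, ?_⟩
  have hsum : ((Ls.ncard : ℕ) : ℝ) * (ct * X ^ ((r : ℝ) / 2)) ≤ (T.ncard : ℝ) := by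
    rw [Set.ncard_eq_toFinset_card Ls hLfin, Set.ncard_eq_toFinset_card T hTfin]
    calc ((hLfin.toFinset.card : ℕ) : ℝ) * (ct * X ^ ((r : ℝ) / 2))
        = ∑ L ∈ hLfin.toFinset, ct * X ^ ((r : ℝ) / 2) := by
          rw [Finset.sum_const, nsmul_eq_mul]
      _ ≤ ∑ L ∈ hLfin.toFinset, ((T'.filter fun z => g z = L).card : ℝ) :=
          Finset.sum_le_sum fun L hL => hcount L (hLfin.mem_toFinset.1 hL)
      _ = (T'.card : ℝ) := by
          rw [Finset.card_eq_sum_card_fiberwise (f := g) (t := hLfin.toFinset)]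
          · push_cast
            rfl
          · intro z hz
            rw [Finset.mem_coe, hT', hTfin.mem_toFinset] at hz
            obtain ⟨L, h, x, hL, hd, rfl, hs, hgood⟩ := hz
            rw [Finset.mem_coe, hLfin.mem_toFinset]
            have : g (FA.pts K L x) = L := FA.adjoin_eq K L _ _ x (hgood 1 le_rfl hB1)
            rw [this]
            exact ⟨hL, h, hd⟩
  have hfinal : ((Ls.ncard : ℕ) : ℝ) * (ct * X ^ ((r : ℝ) / 2)) ≤
      C * X ^ (((k : ℝ) - 1 / 2) * r + ε) * X ^ ((r : ℝ) / 2) := by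
    refine hsum.trans (hTle.trans ?_)
    rw [mul_assoc C (X ^ (((k : ℝ) - 1 / 2) * r + ε)) (X ^ ((r : ℝ) / 2))]
    refine mul_le_mul_of_nonneg_left ?_ hC0.le
    rw [← Real.rpow_add hX0, hYdef, ← Real.rpow_mul hX0.le]
    apply Real.rpow_le_rpow_of_exponent_le hX
    rw [Fintype.card_fin]
    have h1 : e * (((k : ℝ) + 1 / m) * (finrank ℚ K * n * r)) =
        (1 + 1 / (m : ℝ)) * (((k : ℝ) + 1 / m) * r) := by
      rw [← heN]; ring
    rw [h1]
    have h2 : 1 / (m : ℝ) ≤ 1 := by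
      rw [div_le_one hm0]; exact_mod_cast hm1
    have h3 : 0 ≤ 1 / (m : ℝ) := by positivity
    have h4 : (r : ℝ) * (k + 2) / m = r * (k + 2) * (1 / m) := by ring
    rw [h4] at hmε
    have h5 : (1 / (m : ℝ)) * (1 / m) ≤ 1 / m := by nlinarith
    have hr0 : (0 : ℝ) ≤ r := Nat.cast_nonneg r
    have h6 : (r : ℝ) * ((1 / (m : ℝ)) * (1 / m)) ≤ r * (1 / m) := mul_le_mul_of_nonneg_left h5 hr0
    nlinarith
  have h9 : ((Ls.ncard : ℕ) : ℝ) * ct ≤ C * X ^ (((k : ℝ) - 1 / 2) * r + ε) := by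
    refine le_of_mul_le_mul_right ?_ hX2
    linarith [hfinal]
  rw [div_mul_eq_mul_div, le_div_iff₀ hct]
  exact h9

end Pool.Agent.UpLog
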